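import Pool.Agent.H18G.Stm
import Pool.Agent.N490.PF.Pts

/-!
# Project JG, stub CMPG: the numbers of polynomials of height at most Y and Y / d
-/

set_option autoImplicit false
set_option linter.all false

open Polynomial NumberField
open scoped Classical

namespace Pool.Agent.H18G.CMPG

open Pool.Agent.N783.PF

variable {F : Type} [Field F] [NumberField F]

/-- The polynomial with the given coefficients. -/
noncomputable def mkp (g : ℕ) (c : Fin (2 * g) → 𝓞 F) : (𝓞 F)[X] :=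
  X ^ (2 * g + 1) + ∑ j : Fin (2 * g), C (c j) * X ^ (j : ℕ)

lemma coeff_sum (g : ℕ) (c : Fin (2 * g) → 𝓞 F) (i : ℕ) :
    (∑ j : Fin (2 * g), C (c j) * X ^ (j : ℕ) : (𝓞 F)[X]).coeff i = if h : i < 2 * g then c ⟨i, h⟩ else 0 := by
  rw [finset_sum_coeff]
  simp only [coeff_C_mul, coeff_X_pow]
  split_ifs with h
  · rw [Finset.sum_eq_single ⟨i, h⟩]
    · simp
    · intro b _ hb
      rw [if_neg, mul_zero]
      intro he
      apply hb
      ext
      exact he.symm
    · simp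
  · refine Finset.sum_eq_zero fun b _ => ?_
    rw [if_neg, mul_zero]
    intro he
    apply h
    rw [he]
    exact b.2

lemma deg_sum (g : ℕ) (c : Fin (2 * g) → 𝓞 F) :
    (∑ j : Fin (2 * g), C (c j) * X ^ (j : ℕ) : (𝓞 F)[X]).degree < ((2 * g + 1 : ℕ) : WithBot ℕ) := by
  rw [degree_lt_iff_coeff_zero]
  intro i hi
  rw [coeff_sum, dif_neg (by omega)]

lemma coeff_mkp (g : ℕ) (c : Fin (2 * g) → 𝓞 F) (i : ℕ) :
    (mkp g c).coeff i = (if i = 2 * g + 1 then 1 else 0) + if h : i < 2 * g then c ⟨i, h⟩ else 0 := by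
  unfold mkp
  rw [coeff_add, coeff_X_pow, coeff_sum]

lemma mkp_inj (g : ℕ) : Function.Injective (mkp (F := F) g) := by
  intro c c' h
  funext j
  have h1 := congrArg (fun f : (𝓞 F)[X] => f.coeff (j : ℕ)) h
  simp only [coeff_mkp] at h1
  have hj := j.2
  rw [if_neg (by omega), dif_pos hj, dif_pos hj] at h1
  simpa using h1

lemma bd_zero {R : ℝ} (hR : 0 ≤ R) : Bd ((0 : 𝓞 F) : F) R := by
  intro σ
  simpa using hR

lemma htr_set (g : ℕ) {Y : ℝ} (hY : 0 ≤ Y) (hfin : ∀ R : ℝ, {a : 𝓞 F | Bd (a : F) R}.Finite) :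
    {f : (𝓞 F)[X] | HtR g Y f} =
      mkp g '' ((Fintype.piFinset fun j : Fin (2 * g) => (hfin (Y ^ (2 * g + 1 - (j : ℕ)))).toFinset :
        Finset (Fin (2 * g) → 𝓞 F)) : Set (Fin (2 * g) → 𝓞 F)) := by
  ext f
  simp only [Set.mem_setOf_eq, Set.mem_image, Finset.mem_coe, Fintype.mem_piFinset, Set.Finite.mem_toFinset]
  constructor
  · intro hf
    refine ⟨fun j => f.coeff (j : ℕ), fun j => hf.ht j (by have := j.2; omega), ?_⟩
    ext i
    rw [coeff_mkp]
    congr 1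
    rcases lt_trichotomy i (2 * g) with h | h | h
    · rw [if_neg (by omega), dif_pos h, zero_add]
    · rw [if_neg (by omega), dif_neg (by omega), h, hf.tr, zero_add]
    · rw [dif_neg (by omega), add_zero]
      split_ifs with h1
      · have := hf.mon.coeff_natDegree
        rw [hf.deg] at this
        rw [h1, this]
      · rw [coeff_eq_zero_of_natDegree_lt (by rw [hf.deg]; omega)]
  · rintro ⟨c, hc, rfl⟩
    refine ⟨?_, ?_, ?_, ?_⟩
    · exact monic_X_pow_add (deg_sum g c)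
    · unfold mkp
      rw [natDegree_add_eq_left_of_degree_lt (by rw [degree_X_pow]; exact deg_sum g c), natDegree_X_pow]
    · rw [coeff_mkp, if_neg (by omega), dif_neg (by omega), add_zero]
    · intro j hj
      rw [coeff_mkp, if_neg (by omega), zero_add]
      split_ifs with h
      · exact hc ⟨j, h⟩
      · exact bd_zero (by positivity)

lemma htr_card (g : ℕ) {Y : ℝ} (hY : 0 ≤ Y) (hfin : ∀ R : ℝ, {a : 𝓞 F | Bd (a : F) R}.Finite) :
    {f : (𝓞 F)[X] | HtR g Y f}.Finite ∧ {f : (𝓞 F)[X] | HtR g Y f}.ncard =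
      ∏ j : Fin (2 * g), {a : 𝓞 F | Bd (a : F) (Y ^ (2 * g + 1 - (j : ℕ)))}.ncard := by
  rw [htr_set g hY hfin]
  refine ⟨(Finset.finite_toSet _).image _, ?_⟩
  rw [Set.ncard_image_of_injective _ (mkp_inj g), Set.ncard_coe_finset, Fintype.card_piFinset]
  refine Finset.prod_congr rfl fun j _ => ?_
  rw [Set.ncard_eq_toFinset_card _ (hfin _)]

lemma core (hP : S_PTS) : S_CMPG := by
  intro g F _ _ d hd
  obtain ⟨_, C, hC, h1, h2⟩ := hP F
  have hfin : ∀ R : ℝ, {a : 𝓞 F | Bd (a : F) R}.Finite := by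
    intro R
    rcases le_total 0 R with h | h
    · have := (h2 ⊤ 0 R top_ne_bot h).1
      simpa using this
    · have := (h2 ⊤ 0 0 top_ne_bot le_rfl).1
      refine this.subset fun a ha => ?_
      exact ⟨trivial, fun σ => (ha σ).trans h⟩
  have hup : ∀ R : ℝ, 1 ≤ R → ({a : 𝓞 F | Bd (a : F) R}.ncard : ℝ) ≤ 2 * C * R ^ Module.finrank ℚ F := by
    intro R hR
    have h3 := (h2 ⊤ 0 R top_ne_bot (by linarith)).2
    have e1 : {a : 𝓞 F | a - 0 ∈ (⊤ : Ideal (𝓞 F)) ∧ Bd (a : F) R} = {a : 𝓞 F | Bd (a : F) R} := by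
      ext a
      simp
    rw [e1, Ideal.absNorm_top, Nat.cast_one, div_one] at h3
    have h4 : 1 ≤ R ^ Module.finrank ℚ F := one_le_pow₀ hR
    nlinarith
  refine ⟨∏ j : Fin (2 * g), (2 * C ^ 2 * (d ^ (2 * g + 1 - (j : ℕ))) ^ Module.finrank ℚ F), max 1 d, ?_, ?_⟩
  · exact Finset.prod_pos fun j _ => by positivity
  · intro Y hY
    have hY1 : 1 ≤ Y := le_trans (le_max_left _ _) hY
    have hYd : d ≤ Y := le_trans (le_max_right _ _) hY
    have hY0 : 0 ≤ Y := by linarith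
    have hq : 1 ≤ Y / d := (one_le_div hd).2 hYd
    obtain ⟨h3, h4⟩ := htr_card g hY0 hfin
    obtain ⟨_, h5⟩ := htr_card g (show 0 ≤ Y / d by linarith) hfin
    refine ⟨h3, ?_⟩
    rw [h4, h5]
    push_cast
    rw [← Finset.prod_mul_distrib]
    refine Finset.prod_le_prod (fun _ _ => Nat.cast_nonneg _) fun j _ => ?_
    set k := 2 * g + 1 - (j : ℕ) with hk
    have h6 := hup (Y ^ k) (one_le_pow₀ hY1)
    have h7 := (h1 ((Y / d) ^ k) (one_le_pow₀ hq)).2
    refine h6.trans ?_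
    have e1 : (Y ^ k) ^ Module.finrank ℚ F = (d ^ k) ^ Module.finrank ℚ F * ((Y / d) ^ k) ^ Module.finrank ℚ F := by
      rw [← mul_pow, ← mul_pow]
      congr 2
      field_simp
    rw [e1]
    calc 2 * C * ((d ^ k) ^ Module.finrank ℚ F * ((Y / d) ^ k) ^ Module.finrank ℚ F)
        ≤ 2 * C * ((d ^ k) ^ Module.finrank ℚ F * (C * ({a : 𝓞 F | Bd (a : F) ((Y / d) ^ k)}.ncard : ℝ))) := by
          gcongr
      _ = _ := by ring

theorem t : S_CMPG := core Pool.Agent.N490.PF.pts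

end Pool.Agent.H18G.CMPG
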