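import Pool.Agent.H18G.Stm
import Pool.Agent.H68K.PR.Cqn

/-!
# Project JG (helper68): the part `CQNg` for all `g`
-/

set_option autoImplicit false
set_option linter.all false

open Polynomial Matrix
open scoped Classical

namespace Pool.Agent.H18G.CQNG

theorem t : ∀ g : ℕ, 1 ≤ g → Pool.Agent.H33PR.CQNg g := by
  intro g hg κ _ _ h2 h hm hi hd A hA hdet
  obtain ⟨x, hx, hdet⟩ := hdet
  exact Pool.Agent.H68K.PR.cqn_g (g := g) hg h2 hm hi hd hA hx hdet

end Pool.Agent.H18G.CQNG
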