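import Pool.Agent.H18G.Stm

/-!
# Project JG, stub LIN5: a maximal totally singular group of the hyperbolic quadratic space over the
field with two elements, between `I` and `M`.
-/

set_option autoImplicit false
set_option maxHeartbeats 1000000
set_option linter.all false

open scoped Classical

namespace Pool.Agent.H18G.LIN5


/-- the sign -/
def e (z : ZMod 2) : ℤ := if z = 0 then 1 else -1

lemma e_zero : e 0 = 1 := by simp [e]

lemma e_one : e 1 = -1 := by simp [e]

lemma zmod_cases (z : ZMod 2) : z = 0 ∨ z = 1 := by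
  fin_cases z
  · exact Or.inl rfl
  · exact Or.inr rfl

lemma e_add (x y : ZMod 2) : e (x + y) = e x * e y := by
  rcases zmod_cases x with h | h <;> rcases zmod_cases y with h' | h' <;> subst h <;> subst h'
  · simp [e_zero]
  · simp [e_zero]
  · simp [e_zero]
  · rw [show (1 : ZMod 2) + 1 = 0 by decide, e_zero, e_one]
    norm_num

variable {ι : Type} [Fintype ι]

lemma e_sum (s : Finset ι) (f : ι → ZMod 2) : e (∑ i ∈ s, f i) = ∏ i ∈ s, e (f i) := by
  induction s using Finset.induction_on with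
  | empty => simp [e_zero]
  | insert i s hi ih => rw [Finset.sum_insert hi, Finset.prod_insert hi, e_add, ih]

/-- the quadratic form -/
def qf (x : ι → ZMod 2 × ZMod 2) : ZMod 2 := ∑ i, (x i).1 * (x i).2

/-- the bilinear form -/
def bf (x y : ι → ZMod 2 × ZMod 2) : ZMod 2 := ∑ i, ((x i).1 * (y i).2 + (x i).2 * (y i).1)

lemma q_add (x y : ι → ZMod 2 × ZMod 2) : qf (x + y) = qf x + qf y + bf x y := by
  simp only [qf, bf, ← Finset.sum_add_distrib]
  refine Finset.sum_congr rfl fun i _ => ?_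
  simp only [Pi.add_apply, Prod.fst_add, Prod.snd_add]
  ring

lemma q_zero : qf (0 : ι → ZMod 2 × ZMod 2) = 0 := by simp [qf]

lemma b_add_left (x y z : ι → ZMod 2 × ZMod 2) : bf (x + y) z = bf x z + bf y z := by
  simp only [bf, ← Finset.sum_add_distrib]
  refine Finset.sum_congr rfl fun i _ => ?_
  simp only [Pi.add_apply, Prod.fst_add, Prod.snd_add]
  ring

lemma b_comm (x y : ι → ZMod 2 × ZMod 2) : bf x y = bf y x := by
  simp only [bf]
  refine Finset.sum_congr rfl fun i _ => ?_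
  ring

lemma two_mul_zmod (z : ZMod 2) : z + z = 0 := by
  rcases zmod_cases z with h | h <;> subst h <;> decide

lemma b_self (x : ι → ZMod 2 × ZMod 2) : bf x x = 0 := by
  simp only [bf]
  refine Finset.sum_eq_zero fun i _ => ?_
  rw [mul_comm (x i).2, two_mul_zmod]

lemma add_self (x : ι → ZMod 2 × ZMod 2) : x + x = 0 := by
  funext i
  exact Prod.ext (two_mul_zmod _) (two_mul_zmod _)

/-- the orthogonal group -/
def orth (H : AddSubgroup (ι → ZMod 2 × ZMod 2)) : AddSubgroup (ι → ZMod 2 × ZMod 2) where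
  carrier := {x | ∀ h ∈ H, bf x h = 0}
  zero_mem' := fun h _ => by simp [bf]
  add_mem' := fun {x y} hx hy h hh => by rw [b_add_left, hx h hh, hy h hh, add_zero]
  neg_mem' := fun {x} hx h hh => by
    have : -x = x := by
      rw [neg_eq_iff_add_eq_zero]
      exact add_self x
    rw [this]
    exact hx h hh

lemma mem_orth {H : AddSubgroup (ι → ZMod 2 × ZMod 2)} {x : ι → ZMod 2 × ZMod 2} :
    x ∈ orth H ↔ ∀ h ∈ H, bf x h = 0 := Iff.rfl

lemma sum_char (H : AddSubgroup (ι → ZMod 2 × ZMod 2)) (x : ι → ZMod 2 × ZMod 2) :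
    ∑ h : H, e (bf x h) = if x ∈ orth H then (Nat.card H : ℤ) else 0 := by
  split_ifs with hx
  · rw [Finset.sum_congr rfl (g := fun _ => (1 : ℤ))]
    · simp [Nat.card_eq_fintype_card]
    · intro h _
      rw [mem_orth.1 hx h h.2, e_zero]
  · rw [mem_orth] at hx
    push Not at hx
    obtain ⟨h₀, hh₀, hb⟩ := hx
    have hb1 : bf x h₀ = 1 := (zmod_cases _).resolve_left hb
    have h1 : ∑ h : H, e (bf x h) = ∑ h : H, e (bf x ((h + ⟨h₀, hh₀⟩ : H) : ι → ZMod 2 × ZMod 2)) :=
      (Equiv.sum_comp (Equiv.addRight (⟨h₀, hh₀⟩ : H)) fun h : H => e (bf x h)).symm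
    have h2 : ∀ h : H, e (bf x ((h + ⟨h₀, hh₀⟩ : H) : ι → ZMod 2 × ZMod 2)) = -e (bf x h) := by
      intro h
      rw [AddSubgroup.coe_add, b_comm, b_add_left, b_comm _ x, b_comm _ x, e_add, hb1, e_one]
      ring
    rw [Finset.sum_congr rfl fun h _ => h2 h, Finset.sum_neg_distrib] at h1
    linarith

lemma nondeg {x : ι → ZMod 2 × ZMod 2} (h : ∀ y, bf x y = 0) : x = 0 := by
  funext i
  have h1 := h (Pi.single i (1, 0))
  have h2 := h (Pi.single i (0, 1))
  have e1 : bf x (Pi.single i (1, 0)) = (x i).2 := by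
    rw [bf, Finset.sum_eq_single i]
    · simp
    · intro j _ hj
      simp [Pi.single_eq_of_ne hj]
    · simp
  have e2 : bf x (Pi.single i (0, 1)) = (x i).1 := by
    rw [bf, Finset.sum_eq_single i]
    · simp
    · intro j _ hj
      simp [Pi.single_eq_of_ne hj]
    · simp
  rw [e1] at h1
  rw [e2] at h2
  exact Prod.ext h2 h1

lemma sum_all (x : ι → ZMod 2 × ZMod 2) :
    ∑ y : ι → ZMod 2 × ZMod 2, e (bf x y) = if x = 0 then (Nat.card (ι → ZMod 2 × ZMod 2) : ℤ) else 0 := by
  have h := sum_char (⊤ : AddSubgroup (ι → ZMod 2 × ZMod 2)) x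
  have h1 : ∑ h : (⊤ : AddSubgroup (ι → ZMod 2 × ZMod 2)), e (bf x h) =
      ∑ y : ι → ZMod 2 × ZMod 2, e (bf x y) :=
    Fintype.sum_equiv AddSubgroup.topEquiv.toEquiv _ _ fun _ => rfl
  have h2 : x ∈ orth (⊤ : AddSubgroup (ι → ZMod 2 × ZMod 2)) ↔ x = 0 := by
    constructor
    · intro hx
      exact nondeg fun y => hx y trivial
    · rintro rfl
      exact (orth ⊤).zero_mem
  rw [h1] at h
  rw [h]
  simp only [h2]
  split_ifs
  · rw [Nat.card_congr AddSubgroup.topEquiv.toEquiv]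
  · rfl

lemma card_V : Nat.card (ι → ZMod 2 × ZMod 2) = 4 ^ Fintype.card ι := by
  rw [Nat.card_eq_fintype_card, Fintype.card_fun, Fintype.card_prod]
  simp

lemma card_orth (H : AddSubgroup (ι → ZMod 2 × ZMod 2)) :
    Nat.card H * Nat.card (orth H) = 4 ^ Fintype.card ι := by
  have h1 : ∑ x : ι → ZMod 2 × ZMod 2, ∑ h : H, e (bf x h) = (Nat.card H : ℤ) * Nat.card (orth H) := by
    rw [Finset.sum_congr rfl fun x _ => sum_char H x, Finset.sum_ite, Finset.sum_const,
      Finset.sum_const_zero, add_zero, nsmul_eq_mul, mul_comm]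
    congr 2
    rw [Nat.card_eq_fintype_card, Fintype.card_subtype]
  have h2 : ∑ x : ι → ZMod 2 × ZMod 2, ∑ h : H, e (bf x h) = (4 ^ Fintype.card ι : ℤ) := by
    rw [Finset.sum_comm]
    have : ∀ h : H, ∑ x : ι → ZMod 2 × ZMod 2, e (bf x h) = if h = 0 then (4 ^ Fintype.card ι : ℤ) else 0 := by
      intro h
      rw [Finset.sum_congr rfl fun x _ => by rw [b_comm], sum_all, card_V]
      simp
    rw [Finset.sum_congr rfl fun h _ => this h]
    simp
  have h3 : ((Nat.card H * Nat.card (orth H) : ℕ) : ℤ) = ((4 ^ Fintype.card ι : ℕ) : ℤ) := by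
    push_cast
    rw [← h1, h2]
  exact_mod_cast h3

lemma gauss : ∑ x : ι → ZMod 2 × ZMod 2, e (qf x) = 2 ^ Fintype.card ι := by
  have h1 : ∀ x : ι → ZMod 2 × ZMod 2, e (qf x) = ∏ i, e ((x i).1 * (x i).2) := fun x => e_sum _ _
  rw [Finset.sum_congr rfl fun x _ => h1 x]
  have h2 := Finset.prod_univ_sum (fun _ : ι => (Finset.univ : Finset (ZMod 2 × ZMod 2)))
    (fun _ p => e (p.1 * p.2))
  rw [Fintype.piFinset_univ] at h2
  rw [← h2]
  have h3 : ∑ p : ZMod 2 × ZMod 2, e (p.1 * p.2) = 2 := by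
    rw [Fintype.sum_prod_type]
    decide
  rw [h3]
  simp

/-- a maximal totally singular group has `2 ^ n` elements -/
lemma max_card (Λ : AddSubgroup (ι → ZMod 2 × ZMod 2)) (h0 : ∀ l ∈ Λ, qf l = 0)
    (hm : ∀ x ∈ orth Λ, qf x = 0 → x ∈ Λ) : Nat.card Λ = 2 ^ Fintype.card ι := by
  have hb : ∀ l ∈ Λ, ∀ l' ∈ Λ, bf l l' = 0 := by
    intro l hl l' hl'
    have := q_add l l'
    rw [h0 l hl, h0 l' hl', h0 _ (Λ.add_mem hl hl')] at this
    simpa using this.symm
  have hle : Λ ≤ orth Λ := fun l hl => mem_orth.2 fun l' hl' => hb l hl l' hl'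
  -- the sum over all translates
  have h1 : ∑ x : ι → ZMod 2 × ZMod 2, ∑ l : Λ, e (qf (x + (l : ι → ZMod 2 × ZMod 2))) =
      (Nat.card Λ : ℤ) * 2 ^ Fintype.card ι := by
    rw [Finset.sum_comm]
    have : ∀ l : Λ, ∑ x : ι → ZMod 2 × ZMod 2, e (qf (x + (l : ι → ZMod 2 × ZMod 2))) =
        2 ^ Fintype.card ι := by
      intro l
      rw [← gauss]
      exact Equiv.sum_comp (Equiv.addRight (l : ι → ZMod 2 × ZMod 2)) fun x => e (qf x)
    rw [Finset.sum_congr rfl fun l _ => this l]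
    simp [Nat.card_eq_fintype_card]
  have h2 : ∀ x : ι → ZMod 2 × ZMod 2, ∑ l : Λ, e (qf (x + (l : ι → ZMod 2 × ZMod 2))) =
      if x ∈ orth Λ then (Nat.card Λ : ℤ) * e (qf x) else 0 := by
    intro x
    have : ∀ l : Λ, e (qf (x + (l : ι → ZMod 2 × ZMod 2))) = e (qf x) * e (bf x l) := by
      intro l
      rw [q_add, h0 l l.2, add_zero, e_add]
    rw [Finset.sum_congr rfl fun l _ => this l, ← Finset.mul_sum, sum_char]
    split_ifs <;> ring
  rw [Finset.sum_congr rfl fun x _ => h2 x, Finset.sum_ite, Finset.sum_const_zero, add_zero,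
    ← Finset.mul_sum] at h1
  have hpos : (0 : ℤ) < Nat.card Λ := by exact_mod_cast Nat.card_pos
  have h3 := mul_left_cancel₀ hpos.ne' h1
  have h4 : ∀ x ∈ Finset.univ.filter (fun x => x ∈ orth Λ), e (qf x) = if x ∈ Λ then 2 - 1 else (0 : ℤ) - 1 := by
    intro x hx
    have hx' : x ∈ orth Λ := by simpa using hx
    split_ifs with h
    · rw [h0 x h, e_zero]; norm_num
    · rw [(zmod_cases (qf x)).resolve_left fun h' => h (hm x hx' h'), e_one]; norm_num
  rw [Finset.sum_congr rfl h4] at h3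
  have h5 : ∀ x : ι → ZMod 2 × ZMod 2, (if x ∈ Λ then 2 - 1 else (0 : ℤ) - 1) = 2 * (if x ∈ Λ then 1 else 0) - 1 := by
    intro x
    split_ifs <;> norm_num
  simp only [h5] at h3
  rw [Finset.sum_sub_distrib, ← Finset.mul_sum, Finset.sum_ite, Finset.filter_filter] at h3
  have h6 : (Finset.univ.filter fun x => x ∈ orth Λ ∧ x ∈ Λ).card = Nat.card Λ := by
    rw [Nat.card_eq_fintype_card, Fintype.card_subtype]
    congr 1
    ext x
    simp only [Finset.mem_filter, Finset.mem_univ, true_and]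
    exact ⟨fun h => h.2, fun h => ⟨hle h, h⟩⟩
  have h7 : (Finset.univ.filter fun x => x ∈ orth Λ).card = Nat.card (orth Λ) := by
    rw [Nat.card_eq_fintype_card, Fintype.card_subtype]
  simp only [Finset.sum_const, h6, h7, nsmul_eq_mul, mul_one, mul_zero, add_zero] at h3
  have h8 : ((Nat.card Λ * Nat.card (orth Λ) : ℕ) : ℤ) = ((4 ^ Fintype.card ι : ℕ) : ℤ) := by
    rw [card_orth]
  push_cast at h8
  have h9 : (4 : ℤ) ^ Fintype.card ι = 2 ^ Fintype.card ι * 2 ^ Fintype.card ι := by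
    rw [← mul_pow]; norm_num
  have h10 : (2 * (Nat.card Λ : ℤ) + 2 ^ Fintype.card ι) * ((Nat.card Λ : ℤ) - 2 ^ Fintype.card ι) = 0 := by
    have : (Nat.card Λ : ℤ) * (2 * Nat.card Λ - Nat.card (orth Λ)) = Nat.card Λ * 2 ^ Fintype.card ι := by
      rw [h3]
    linear_combination this + h8 + h9
  rcases mul_eq_zero.1 h10 with h | h
  · have : (0 : ℤ) < 2 ^ Fintype.card ι := by positivity
    linarith
  · have : (Nat.card Λ : ℤ) = 2 ^ Fintype.card ι := by linarith
    exact_mod_cast this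

theorem t : S_LIN5 := by
  intro ι _ a M K I hKM hIM hK hI hKM0 hM1 hM2
  have hcard := card_orth K
  -- `M = K^⊥`
  have hle : M ≤ orth K := by
    intro l hl k hk
    rw [b_comm]
    exact hKM0 k hk l hl
  have hpK : 0 < Nat.card K := Nat.card_pos
  have hpM : 0 < Nat.card M := Nat.card_pos
  have hcle : Nat.card (orth K) ≤ Nat.card M := by
    have h1 : Nat.card K * Nat.card (orth K) * 2 ^ (2 * a) ≤ Nat.card M * Nat.card M := by
      rw [hcard]
      have : 4 ^ Fintype.card ι * 2 ^ (2 * a) = 2 ^ (Fintype.card ι + a) * 2 ^ (Fintype.card ι + a) := by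
        rw [← pow_add, show (4 : ℕ) = 2 ^ 2 by norm_num, ← pow_mul, ← pow_add]
        congr 1
        ring
      rw [this]
      exact Nat.mul_le_mul hM1 hM1
    have h2 : Nat.card M * Nat.card M ≤ (2 ^ (2 * a) * Nat.card K) * Nat.card M :=
      Nat.mul_le_mul hM2 le_rfl
    have h3 : (2 ^ (2 * a) * Nat.card K) * Nat.card (orth K) ≤ (2 ^ (2 * a) * Nat.card K) * Nat.card M := by
      calc (2 ^ (2 * a) * Nat.card K) * Nat.card (orth K) = Nat.card K * Nat.card (orth K) * 2 ^ (2 * a) := by ring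
        _ ≤ _ := h1.trans h2
    exact Nat.le_of_mul_le_mul_left h3 (by positivity)
  have hMK : M = orth K := by
    apply SetLike.coe_injective
    refine Set.Finite.eq_of_subset_of_card_le (Set.toFinite _) hle ?_
    exact hcle
  -- a maximal totally singular group
  have hfin : ({Λ : AddSubgroup (ι → ZMod 2 × ZMod 2) | I ⊔ K ≤ Λ ∧ ∀ l ∈ Λ, qf l = 0}).Finite :=
    Set.toFinite _
  have hne : ({Λ : AddSubgroup (ι → ZMod 2 × ZMod 2) | I ⊔ K ≤ Λ ∧ ∀ l ∈ Λ, qf l = 0}).Nonempty := by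
    refine ⟨I ⊔ K, le_rfl, ?_⟩
    intro l hl
    obtain ⟨i, hi, k, hk, rfl⟩ := AddSubgroup.mem_sup.1 hl
    rw [q_add]
    have e1 : qf i = 0 := hI i hi
    have e2 : qf k = 0 := hK k hk
    have e3 : bf i k = 0 := by
      rw [b_comm]
      exact hKM0 k hk i (hIM hi)
    rw [e1, e2, e3]
    simp
  obtain ⟨Λ, hΛ, hmax⟩ := hfin.exists_maximal hne
  obtain ⟨hsup, h0⟩ := hΛ
  refine ⟨Λ, le_sup_left.trans hsup, ?_, h0, ?_⟩
  · rw [hMK]
    intro l hl k hk
    have hk' : k ∈ Λ := hsup (le_sup_right (a := I) hk)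
    have := q_add l k
    rw [h0 l hl, h0 k hk', h0 _ (Λ.add_mem hl hk')] at this
    simpa using this.symm
  · refine (max_card Λ h0 ?_).ge
    intro x hx hqx
    have hneg : ∀ y : ι → ZMod 2 × ZMod 2, -y = y := fun y => by
      rw [neg_eq_iff_add_eq_zero]
      exact add_self y
    let Λ' : AddSubgroup (ι → ZMod 2 × ZMod 2) :=
      { carrier := {y | y ∈ Λ ∨ y + x ∈ Λ}
        zero_mem' := Or.inl Λ.zero_mem
        add_mem' := by
          rintro y z (hy | hy) (hz | hz)
          · exact Or.inl (Λ.add_mem hy hz)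
          · right
            have := Λ.add_mem hy hz
            rwa [← add_assoc] at this
          · right
            have := Λ.add_mem hy hz
            rwa [add_right_comm] at this
          · left
            have := Λ.add_mem hy hz
            have e1 : y + x + (z + x) = y + z := by
              rw [add_add_add_comm, add_self, add_zero]
            rwa [e1] at this
        neg_mem' := by
          intro y hy
          simp only [Set.mem_ofPred_eq] at hy ⊢
          rwa [hneg] }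
    have hΛ' : Λ' ∈ {Λ : AddSubgroup (ι → ZMod 2 × ZMod 2) | I ⊔ K ≤ Λ ∧ ∀ l ∈ Λ, qf l = 0} := by
      refine ⟨hsup.trans fun y hy => Or.inl hy, ?_⟩
      rintro y (hy | hy)
      · exact h0 y hy
      · have e1 : y = (y + x) + x := by rw [add_assoc, add_self, add_zero]
        rw [e1, q_add, h0 _ hy, hqx, b_comm, mem_orth.1 hx _ hy]
        simp
    have hle' : Λ ≤ Λ' := fun y hy => Or.inl hy
    exact hmax hΛ' hle' (Or.inr (by rw [add_self]; exact Λ.zero_mem))


end Pool.Agent.H18G.LIN5
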