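import Pool.Agent.H18G.Stm
import Pool.Agent.H18PR.Real

/-!
# The signs at the real places (project JG of helper18)

By helper79.
-/

set_option autoImplicit false
set_option linter.all false

open Polynomial NumberField
open scoped Classical

namespace Pool.Agent.H18G.REALX

open Pool.Agent.N783.PF
open Pool.Agent.N31.PF (fin pb minp)
open Pool.Agent.H18PR (card_real pos_right pos_left)

/-! ### Real polynomials -/

/-- multiples of a prime polynomial -/
theorem dvd_iff' {p : ℝ[X]} (hp : Prime p) {z : ℂ} (hz : aeval z p = 0) {q : ℝ[X]}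
    (hq : aeval z q = 0) : p ∣ q := by
  by_contra hnd
  have hco : IsCoprime p q := (hp.irreducible.coprime_iff_not_dvd).2 hnd
  obtain ⟨u, v, huv⟩ := hco
  have := congrArg (aeval z) huv
  rw [map_add, map_mul, map_mul, hz, hq, mul_zero, mul_zero, add_zero, map_one] at this
  exact zero_ne_one this

theorem ex_root {p : ℝ[X]} (hp : Prime p) : ∃ z : ℂ, aeval z p = 0 := by
  have hd : (p.map (algebraMap ℝ ℂ)).degree ≠ 0 := by
    rw [degree_map]
    intro h0
    exact hp.not_unit (isUnit_iff_degree_eq_zero.2 h0)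
  obtain ⟨z, hz⟩ := IsAlgClosed.exists_root _ hd
  exact ⟨z, by rw [← eval_map_algebraMap]; exact hz⟩

theorem aeval_re {z : ℂ} (hz : z.im = 0) (H : ℝ[X]) : aeval z H = ((H.eval z.re : ℝ) : ℂ) := by
  have hze : z = algebraMap ℝ ℂ z.re := by
    apply Complex.ext
    · simp
    · simp [hz]
  conv_lhs => rw [hze]
  rw [aeval_algebraMap_apply, coe_aeval_eq_eval]
  rfl

/-- square roots modulo a squarefree polynomial -/
theorem sqmod (H : ℝ[X]) (p : ℝ[X]) : Squarefree p → (∀ e : ℝ, p.eval e = 0 → 0 ≤ H.eval e) →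
    ∃ s : ℝ[X], p ∣ H - s ^ 2 := by
  refine UniqueFactorizationMonoid.induction_on_prime (P := fun p : ℝ[X] => Squarefree p →
    (∀ e : ℝ, p.eval e = 0 → 0 ≤ H.eval e) → ∃ s : ℝ[X], p ∣ H - s ^ 2) p ?_ ?_ ?_
  · intro h
    exact absurd h not_squarefree_zero
  · intro x hx _ _
    exact ⟨0, hx.dvd⟩
  · intro a p ha hp ih hsq hH
    obtain ⟨s2, hs2⟩ := ih (hsq.squarefree_of_dvd (dvd_mul_left a p))
      (fun e he => hH e (by rw [eval_mul, he, mul_zero]))
    have hco : IsCoprime p a := (hp.irreducible.coprime_iff_not_dvd).2 (fun hd => by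
      obtain ⟨k, hk⟩ := hd
      exact hp.not_unit (hsq p ⟨k, by rw [hk]; ring⟩))
    obtain ⟨z, hz⟩ := ex_root hp
    obtain ⟨s1, hs1⟩ : ∃ s1 : ℝ[X], p ∣ H - s1 ^ 2 := by
      by_cases him : z.im = 0
      · have hpe : p.eval z.re = 0 := by
          have := aeval_re him p
          rw [hz] at this
          exact_mod_cast this.symm
        have h0 := hH z.re (by rw [eval_mul, hpe, zero_mul])
        refine ⟨C (√(H.eval z.re)), dvd_iff' hp hz ?_⟩
        rw [map_sub, map_pow, aeval_C, aeval_re him H, Complex.coe_algebraMap, ← Complex.ofReal_pow,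
          Real.sq_sqrt h0, sub_self]
      · obtain ⟨w, hw⟩ := IsAlgClosed.exists_pow_nat_eq (aeval z H) (n := 2) two_pos
        refine ⟨C (w.re - w.im / z.im * z.re) + C (w.im / z.im) * X, dvd_iff' hp hz ?_⟩
        have h1 : aeval z (C (w.re - w.im / z.im * z.re) + C (w.im / z.im) * X) = w := by
          rw [map_add, map_mul, aeval_C, aeval_C, aeval_X, Complex.coe_algebraMap]
          apply Complex.ext
          · simp
          · simp
            field_simp
        rw [map_sub, map_pow, h1, hw, sub_self]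
    have hco' := hco
    obtain ⟨u, v, huv⟩ := hco
    refine ⟨s1 * (v * a) + s2 * (u * p), hco'.mul_dvd ?_ ?_⟩
    · have e : H - (s1 * (v * a) + s2 * (u * p)) ^ 2 = (H - s1 ^ 2) -
          p * ((s2 - s1) * u * (2 * s1 + p * ((s2 - s1) * u))) := by
        have e1 : s1 * (v * a) + s2 * (u * p) = s1 + p * ((s2 - s1) * u) := by
          linear_combination s1 * huv
        rw [e1]
        ring
      rw [e]
      exact dvd_sub hs1 (dvd_mul_right _ _)
    · have e : H - (s1 * (v * a) + s2 * (u * p)) ^ 2 = (H - s2 ^ 2) -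
          a * ((s1 - s2) * v * (2 * s2 + a * ((s1 - s2) * v))) := by
        have e1 : s1 * (v * a) + s2 * (u * p) = s2 + a * ((s1 - s2) * v) := by
          linear_combination s2 * huv
        rw [e1]
        ring
      rw [e]
      exact dvd_sub hs2 (dvd_mul_right _ _)

/-- the product over the complex roots -/
theorem prodroots (H : ℝ[X]) (p : ℝ[X]) : ∃ t : ℝ, 0 ≤ t ∧
    ((p.map (algebraMap ℝ ℂ)).roots.map (fun z => aeval z H)).prod =
      (((p.roots.map (fun e => H.eval e)).prod * t : ℝ) : ℂ) := by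
  refine UniqueFactorizationMonoid.induction_on_prime (P := fun p : ℝ[X] => ∃ t : ℝ, 0 ≤ t ∧
    ((p.map (algebraMap ℝ ℂ)).roots.map (fun z => aeval z H)).prod =
      (((p.roots.map (fun e => H.eval e)).prod * t : ℝ) : ℂ)) p ?_ ?_ ?_
  · exact ⟨1, zero_le_one, by simp⟩
  · intro x hx
    refine ⟨1, zero_le_one, ?_⟩
    obtain ⟨c, hc, rfl⟩ := Polynomial.isUnit_iff.1 hx
    simp
  · intro a p ha hp ih
    obtain ⟨t2, ht2, h2⟩ := ih
    have hp0 : p ≠ 0 := hp.ne_zero
    obtain ⟨t1, ht1, h1⟩ : ∃ t : ℝ, 0 ≤ t ∧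
        ((p.map (algebraMap ℝ ℂ)).roots.map (fun z => aeval z H)).prod =
          (((p.roots.map (fun e => H.eval e)).prod * t : ℝ) : ℂ) := by
      obtain ⟨z, hz⟩ := ex_root hp
      by_cases him : z.im = 0
      · have hpe : p.IsRoot z.re := by
          have := aeval_re him p
          rw [hz] at this
          have h3 : p.eval z.re = 0 := by exact_mod_cast this.symm
          exact h3
        obtain ⟨k, hk⟩ := dvd_iff_isRoot.2 hpe
        have hu : IsUnit k := (hp.irreducible.isUnit_or_isUnit hk).resolve_left (not_isUnit_X_sub_C _)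
        obtain ⟨c, hc, rfl⟩ := Polynomial.isUnit_iff.1 hu
        have hc0 : c ≠ 0 := hc.ne_zero
        refine ⟨1, zero_le_one, ?_⟩
        have e1 : p.roots = {z.re} := by
          rw [hk, mul_comm, roots_C_mul _ hc0, roots_X_sub_C]
        have e2 : (p.map (algebraMap ℝ ℂ)).roots = {((z.re : ℝ) : ℂ)} := by
          rw [hk, mul_comm, Polynomial.map_mul, map_C, roots_C_mul _ (by simpa using hc0),
            Polynomial.map_sub, map_X, map_C, roots_X_sub_C]
          rfl
        rw [e1, e2]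
        simp only [Multiset.map_singleton, Multiset.prod_singleton, mul_one]
        exact aeval_re (Complex.ofReal_im _) H
      · have hq := Polynomial.quadratic_dvd_of_aeval_eq_zero_im_ne_zero p hz him
        obtain ⟨k, hk⟩ := hq
        have hmap : (X ^ 2 - C (2 * z.re) * X + C (‖z‖ ^ 2) : ℝ[X]).map (algebraMap ℝ ℂ) =
            (X - C z) * (X - C ((starRingEnd ℂ) z)) := by
          simp only [Polynomial.map_mul, Polynomial.map_sub, Polynomial.map_add, Polynomial.map_pow,
            map_X, map_C, Complex.coe_algebraMap]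
          have e1 : ((2 * z.re : ℝ) : ℂ) = z + (starRingEnd ℂ) z := by
            rw [Complex.add_conj]
          have e2 : ((‖z‖ ^ 2 : ℝ) : ℂ) = z * (starRingEnd ℂ) z := by
            rw [Complex.mul_conj, Complex.sq_norm]
          rw [e1, e2, C_add, C_mul]
          ring
        have hqz : aeval z (X ^ 2 - C (2 * z.re) * X + C (‖z‖ ^ 2) : ℝ[X]) = 0 := by
          rw [← eval_map_algebraMap, hmap]
          simp
        have hu : IsUnit k := by
          refine (hp.irreducible.isUnit_or_isUnit hk).resolve_left (fun hu => ?_)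
          obtain ⟨c, hc, hcq⟩ := Polynomial.isUnit_iff.1 hu
          rw [← hcq, aeval_C] at hqz
          exact hc.ne_zero (by simpa using hqz)
        obtain ⟨c, hc, rfl⟩ := Polynomial.isUnit_iff.1 hu
        have hc0 : c ≠ 0 := hc.ne_zero
        refine ⟨Complex.normSq (aeval z H), Complex.normSq_nonneg _, ?_⟩
        have e1 : p.roots = 0 := by
          rw [hk, mul_comm, roots_C_mul _ hc0]
          refine Multiset.eq_zero_of_forall_notMem fun e he => ?_
          have h3 := isRoot_of_mem_roots he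
          rw [IsRoot.def] at h3
          simp only [eval_add, eval_sub, eval_mul, eval_pow, eval_X, eval_C] at h3
          rw [Complex.sq_norm, Complex.normSq_apply] at h3
          have h4 : 0 < z.im * z.im := by
            rcases lt_or_gt_of_ne him with h | h
            · exact mul_pos_of_neg_of_neg h h
            · exact mul_pos h h
          nlinarith [sq_nonneg (e - z.re)]
        have e2 : (p.map (algebraMap ℝ ℂ)).roots = {z, (starRingEnd ℂ) z} := by
          rw [hk, mul_comm, Polynomial.map_mul, map_C, roots_C_mul _ (by simpa using hc0), hmap,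
            roots_mul (mul_ne_zero (X_sub_C_ne_zero _) (X_sub_C_ne_zero _)), roots_X_sub_C, roots_X_sub_C]
          rfl
        rw [e1, e2]
        simp only [Multiset.insert_eq_cons, Multiset.map_cons, Multiset.map_singleton,
          Multiset.prod_cons, Multiset.prod_singleton, Multiset.map_zero, Multiset.prod_zero, one_mul]
        rw [aeval_conj, Complex.mul_conj]
    refine ⟨t1 * t2, mul_nonneg ht1 ht2, ?_⟩
    have hm1 : p.map (algebraMap ℝ ℂ) ≠ 0 := (Polynomial.map_ne_zero_iff (algebraMap ℝ ℂ).injective).2 hp0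
    have hm2 : a.map (algebraMap ℝ ℂ) ≠ 0 := (Polynomial.map_ne_zero_iff (algebraMap ℝ ℂ).injective).2 ha
    rw [Polynomial.map_mul, roots_mul (mul_ne_zero hm1 hm2), roots_mul (mul_ne_zero hp0 ha),
      Multiset.map_add, Multiset.map_add, Multiset.prod_add, Multiset.prod_add, h1, h2]
    push_cast
    ring

theorem odd_root {w : ℝ[X]} (hw : w.Monic) (hd : Odd w.natDegree) : ∃ e, w.eval e = 0 := by
  by_contra hn
  push Not at hn
  have h1 := pos_right hw (y := 0) (fun x _ => hn x)
  have h2 := pos_left hw (y := 0) (fun x _ => hn x)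
  rw [hd.neg_one_pow, neg_one_mul, eval_neg] at h2
  linarith

/-! ### The embeddings -/

section gen

variable {F L : Type} [Field F] [NumberField F] [Field L] [NumberField L] [Algebra F L]
  {g : ℕ} {f : (𝓞 F)[X]} {θ : L}

theorem irrF (h : IsGen g f θ) : Irreducible (fF f) := by
  rw [← minp h]
  exact minpoly.irreducible (pb h).isIntegral_gen

theorem sepF (h : IsGen g f θ) : (fF f).Separable := (irrF h).separable

theorem monR (h : IsGen g f θ) (σ : F →+* ℝ) : ((fF f).map σ).Monic ∧
    ((fF f).map σ).natDegree = 2 * g + 1 ∧ ((fF f).map σ).Separable := by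
  refine ⟨(h.mon.map _).map _, ?_, (sepF h).map⟩
  rw [(h.mon.map _).natDegree_map, h.mon.natDegree_map, h.deg]

theorem ex_poly (h : IsGen g f θ) (x : L) : ∃ p : F[X], aeval θ p = x := by
  obtain ⟨c, rfl⟩ := h.gen x
  refine ⟨∑ i, C (c i) * X ^ (i : ℕ), ?_⟩
  simp [map_sum]

theorem emb (h : IsGen g f θ) (σ : F →+* ℝ) {e : ℝ} (he : ((fF f).map σ).eval e = 0) :
    ∃ τ : L →+* ℝ, ∀ p : F[X], τ (aeval θ p) = (p.map σ).eval e := by
  letI := σ.toAlgebra
  have h1 : aeval e (minpoly F (pb h).gen) = 0 := by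
    have h2 : minpoly F (pb h).gen = fF f := minp h
    rw [h2, aeval_def, ← eval_map]
    exact he
  refine ⟨((pb h).lift e h1).toRingHom, fun p => ?_⟩
  have h3 : (pb h).lift e h1 θ = e := (pb h).lift_gen e h1
  show (pb h).lift e h1 (aeval θ p) = _
  rw [← aeval_algHom_apply, h3, aeval_def, ← eval_map]
  rfl

theorem normC (h : IsGen g f θ) (σ : F →+* ℝ) (p : F[X]) :
    ((σ (Algebra.norm F (aeval θ p)) : ℝ) : ℂ) =
      ((((fF f).map σ).map (algebraMap ℝ ℂ)).roots.map (fun z => aeval z (p.map σ))).prod := by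
  haveI := fin h
  letI : Algebra F ℂ := ((algebraMap ℝ ℂ).comp σ).toAlgebra
  have h1 : algebraMap F ℂ (Algebra.norm F (aeval θ p)) = ∏ τ : L →ₐ[F] ℂ, τ (aeval θ p) :=
    Algebra.norm_eq_prod_embeddings F ℂ (aeval θ p)
  have h0 : ((σ (Algebra.norm F (aeval θ p)) : ℝ) : ℂ) = algebraMap F ℂ (Algebra.norm F (aeval θ p)) := rfl
  rw [h0, h1]
  have hmp : minpoly F (pb h).gen = fF f := minp h
  have hnd : ((minpoly F (pb h).gen).aroots ℂ).Nodup := by
    rw [hmp]
    exact nodup_roots (sepF h).map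
  have key : ∏ τ : L →ₐ[F] ℂ, τ (aeval θ p) =
      ∏ x : {y : ℂ // y ∈ (minpoly F (pb h).gen).aroots ℂ}, (p.map (algebraMap F ℂ)).eval (x : ℂ) :=
    Fintype.prod_equiv (pb h).liftEquiv' _ _ fun σ => by
      rw [PowerBasis.liftEquiv'_apply_coe, ← aeval_algHom_apply, eval_map_algebraMap]
      rfl
  rw [key, Finset.prod_mem_multiset _ _ (fun x => (p.map (algebraMap F ℂ)).eval x)
    (fun _ => rfl), Finset.prod_eq_multiset_prod, Multiset.toFinset_val,
    Multiset.dedup_eq_self.mpr hnd, hmp]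
  have h2 : ((fF f).map σ).map (algebraMap ℝ ℂ) = (fF f).map (algebraMap F ℂ) := by
    rw [Polynomial.map_map]
    rfl
  rw [h2]
  have h3 : (fun z : ℂ => aeval z (p.map σ)) = fun z => (p.map (algebraMap F ℂ)).eval z := by
    funext z
    rw [← eval_map_algebraMap, Polynomial.map_map]
    rfl
  rw [h3]

/-- The real embeddings over a real embedding. -/
noncomputable def T (L : Type) [Field L] [NumberField L] [Algebra F L] (σ : F →+* ℝ) : Finset (L →+* ℝ) :=
  Finset.univ.filter fun τ : L →+* ℝ => τ.comp (algebraMap F L) = σ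

theorem tau_eval {σ : F →+* ℝ} {τ : L →+* ℝ} (hτ : τ ∈ T L σ) (p : F[X]) :
    τ (aeval θ p) = (p.map σ).eval (τ θ) := by
  rw [T, Finset.mem_filter] at hτ
  rw [aeval_def, hom_eval₂, hτ.2, ← eval_map]

theorem emb_mem {σ : F →+* ℝ} {τ : L →+* ℝ} {e : ℝ} (hτ : ∀ p : F[X], τ (aeval θ p) = (p.map σ).eval e) :
    τ ∈ T L σ ∧ τ θ = e := by
  constructor
  · rw [T, Finset.mem_filter]
    refine ⟨Finset.mem_univ _, ?_⟩
    ext c
    have h2 := hτ (C c)
    rw [aeval_C, map_C, eval_C] at h2
    exact h2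
  · have h3 := hτ X
    rw [map_X, eval_X, aeval_X] at h3
    exact h3

theorem T_ne (h : IsGen g f θ) (σ : F →+* ℝ) : (T L σ).Nonempty := by
  obtain ⟨hm, hd, hs⟩ := monR h σ
  obtain ⟨e, he⟩ := odd_root hm (by rw [hd]; exact ⟨g, rfl⟩)
  obtain ⟨τ, hτ⟩ := emb h σ he
  exact ⟨τ, (emb_mem hτ).1⟩

theorem prod_pos (h : IsGen g f θ) (σ : F →+* ℝ) {β : L} (hβ : β ≠ 0)
    (hsq : IsSquare (Algebra.norm F β)) : 0 < ∏ τ ∈ T L σ, τ β := by
  haveI := fin h
  obtain ⟨hm, hd, hs⟩ := monR h σ
  have hN : 0 < σ (Algebra.norm F β) := by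
    obtain ⟨r, hr⟩ := hsq
    have h1 : Algebra.norm F β ≠ 0 := Algebra.norm_ne_zero_iff.2 hβ
    have h2 : σ (Algebra.norm F β) ≠ 0 := by rwa [Ne, map_eq_zero]
    rw [hr, map_mul] at h2 ⊢
    exact lt_of_le_of_ne (mul_self_nonneg _) (Ne.symm h2)
  obtain ⟨p, rfl⟩ := ex_poly h β
  obtain ⟨t, ht, h1⟩ := prodroots (p.map σ) ((fF f).map σ)
  have h2 := normC h σ p
  rw [h1] at h2
  have h3 : σ (Algebra.norm F (aeval θ p)) = (((fF f).map σ).roots.map (fun e => (p.map σ).eval e)).prod * t := by
    exact_mod_cast h2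
  rw [h3] at hN
  have h4 : 0 < (((fF f).map σ).roots.map (fun e => (p.map σ).eval e)).prod :=
    pos_of_mul_pos_left hN ht
  have h5 : (((fF f).map σ).roots.map (fun e => (p.map σ).eval e)).prod =
      ∏ e ∈ ((fF f).map σ).roots.toFinset, (p.map σ).eval e := by
    rw [Finset.prod_eq_multiset_prod, Multiset.toFinset_val, Multiset.dedup_eq_self.mpr (nodup_roots hs)]
  rw [h5] at h4
  refine lt_of_lt_of_eq h4 ?_
  symm
  refine Finset.prod_bij (fun τ _ => τ θ) ?_ ?_ ?_ ?_
  · intro τ hτ
    rw [Multiset.mem_toFinset, mem_roots hm.ne_zero, IsRoot.def, ← tau_eval hτ, h.root, map_zero]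
  · intro τ hτ τ' hτ' hee
    ext x
    obtain ⟨q, rfl⟩ := ex_poly h x
    rw [tau_eval hτ, tau_eval hτ', hee]
  · intro e he
    rw [Multiset.mem_toFinset, mem_roots hm.ne_zero, IsRoot.def] at he
    obtain ⟨τ, hτ⟩ := emb h σ he
    exact ⟨τ, (emb_mem hτ).1, (emb_mem hτ).2⟩
  · intro τ hτ
    exact tau_eval hτ p

theorem count (h : IsGen g f θ) : ∑ σ : F →+* ℝ, ((T L σ).card - 1) + (2 * g * Module.finrank ℚ F +
      2 * Fintype.card (InfinitePlace F)) = 2 * Fintype.card (InfinitePlace L) := by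
  haveI := fin h
  have h1 : Fintype.card (L →+* ℝ) = ∑ σ : F →+* ℝ, (T L σ).card := by
    rw [← Finset.card_univ]
    exact Finset.card_eq_sum_card_fiberwise fun τ _ => Finset.mem_univ _
  have h2 : ∑ σ : F →+* ℝ, (T L σ).card = ∑ σ : F →+* ℝ, ((T L σ).card - 1) + Fintype.card (F →+* ℝ) := by
    have h3 : Fintype.card (F →+* ℝ) = ∑ σ : F →+* ℝ, 1 := by
      rw [Finset.sum_const, Finset.card_univ, smul_eq_mul, mul_one]
    rw [h3, ← Finset.sum_add_distrib]
    refine Finset.sum_congr rfl fun σ _ => ?_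
    have := (T_ne h σ).card_pos
    omega
  rw [h1.symm, card_real, card_real] at h2
  have h4 := InfinitePlace.card_add_two_mul_card_eq_rank F
  have h5 := InfinitePlace.card_add_two_mul_card_eq_rank L
  have h6 := InfinitePlace.card_eq_nrRealPlaces_add_nrComplexPlaces F
  have h7 := InfinitePlace.card_eq_nrRealPlaces_add_nrComplexPlaces L
  have h8 : Module.finrank ℚ F * Module.finrank F L = Module.finrank ℚ L :=
    Module.finrank_mul_finrank ℚ F L
  rw [h.rank] at h8
  have h9 : 2 * g * Module.finrank ℚ F + Module.finrank ℚ F = Module.finrank ℚ L := by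
    rw [← h8]
    ring
  generalize 2 * g * Module.finrank ℚ F = x at h9 ⊢
  omega

end gen

/-- **REALX.** -/
theorem t : S_REALX := by
  intro g F L _ _ _ _ _ f θ hG
  haveI := fin hG
  choose τ₀ hτ₀ using fun σ => T_ne hG σ
  -- the classes
  let Pn : (F →+* ℝ) → Finset (L →+* ℝ) → L → Prop := fun σ A c => c ≠ 0 ∧ IsSquare (Algebra.norm F c) ∧
    ∀ τ ∈ (T L σ).erase (τ₀ σ), (τ c < 0 ↔ τ ∈ A)
  let ch : (F →+* ℝ) → Finset (L →+* ℝ) → L := fun σ A => if H : ∃ c, Pn σ A c then H.choose else 1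
  let Cn : (F →+* ℝ) → Finset L := fun σ => ((T L σ).erase (τ₀ σ)).powerset.image (ch σ)
  refine ⟨Cn, ?_, ?_⟩
  · have h3 : ∀ σ : F →+* ℝ, (Cn σ).card ≤ 2 ^ ((T L σ).card - 1) := by
      intro σ
      refine Finset.card_image_le.trans ?_
      rw [Finset.card_powerset, Finset.card_erase_of_mem (hτ₀ σ)]
    calc _ ≤ (∏ σ : F →+* ℝ, 2 ^ ((T L σ).card - 1)) * 2 ^ (2 * g * Module.finrank ℚ F +
          2 * Fintype.card (InfinitePlace F)) := Nat.mul_le_mul_right _ (Finset.prod_le_prod' fun σ _ => h3 σ)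
      _ = 2 ^ (∑ σ : F →+* ℝ, ((T L σ).card - 1) + (2 * g * Module.finrank ℚ F +
          2 * Fintype.card (InfinitePlace F))) := by
          rw [Finset.prod_pow_eq_pow_sum, ← pow_add]
      _ ≤ _ := by rw [count hG]
  · intro σ
    constructor
    · intro c hc
      simp only [Cn] at hc
      rw [Finset.mem_image] at hc
      obtain ⟨A, -, rfl⟩ := hc
      by_cases H : ∃ c, Pn σ A c
      · have h4 : ch σ A = H.choose := dif_pos H
        rw [h4]
        exact ⟨H.choose_spec.1, H.choose_spec.2.1⟩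
      · have h4 : ch σ A = 1 := dif_neg H
        rw [h4]
        exact ⟨one_ne_zero, by rw [map_one]; exact IsSquare.one⟩
    · intro α hα hsq
      set A : Finset (L →+* ℝ) := ((T L σ).erase (τ₀ σ)).filter (fun τ => τ α < 0) with hA
      have H : ∃ c, Pn σ A c := by
        refine ⟨α, hα, hsq, fun τ hτ => ?_⟩
        rw [hA, Finset.mem_filter]
        exact ⟨fun h => ⟨hτ, h⟩, fun h => h.2⟩
      have h4 : ch σ A = H.choose := dif_pos H
      obtain ⟨h5, h6, h7⟩ := H.choose_spec
      refine ⟨H.choose, ?_, ?_⟩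
      · simp only [Cn]
        rw [Finset.mem_image]
        exact ⟨A, Finset.mem_powerset.2 (Finset.filter_subset _ _), h4⟩
      · set c := H.choose with hc
        intro p hp
        have hβ : α * c ≠ 0 := mul_ne_zero hα h5
        have hβsq : IsSquare (Algebra.norm F (α * c)) := by
          rw [map_mul]
          exact hsq.mul h6
        have hoth : ∀ τ ∈ (T L σ).erase (τ₀ σ), 0 < τ (α * c) := by
          intro τ hτ
          have hτα : τ α ≠ 0 := by rwa [Ne, map_eq_zero]
          have hτc : τ c ≠ 0 := by rwa [Ne, map_eq_zero]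
          have h8 := h7 τ hτ
          rw [hA, Finset.mem_filter] at h8
          rw [map_mul]
          rcases lt_or_gt_of_ne hτα with hlt | hgt
          · exact mul_pos_of_neg_of_neg hlt (h8.2 ⟨hτ, hlt⟩)
          · refine mul_pos hgt (lt_of_le_of_ne (not_lt.1 fun h => ?_) hτc.symm)
            exact absurd (h8.1 h).2 (not_lt.2 hgt.le)
        have hall : ∀ τ ∈ T L σ, 0 < τ (α * c) := by
          intro τ hτ
          by_cases hτ0 : τ = τ₀ σ
          · subst hτ0
            have h8 := prod_pos hG σ hβ hβsq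
            rw [← Finset.mul_prod_erase _ _ (hτ₀ σ)] at h8
            exact pos_of_mul_pos_left h8 (Finset.prod_nonneg fun τ hτ => (hoth τ hτ).le)
          · exact hoth τ (Finset.mem_erase.2 ⟨hτ0, hτ⟩)
        obtain ⟨hm, hd, hs⟩ := monR hG σ
        refine sqmod _ _ hs.squarefree fun e he => ?_
        obtain ⟨τ, hτ⟩ := emb hG σ he
        rw [← hτ p, hp]
        exact (hall τ (emb_mem hτ).1).le

end Pool.Agent.H18G.REALX
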