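import Pool.Agent.H18G.Stm
import Pool.Agent.H68K.PR.Fam5

/-!
# Project JG, part FAMG (helper68): the law (upper bounds) in the family of the twists

After `H68K/PR/Fam6.lean`.
-/

set_option autoImplicit false
set_option linter.all false

open Polynomial IsDedekindDomain Matrix NumberField WithZero
open scoped Classical

namespace Pool.Agent.H18G.FAMG

open Pool.Agent.N783.PF
open Pool.Agent.H68K.PR (pr2 pr2par S_EUL dp_inj dp_size pr2par_add)
open Pool.Agent.H18G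

/-- the count, upper bound -/
theorem cnt1 {α β : Type} (T Tg : Finset α) (Cc : Finset β) (r κ : β → α → Prop) (π ε : ℝ)
    (hT : Tg ⊆ T) (hr : ∀ p ∈ Tg, ∀ c ∈ Cc, r c p)
    (hκ : ∀ p ∈ Tg, ((Cc.filter fun c => κ c p).card : ℝ) ≤ (π + ε) * Cc.card)
    (hπ0 : 0 ≤ π) (hπ1 : π ≤ 1) (hε0 : 0 < ε) (hε1 : ε ≤ 1 / 4)
    (hb : ((T.card : ℝ) - Tg.card) ≤ 2 * ε * T.card) :
    (Cc.card : ℝ) * T.card ≤ 2 * ((Cc ×ˢ T).filter fun x => r x.1 x.2).card ∧
    (((Cc ×ˢ T).filter fun x => r x.1 x.2 ∧ κ x.1 x.2).card : ℝ) ≤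
      (π + 6 * ε) * ((Cc ×ˢ T).filter fun x => r x.1 x.2).card := by
  have hA : ((Cc ×ˢ T).filter fun x => r x.1 x.2).card =
      ∑ p ∈ T, (Cc.filter fun c => r c p).card := by
    rw [Finset.card_filter, Finset.sum_product_right]
    simp only [Finset.card_filter]
  have hAk : ((Cc ×ˢ T).filter fun x => r x.1 x.2 ∧ κ x.1 x.2).card =
      ∑ p ∈ T, (Cc.filter fun c => r c p ∧ κ c p).card := by
    rw [Finset.card_filter, Finset.sum_product_right]
    simp only [Finset.card_filter]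
  obtain ⟨A, hAd⟩ : ∃ A : ℕ, A = ((Cc ×ˢ T).filter fun x => r x.1 x.2).card := ⟨_, rfl⟩
  obtain ⟨Ak, hAkd⟩ : ∃ Ak : ℕ, Ak = ((Cc ×ˢ T).filter fun x => r x.1 x.2 ∧ κ x.1 x.2).card :=
    ⟨_, rfl⟩
  rw [← hAd, ← hAkd]
  rw [← hAd] at hA
  rw [← hAkd] at hAk
  -- upper and lower bounds for `A`
  have a1 : (Cc.card : ℝ) * Tg.card ≤ A := by
    have h1 : Tg.card * Cc.card ≤ A := by
      rw [hA]
      calc Tg.card * Cc.card = ∑ p ∈ Tg, Cc.card := by rw [Finset.sum_const, smul_eq_mul]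
        _ = ∑ p ∈ Tg, (Cc.filter fun c => r c p).card := by
            refine Finset.sum_congr rfl fun p hp => ?_
            rw [Finset.filter_true_of_mem (hr p hp)]
        _ ≤ ∑ p ∈ T, (Cc.filter fun c => r c p).card :=
            Finset.sum_le_sum_of_subset_of_nonneg hT fun _ _ _ => Nat.zero_le _
    rw [mul_comm]
    exact_mod_cast h1
  have k0 : ∀ p ∈ Tg, (Cc.filter fun c => r c p ∧ κ c p) = Cc.filter fun c => κ c p := by
    intro p hp
    refine Finset.filter_congr fun c hc => ?_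
    exact ⟨fun h => h.2, fun h => ⟨hr p hp c hc, h⟩⟩
  have k2 : (Ak : ℝ) ≤ (Tg.card : ℝ) * ((π + ε) * Cc.card) +
      ((T.card : ℝ) - Tg.card) * Cc.card := by
    have h1 : (Ak : ℝ) = (∑ p ∈ Tg, ((Cc.filter fun c => r c p ∧ κ c p).card : ℝ)) +
        ∑ p ∈ T \ Tg, ((Cc.filter fun c => r c p ∧ κ c p).card : ℝ) := by
      rw [add_comm, Finset.sum_sdiff hT, hAk]
      push_cast
      rfl
    rw [h1]
    refine add_le_add ?_ ?_
    · rw [← nsmul_eq_mul, ← Finset.sum_const]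
      refine Finset.sum_le_sum fun p hp => ?_
      rw [k0 p hp]
      exact hκ p hp
    · have h4 : ((T.card : ℝ) - Tg.card) = ((T \ Tg).card : ℝ) := by
        rw [Finset.card_sdiff_of_subset hT, Nat.cast_sub (Finset.card_le_card hT)]
      rw [h4, ← nsmul_eq_mul, ← Finset.sum_const]
      refine Finset.sum_le_sum fun p hp => ?_
      exact_mod_cast Finset.card_filter_le _ _
  have g0 : (0 : ℝ) ≤ Tg.card := Nat.cast_nonneg _
  have c0 : (0 : ℝ) ≤ Cc.card := Nat.cast_nonneg _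
  have t0 : (0 : ℝ) ≤ T.card := Nat.cast_nonneg _
  have g1 : (Tg.card : ℝ) ≤ T.card := by exact_mod_cast Finset.card_le_card hT
  generalize (Tg.card : ℝ) = g at *
  generalize (Cc.card : ℝ) = c at *
  generalize (T.card : ℝ) = t at *
  generalize (A : ℝ) = A' at *
  generalize (Ak : ℝ) = Ak' at *
  have b1 : c * (t - g) ≤ c * (2 * ε * t) := mul_le_mul_of_nonneg_left hb c0
  have b2 : 0 ≤ c * t := mul_nonneg c0 t0
  have b3 : 0 ≤ c * g := mul_nonneg c0 g0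
  have b4 : c * g ≤ c * t := mul_le_mul_of_nonneg_left g1 c0
  have b5 : ε * (c * t) ≤ 1 / 4 * (c * t) := mul_le_mul_of_nonneg_right hε1 b2
  have b6 : c * t ≤ 2 * A' := by nlinarith
  refine ⟨b6, ?_⟩
  have b7 : ε * (c * t) ≤ ε * (2 * A') := mul_le_mul_of_nonneg_left b6 hε0.le
  have b8 : ε * (c * g) ≤ ε * (c * t) := mul_le_mul_of_nonneg_left b4 hε0.le
  have b9 : π * (c * g) ≤ π * A' := mul_le_mul_of_nonneg_left a1 hπ0
  nlinarith

theorem selLe_mono {F : Type} [Field F] [NumberField F] {n m : ℕ} (h : n ≤ m) {f : (𝓞 F)[X]}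
    (hf : SelLe n f) : SelLe m f := by
  obtain ⟨r, h1, h2⟩ := hf
  refine ⟨fun i => if hi : (i : ℕ) < n then r ⟨i, hi⟩ else 1, fun i => ?_, fun k hk => ?_⟩
  · show IsCoprime (if hi : (i : ℕ) < n then r ⟨i, hi⟩ else 1) (fF f)
    split_ifs with hi
    · exact h1 _
    · exact isCoprime_one_left
  · obtain ⟨i, s, hs⟩ := h2 k hk
    refine ⟨⟨i, i.2.trans_le h⟩, s, ?_⟩
    show fF f ∣ k * (if hi : (i : ℕ) < n then r ⟨i, hi⟩ else 1) - s ^ 2
    rw [dif_pos i.2]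
    exact hs

section fld

variable {F : Type} [Field F] [NumberField F]

theorem bd_mul {x : 𝓞 F} {d m : ℕ} (hd : 0 < d) {R : ℝ} :
    Bd ((x * (d : 𝓞 F) ^ m : 𝓞 F) : F) (R ^ m) ↔ Bd (x : F) ((R / d) ^ m) := by
  unfold Bd
  refine forall_congr' fun σ => ?_
  have hd' : (0 : ℝ) < (d : ℝ) ^ m := by positivity
  have e : ‖σ ((x * (d : 𝓞 F) ^ m : 𝓞 F) : F)‖ = ‖σ (x : F)‖ * (d : ℝ) ^ m := by
    simp only [map_mul, map_pow, map_natCast, norm_mul, norm_pow, Complex.norm_natCast]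
  rw [e, div_pow, le_div_iff₀ hd']

/-- the height of a twist -/
theorem htR_tw {g d : ℕ} (hd : 0 < d) {Y : ℝ} {f : (𝓞 F)[X]} (hm : f.Monic)
    (hdeg : f.natDegree = 2 * g + 1) (htr : f.coeff (2 * g) = 0) :
    HtR g Y (f.scaleRoots (d : 𝓞 F)) ↔ HtR g (Y / d) f := by
  constructor
  · intro h
    refine ⟨hm, hdeg, htr, fun j hj => ?_⟩
    have h1 := h.ht j hj
    rw [coeff_scaleRoots, hdeg] at h1
    exact (bd_mul hd).1 h1
  · intro h
    refine ⟨(monic_scaleRoots_iff _).2 hm, ?_, ?_, fun j hj => ?_⟩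
    · rw [natDegree_scaleRoots, hdeg]
    · rw [coeff_scaleRoots, htr, zero_mul]
    · rw [coeff_scaleRoots, hdeg]
      exact (bd_mul hd).2 (h.ht j hj)

theorem htR_mono {g : ℕ} {Y Y' : ℝ} (h0 : 0 ≤ Y') (h : Y' ≤ Y) {f : (𝓞 F)[X]} (hf : HtR g Y' f) :
    HtR g Y f :=
  ⟨hf.mon, hf.deg, hf.tr, fun j hj σ => (hf.ht j hj σ).trans (pow_le_pow_left₀ h0 h _)⟩

end fld

theorem t (h1 : S_BALG) (h2 : S_EXVG) (h3 : S_REGG) (h4 : S_CMPG) (h5 : S_DSJG) (h6 : S_EUL) :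
    S_FAMG := by
  intro g F _ _ hg ε hε
  obtain ⟨W, f₁, cW, hGF, hcW, hB⟩ := h1 g F hg
  have hW : 0 < W := hGF.pos
  obtain ⟨ε', hε'⟩ : ∃ ε' : ℝ, ε' = min (ε / 6) (1 / 4) := ⟨_, rfl⟩
  have hε0 : 0 < ε' := by rw [hε']; positivity
  have hε1 : ε' ≤ 1 / 4 := by rw [hε']; exact min_le_right _ _
  have hε2 : 6 * ε' ≤ ε := by
    have : ε' ≤ ε / 6 := by rw [hε']; exact min_le_left _ _
    linarith
  -- the law of Poonen and Rains
  have hp0 : ∀ k, 0 < pr2 k := h6.1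
  obtain ⟨sg, hsg⟩ : ∃ sg : ℕ → ℝ, sg = fun k => ∑ j ∈ Finset.range (k + 1), pr2 j := ⟨_, rfl⟩
  have hsg1 : ∀ k, sg k ≤ 1 := by
    intro k
    rw [hsg]
    exact sum_le_hasSum _ (fun j _ => (hp0 j).le) h6.2.1
  have hsg0 : ∀ k, 0 ≤ sg k := by
    intro k
    rw [hsg]
    exact Finset.sum_nonneg fun j _ => (hp0 j).le
  have hsgm : ∀ k l, k ≤ l → sg k ≤ sg l := by
    intro k l hkl
    rw [hsg]
    exact Finset.sum_le_sum_of_subset_of_nonneg (Finset.range_subset_range.2 (by omega))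
      fun j _ _ => (hp0 j).le
  obtain ⟨k₀, hk₀⟩ : ∃ k₀ : ℕ, 1 - ε' / 2 ≤ sg k₀ := by
    have h7 := h6.2.1.tendsto_sum_nat
    have h8 := (h7.eventually (eventually_ge_nhds (show 1 - ε' / 2 < 1 by linarith))).exists
    obtain ⟨n, hn⟩ := h8
    refine ⟨n, hn.trans ?_⟩
    rw [hsg]
    exact Finset.sum_le_sum_of_subset_of_nonneg (Finset.range_subset_range.2 (by omega))
      fun j _ _ => (hp0 j).le
  obtain ⟨ε₂, hε₂⟩ : ∃ ε₂ : ℝ, ε₂ = ε' / (2 * (k₀ + 1)) := ⟨_, rfl⟩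
  have hε₂0 : 0 < ε₂ := by rw [hε₂]; positivity
  have hε₂1 : (k₀ + 1) * ε₂ = ε' / 2 := by
    rw [hε₂]
    field_simp
  obtain ⟨δ₀, hδ₀, hRg⟩ := h3 g F hg W cW hW hcW ε' hε0
  obtain ⟨m₀, hm₀⟩ := hB ε₂ δ₀ hε₂0 hδ₀
  obtain ⟨n₀, hn₀⟩ := hm₀ (m₀ + 2) (by omega)
  obtain ⟨η, hη, hreg⟩ := hRg (m₀ + 2)
  obtain ⟨S, R, 𝔮, h, P, Q, hdSR, hGS, hcard, hcube, hQ, hqS, hqR, hcS⟩ :=
    h2 g F hg W m₀ (max n₀ (m₀ + 2)) η hη
  have hbox := hn₀ S R 𝔮 h P hdSR hGS ((le_max_left _ _).trans hcard) hcube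
  have hprime : ∀ q ∈ S ∪ R, q.Prime := fun q hq => (hGS q hq).1
  have hcop : ∀ q ∈ S ∪ R, q.Prime ∧ Nat.Coprime W q := by
    intro q hq
    refine ⟨hprime q hq, Nat.Coprime.symm ?_⟩
    rw [Nat.Prime.coprime_iff_not_dvd (hprime q hq)]
    intro hd
    exact absurd (Nat.le_of_dvd hW hd) (not_le.2 (hGS q hq).2.1)
  have hQr : (0 : ℝ) < Q := by exact_mod_cast hQ
  have hη1 : (0 : ℝ) < 1 + η := by linarith
  obtain ⟨c, Y₁, hc, hY⟩ := hreg (S ∪ R) f₁ P (Law2 S R m₀ (m₀ + 2) ε₂) hcop hbox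
  obtain ⟨D₀, hD₀⟩ : ∃ D₀ : ℝ, D₀ = (Q : ℝ) ^ (m₀ + 2) := ⟨_, rfl⟩
  have hD₀p : 0 < D₀ := by rw [hD₀]; positivity
  obtain ⟨Cm, Y₂, hCm, hY2⟩ := h4 g F D₀ hD₀p
  have hcn : m₀ + 2 ≤ S.card := (le_max_right _ _).trans hcard
  have hSsub : S ⊆ S ∪ R := Finset.subset_union_left
  -- the combinations
  obtain ⟨ψ, hψ⟩ : ∃ ψ : Finset ℕ × ℕ → Finset ℕ, ψ = fun x => insert x.2 x.1 := ⟨_, rfl⟩
  obtain ⟨C1, hC1⟩ : ∃ C1 : Finset (Finset ℕ), C1 = S.powersetCard (m₀ + 2) := ⟨_, rfl⟩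
  obtain ⟨C2, hC2⟩ : ∃ C2 : Finset (Finset ℕ), C2 = ((S.powersetCard m₀) ×ˢ R).image ψ := ⟨_, rfl⟩
  obtain ⟨Cc, hCc⟩ : ∃ Cc : Finset (Finset ℕ), Cc = C1 ∪ C2 := ⟨_, rfl⟩
  obtain ⟨M₁, hM₁⟩ : ∃ M₁ : ℕ, M₁ = S.card.choose (m₀ + 2) := ⟨_, rfl⟩
  have hM₁' : R.card * S.card.choose m₀ = M₁ := by rw [hM₁, hcS]
  have hM₁0 : 0 < M₁ := by
    rw [hM₁]
    exact Nat.choose_pos hcn
  have hrS : ∀ r ∈ R, r ∉ S := fun r hr hr' => (Finset.disjoint_left.1 hdSR) hr' hr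
  have hψinj : ∀ x ∈ (S.powersetCard m₀) ×ˢ R, ∀ y ∈ (S.powersetCard m₀) ×ˢ R, ψ x = ψ y → x = y := by
    intro x hx y hy hxy
    rw [Finset.mem_product, Finset.mem_powersetCard] at hx hy
    rw [hψ] at hxy
    replace hxy : (insert x.2 x.1 : Finset ℕ) = insert y.2 y.1 := hxy
    have e1 : x.2 = y.2 := by
      have h1 : x.2 ∈ (insert y.2 y.1 : Finset ℕ) := by
        rw [← hxy]
        exact Finset.mem_insert_self _ _
      rcases Finset.mem_insert.1 h1 with h2 | h2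
      · exact h2
      · exact absurd (hy.1.1 h2) (hrS _ hx.2)
    have e2 : x.1 = y.1 := by
      have h1 : (insert x.2 x.1).erase x.2 = (insert y.2 y.1).erase y.2 := by
        rw [← e1]
        exact congrArg (fun z : Finset ℕ => z.erase x.2) (by
          have h2 : (insert x.2 x.1 : Finset ℕ) = insert y.2 y.1 := hxy
          rw [h2, e1])
      rw [Finset.erase_insert (fun h0 => hrS _ hx.2 (hx.1.1 h0)),
        Finset.erase_insert (fun h0 => hrS _ hy.2 (hy.1.1 h0))] at h1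
      exact h1
    exact Prod.ext e2 e1
  have hC1mem : ∀ J, J ∈ C1 ↔ J ⊆ S ∧ J.card = m₀ + 2 := by
    intro J
    rw [hC1, Finset.mem_powersetCard]
  have hC2mem : ∀ J, J ∈ C2 ↔ ∃ I ⊆ S, I.card = m₀ ∧ ∃ r ∈ R, J = insert r I := by
    intro J
    rw [hC2, Finset.mem_image]
    constructor
    · rintro ⟨x, hx, rfl⟩
      rw [Finset.mem_product, Finset.mem_powersetCard] at hx
      exact ⟨x.1, hx.1.1, hx.1.2, x.2, hx.2, by rw [hψ]⟩
    · rintro ⟨I, hI, hc, r, hr, rfl⟩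
      refine ⟨(I, r), ?_, by rw [hψ]⟩
      rw [Finset.mem_product, Finset.mem_powersetCard]
      exact ⟨⟨hI, hc⟩, hr⟩
  have hdisj : Disjoint C1 C2 := by
    rw [Finset.disjoint_left]
    intro J hJ hJ'
    rw [hC1mem] at hJ
    rw [hC2mem] at hJ'
    obtain ⟨I, hI, -, r, hr, rfl⟩ := hJ'
    exact hrS r hr (hJ.1 (Finset.mem_insert_self _ _))
  have hCcard : (Cc.card : ℝ) = 2 * M₁ := by
    have : Cc.card = 2 * M₁ := by
      rw [hCc, Finset.card_union_of_disjoint hdisj, hC1, hC2, Finset.card_powersetCard,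
        Finset.card_image_of_injOn (fun x hx y hy => hψinj x hx y hy), Finset.card_product,
        Finset.card_powersetCard, ← hM₁, mul_comm (S.card.choose m₀), hM₁']
      ring
    exact_mod_cast this
  have hCsub : ∀ J ∈ Cc, J ⊆ S ∪ R := by
    intro J hJ
    rw [hCc, Finset.mem_union, hC1mem, hC2mem] at hJ
    rcases hJ with ⟨h1, -⟩ | ⟨I, hI, -, r, hr, rfl⟩
    · exact h1.trans hSsub
    · exact Finset.insert_subset (Finset.mem_union_right _ hr) (hI.trans hSsub)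
  have hδ0 : ∀ J ∈ Cc, 0 < Dp J := by
    intro J hJ
    exact Finset.prod_pos fun q hq => (hprime q (hCsub J hJ hq)).pos
  have hδinj : ∀ x ∈ Cc, ∀ y ∈ Cc, Dp x = Dp y → x = y := by
    intro x hx y hy hxy
    exact (dp_inj hprime (hCsub x hx) (hCsub y hy) one_pos one_pos (by rw [hxy])).1
  have hδsize : ∀ x ∈ Cc, D₀ ≤ Dp x ∧ (Dp x : ℝ) ≤ (1 + η) ^ (m₀ + 2) * D₀ := by
    intro x hx
    rw [hD₀]
    rw [hCc, Finset.mem_union, hC1mem, hC2mem] at hx
    rcases hx with ⟨h1, h2⟩ | ⟨I, hI, hIc, r, hr, rfl⟩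
    · obtain ⟨s1, s2⟩ := dp_size hη h1 hqS
      rw [h2] at s1 s2
      rw [mul_pow] at s2
      exact ⟨s1, s2⟩
    · obtain ⟨s1, s2⟩ := dp_size hη hI hqS
      rw [hIc] at s1 s2
      obtain ⟨r1, r2⟩ := hqR r hr
      have r1' : (Q : ℝ) ^ 2 ≤ (r : ℝ) := by exact_mod_cast r1
      have e : (Dp (insert r I) : ℝ) = (Dp I : ℝ) * r := by
        rw [Dp, Finset.prod_insert (fun h0 => hrS r hr (hI h0)), ← Dp]
        push_cast
        ring
      rw [e]
      constructor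
      · rw [pow_add]
        exact mul_le_mul s1 r1' (by positivity) (Nat.cast_nonneg _)
      · calc (Dp I : ℝ) * r ≤ ((1 + η) * Q) ^ m₀ * ((1 + η) * Q ^ 2) :=
              mul_le_mul s2 r2 (Nat.cast_nonneg _) (by positivity)
          _ ≤ ((1 + η) * Q) ^ m₀ * ((1 + η) ^ 2 * Q ^ 2) := by
              gcongr
              nlinarith
          _ = (1 + η) ^ (m₀ + 2) * (Q : ℝ) ^ (m₀ + 2) := by
              rw [mul_pow, pow_add, pow_add]
              ring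
  refine ⟨W, f₁, S ∪ R, 𝔮, h, P, Cc, hGF, hGS, hCsub, c / (2 * Cm), max (max (D₀ * Y₁) Y₂) 0,
    by positivity, fun Y => ⟨(hY Y).1, fun hYY => ?_⟩⟩
  have hYa : D₀ * Y₁ ≤ Y := ((le_max_left _ _).trans (le_max_left _ _)).trans hYY
  have hYb : Y₂ ≤ Y := ((le_max_right _ _).trans (le_max_left _ _)).trans hYY
  have hYc : 0 ≤ Y := (le_max_right _ _).trans hYY
  obtain ⟨Y', hY'⟩ : ∃ Y' : ℝ, Y' = Y / D₀ := ⟨_, rfl⟩
  have hY'1 : Y₁ ≤ Y' := by
    rw [hY', le_div_iff₀ hD₀p, mul_comm]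
    exact hYa
  have hY'0 : 0 ≤ Y' := by rw [hY']; positivity
  obtain ⟨y1, y2, y3, y4⟩ := (hY Y').2 hY'1
  have hTf : {f : (𝓞 F)[X] | HtR g Y' f ∧ Base g W f₁ (S ∪ R) P f}.Finite :=
    (hY Y').1.subset fun p hp => hp.1
  obtain ⟨T, hT⟩ : ∃ T : Finset (𝓞 F)[X], T = hTf.toFinset := ⟨_, rfl⟩
  have hTm : ∀ p, p ∈ T ↔ HtR g Y' p ∧ Base g W f₁ (S ∪ R) P p := by
    intro p
    rw [hT, Set.Finite.mem_toFinset]
    rfl
  have hTc : {f : (𝓞 F)[X] | HtR g Y' f ∧ Base g W f₁ (S ∪ R) P f}.ncard = T.card := by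
    rw [hT, Set.ncard_eq_toFinset_card _ hTf]
  obtain ⟨Tg, hTg⟩ : ∃ Tg : Finset (𝓞 F)[X], Tg = T.filter fun p =>
    HtR g (Y' / (1 + η) ^ (m₀ + 2)) p ∧ Law2 S R m₀ (m₀ + 2) ε₂ p := ⟨_, rfl⟩
  have hTgT : Tg ⊆ T := by rw [hTg]; exact Finset.filter_subset _ _
  rw [hTc] at y1 y2 y3 y4
  have hbad : ((T.card : ℝ) - Tg.card) ≤ 2 * ε' * T.card := by
    have h1 : (T \ Tg).card ≤
        {f : (𝓞 F)[X] | HtR g Y' f ∧ Base g W f₁ (S ∪ R) P f ∧
          ¬ HtR g (Y' / (1 + η) ^ (m₀ + 2)) f}.ncard +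
        {f : (𝓞 F)[X] | HtR g Y' f ∧ Base g W f₁ (S ∪ R) P f ∧
          ¬ Law2 S R m₀ (m₀ + 2) ε₂ f}.ncard := by
      rw [← Set.ncard_coe_finset]
      refine (Set.ncard_le_ncard ?_ ?_).trans (Set.ncard_union_le _ _)
      · intro p hp
        rw [Finset.mem_coe, Finset.mem_sdiff, hTg, Finset.mem_filter, hTm] at hp
        obtain ⟨⟨h1, h2⟩, h3⟩ := hp
        by_cases h4 : HtR g (Y' / (1 + η) ^ (m₀ + 2)) p
        · right
          exact ⟨h1, h2, fun h5 => h3 ⟨⟨h1, h2⟩, h4, h5⟩⟩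
        · left
          exact ⟨h1, h2, h4⟩
      · refine Set.Finite.union ?_ ?_
        · exact hTf.subset fun p hp => ⟨hp.1, hp.2.1⟩
        · exact hTf.subset fun p hp => ⟨hp.1, hp.2.1⟩
    have h2 : ((T \ Tg).card : ℝ) = (T.card : ℝ) - Tg.card := by
      rw [Finset.card_sdiff_of_subset hTgT, Nat.cast_sub (Finset.card_le_card hTgT)]
    rw [← h2]
    have h3 : ((T \ Tg).card : ℝ) ≤
        ({f : (𝓞 F)[X] | HtR g Y' f ∧ Base g W f₁ (S ∪ R) P f ∧
          ¬ HtR g (Y' / (1 + η) ^ (m₀ + 2)) f}.ncard : ℝ) +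
        ({f : (𝓞 F)[X] | HtR g Y' f ∧ Base g W f₁ (S ∪ R) P f ∧
          ¬ Law2 S R m₀ (m₀ + 2) ε₂ f}.ncard : ℝ) := by exact_mod_cast h1
    linarith
  obtain ⟨φ, hφ⟩ : ∃ φ : Finset ℕ × (𝓞 F)[X] → (𝓞 F)[X], φ = fun x => twf x.1 x.2 :=
    ⟨_, rfl⟩
  obtain ⟨r, hr⟩ : ∃ r : Finset ℕ → (𝓞 F)[X] → Prop, r = fun x p => HtR g (Y / Dp x) p :=
    ⟨_, rfl⟩
  have hφinj : Set.InjOn φ (Cc ×ˢ T : Finset _) := by
    rintro ⟨x, p⟩ hx ⟨y, p'⟩ hy hxy
    rw [Finset.mem_coe, Finset.mem_product] at hx hy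
    rw [hφ] at hxy
    have b1 := ((hTm p).1 hx.2).2
    have b2 := ((hTm p').1 hy.2).2
    obtain ⟨e1, e2⟩ := h5 g F p p' (Dp x) (Dp y) hg (hδ0 x hx.1) (hδ0 y hy.1) b1.mon b2.mon
      b1.deg b2.deg b1.sqf b2.sqf hxy
    exact Prod.ext (hδinj x hx.1 y hy.1 e1) e2
  have hdle : ∀ x ∈ Cc, Y / Dp x ≤ Y' := by
    intro x hx
    rw [hY']
    exact div_le_div_of_nonneg_left hYc hD₀p (hδsize x hx).1
  have hdge : ∀ x ∈ Cc, Y' / (1 + η) ^ (m₀ + 2) ≤ Y / Dp x := by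
    intro x hx
    rw [hY', div_div]
    refine div_le_div_of_nonneg_left hYc (by exact_mod_cast hδ0 x hx) ?_
    rw [mul_comm]
    exact (hδsize x hx).2
  -- the families as images
  have hG : ∀ κ : (𝓞 F)[X] → Prop,
      {f : (𝓞 F)[X] | HtR g Y f ∧ f ∈ Fml g W f₁ (S ∪ R) P Cc ∧ κ f}.ncard =
      ((Cc ×ˢ T).filter fun x => r x.1 x.2 ∧ κ (twf x.1 x.2)).card := by
    intro κ
    rw [← Finset.card_image_of_injOn (f := φ) (hφinj.mono (by
      intro x hx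
      exact Finset.filter_subset _ _ hx)), ← Set.ncard_coe_finset]
    congr 1
    ext P'
    rw [Finset.coe_image, Set.mem_image]
    constructor
    · rintro ⟨h1, ⟨J, hJ, p, hp, rfl⟩, h2⟩
      rw [htR_tw (hδ0 J hJ) hp.mon hp.deg hp.tr] at h1
      refine ⟨(J, p), ?_, by rw [hφ]⟩
      rw [Finset.mem_coe, Finset.mem_filter, Finset.mem_product, hTm, hr]
      exact ⟨⟨hJ, htR_mono (by positivity) (hdle J hJ) h1, hp⟩, h1, h2⟩
    · rintro ⟨⟨x, p⟩, hx, rfl⟩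
      rw [Finset.mem_coe, Finset.mem_filter, Finset.mem_product, hTm, hr] at hx
      obtain ⟨⟨hx1, hx2, hx3⟩, hx4, hx5⟩ := hx
      rw [hφ]
      exact ⟨(htR_tw (hδ0 x hx1) hx3.mon hx3.deg hx3.tr).2 hx4, ⟨x, hx1, p, hx3, rfl⟩, hx5⟩
  have hG0 : {f : (𝓞 F)[X] | HtR g Y f ∧ f ∈ Fml g W f₁ (S ∪ R) P Cc}.ncard =
      ((Cc ×ˢ T).filter fun x => r x.1 x.2).card := by
    have := hG fun _ => True
    simpa only [and_true] using this
  obtain ⟨κ, hκ⟩ : ∃ κ : ℕ → (𝓞 F)[X] → Prop, κ = fun k f => ¬ SelLe (2 ^ k) f := ⟨_, rfl⟩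
  have hcount : ∀ p ∈ Tg, ∀ k : ℕ, ((Cc.filter fun x => κ k (twf x p)).card : ℝ) ≤
      (1 - sg k + (k + 1) * ε₂) * Cc.card := by
    intro p hp k
    rw [hTg, Finset.mem_filter] at hp
    obtain ⟨-, -, e, he, hlaw⟩ := hp
    have e1 : (Cc.filter fun x => κ k (twf x p)) ⊆ Cc.filter fun x => ¬ e x ≤ k := by
      intro x hx
      rw [Finset.mem_filter] at hx ⊢
      refine ⟨hx.1, fun hle => ?_⟩
      have h7 := hx.2
      rw [hκ] at h7
      exact h7 (selLe_mono (Nat.pow_le_pow_right (by norm_num) hle) (he x (hCsub x hx.1)))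
    have e3 : ∀ j : ℕ, (pr2 j - ε₂) * Cc.card ≤ ((Cc.filter fun x => e x = j).card : ℝ) := by
      intro j
      have e2 : ((Cc.filter fun x => e x = j).card : ℝ) =
          (((S.powersetCard (m₀ + 2)).filter fun J => e J = j).card : ℝ) +
          ∑ r ∈ R, (((S.powersetCard m₀).filter fun J => e (insert r J) = j).card : ℝ) := by
        have h1 : (C2.filter fun x => e x = j).card =
            ∑ r ∈ R, ((S.powersetCard m₀).filter fun J => e (insert r J) = j).card := by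
          rw [hC2, Finset.filter_image, Finset.card_image_of_injOn (fun x hx y hy =>
            hψinj x (Finset.filter_subset _ _ hx) y (Finset.filter_subset _ _ hy)),
            Finset.card_filter, Finset.sum_product_right]
          refine Finset.sum_congr rfl fun r hr => ?_
          rw [Finset.card_filter, hψ]
        rw [hCc, Finset.filter_union, Finset.card_union_of_disjoint
          (Finset.disjoint_filter_filter hdisj), h1, hC1]
        push_cast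
        rfl
      have hc1 : (0 : ℝ) < S.card.choose (m₀ + 2) := by
        rw [← hM₁]
        exact_mod_cast hM₁0
      have hc0 : (0 : ℝ) < S.card.choose m₀ := by
        exact_mod_cast Nat.choose_pos (by omega)
      have l1 := (hlaw (m₀ + 2) (by omega) le_rfl j).1
      have l0 := (hlaw m₀ le_rfl (by omega) j).2
      have hM1r : (M₁ : ℝ) = S.card.choose (m₀ + 2) := by rw [hM₁]
      have hM0r : (R.card : ℝ) * (S.card.choose m₀ : ℝ) = M₁ := by exact_mod_cast hM₁'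
      have l1' : (pr2par (e ∅ + (m₀ + 2)) j - ε₂) * M₁ ≤
          (((S.powersetCard (m₀ + 2)).filter fun J => e J = j).card : ℝ) := by
        rw [hM1r, ← le_div_iff₀ hc1]
        have := (abs_le.1 l1).1
        linarith
      have l0' : (pr2par (e ∅ + 1 + m₀) j - ε₂) * M₁ ≤
          ∑ r ∈ R, (((S.powersetCard m₀).filter fun J => e (insert r J) = j).card : ℝ) := by
        have h8 : (pr2par (e ∅ + 1 + m₀) j - ε₂) * M₁ =
            ∑ r ∈ R, (pr2par (e ∅ + 1 + m₀) j - ε₂) * (S.card.choose m₀ : ℝ) := by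
          rw [Finset.sum_const, nsmul_eq_mul, ← hM0r]
          ring
        rw [h8]
        refine Finset.sum_le_sum fun r hr => ?_
        rw [← le_div_iff₀ hc0]
        have := (abs_le.1 (l0 r hr)).1
        linarith
      rw [e2, hCcard]
      have h3 := pr2par_add (e ∅ + 1 + m₀) j
      rw [show e ∅ + 1 + m₀ + 1 = e ∅ + (m₀ + 2) by ring] at h3
      have h4 : (pr2 j - ε₂) * (2 * (M₁ : ℝ)) = (pr2par (e ∅ + (m₀ + 2)) j - ε₂) * M₁ +
          (pr2par (e ∅ + 1 + m₀) j - ε₂) * M₁ := by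
        have h9 : 2 * pr2 j * M₁ = (pr2par (e ∅ + (m₀ + 2)) j + pr2par (e ∅ + 1 + m₀) j) * M₁ := by
          rw [h3]
        linarith
      rw [h4]
      linarith
    have e4 : (Cc.filter fun x => ¬ e x ≤ k).card + (Cc.filter fun x => e x ≤ k).card = Cc.card := by
      rw [add_comm, Finset.card_filter_add_card_filter_not]
    have e5 : (Cc.filter fun x => e x ≤ k).card =
        ∑ j ∈ Finset.range (k + 1), (Cc.filter fun x => e x = j).card := by
      rw [Finset.card_eq_sum_card_fiberwise (f := e) (t := Finset.range (k + 1)) (by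
        intro x hx
        rw [Finset.mem_coe, Finset.mem_filter] at hx
        rw [Finset.mem_coe, Finset.mem_range]
        omega)]
      refine Finset.sum_congr rfl fun j hj => ?_
      rw [Finset.mem_range] at hj
      congr 1
      ext x
      rw [Finset.mem_filter, Finset.mem_filter, Finset.mem_filter]
      constructor
      · rintro ⟨⟨a, -⟩, b⟩
        exact ⟨a, b⟩
      · rintro ⟨a, b⟩
        exact ⟨⟨a, by omega⟩, b⟩
    have e6 : (sg k - (k + 1) * ε₂) * Cc.card ≤ ((Cc.filter fun x => e x ≤ k).card : ℝ) := by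
      rw [e5, hsg]
      push_cast
      have h7 : (∑ j ∈ Finset.range (k + 1), pr2 j - (k + 1) * ε₂) * (Cc.card : ℝ) =
          ∑ j ∈ Finset.range (k + 1), (pr2 j - ε₂) * Cc.card := by
        rw [← Finset.sum_mul, Finset.sum_sub_distrib, Finset.sum_const, Finset.card_range,
          nsmul_eq_mul]
        push_cast
        ring
      rw [h7]
      exact Finset.sum_le_sum fun j _ => e3 j
    have e7 : ((Cc.filter fun x => κ k (twf x p)).card : ℝ) ≤
        ((Cc.filter fun x => ¬ e x ≤ k).card : ℝ) := by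
      exact_mod_cast Finset.card_le_card e1
    have e8 : ((Cc.filter fun x => ¬ e x ≤ k).card : ℝ) +
        ((Cc.filter fun x => e x ≤ k).card : ℝ) = Cc.card := by exact_mod_cast e4
    linarith
  have hcount2 : ∀ p ∈ Tg, ∀ k : ℕ, ((Cc.filter fun x => κ k (twf x p)).card : ℝ) ≤
      (1 - sg k + ε') * Cc.card := by
    intro p hp k
    have hcc : (0 : ℝ) ≤ Cc.card := Nat.cast_nonneg _
    rcases le_or_gt k k₀ with hk | hk
    · refine (hcount p hp k).trans (mul_le_mul_of_nonneg_right ?_ hcc)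
      have h7 : ((k : ℝ) + 1) * ε₂ ≤ (k₀ + 1) * ε₂ := by
        refine mul_le_mul_of_nonneg_right ?_ hε₂0.le
        have : (k : ℝ) ≤ k₀ := by exact_mod_cast hk
        linarith
      linarith
    · have h7 : ((Cc.filter fun x => κ k (twf x p)).card : ℝ) ≤
          ((Cc.filter fun x => κ k₀ (twf x p)).card : ℝ) := by
        have : (Cc.filter fun x => κ k (twf x p)).card ≤
            (Cc.filter fun x => κ k₀ (twf x p)).card := by
          refine Finset.card_le_card fun x hx => ?_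
          rw [Finset.mem_filter] at hx ⊢
          refine ⟨hx.1, ?_⟩
          have h8 := hx.2
          rw [hκ] at h8 ⊢
          exact fun h9 => h8 (selLe_mono (Nat.pow_le_pow_right (by norm_num) hk.le) h9)
        exact_mod_cast this
      refine h7.trans ((hcount p hp k₀).trans (mul_le_mul_of_nonneg_right ?_ hcc))
      have := hsg1 k
      linarith
  have hcnt := fun k => cnt1 T Tg Cc r (fun x p => κ k (twf x p)) (1 - sg k) ε' hTgT
    (by
      intro p hp x hx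
      rw [hTg, Finset.mem_filter] at hp
      rw [hr]
      exact htR_mono (by positivity) (hdge x hx) hp.2.1)
    (fun p hp => hcount2 p hp k) (by linarith [hsg1 k]) (by linarith [hsg0 k]) hε0 hε1 hbad
  have hM1 : (1 : ℝ) ≤ M₁ := by exact_mod_cast hM₁0
  have hTp : (0 : ℝ) < T.card := by exact_mod_cast y1
  have hmain := (hcnt 0).1
  rw [hCcard, ← hG0] at hmain
  have hT1 : (T.card : ℝ) ≤
      2 * ({f : (𝓞 F)[X] | HtR g Y f ∧ f ∈ Fml g W f₁ (S ∪ R) P Cc}.ncard : ℝ) := by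
    nlinarith
  refine ⟨?_, ?_, fun k => ?_⟩
  · have : (0 : ℝ) < ({f : (𝓞 F)[X] | HtR g Y f ∧ f ∈ Fml g W f₁ (S ∪ R) P Cc}.ncard : ℝ) := by
      linarith
    exact_mod_cast this
  · have h7 := (hY2 Y hYb).2
    rw [← hY'] at h7
    have h8 : (c / (2 * Cm)) * ({f : (𝓞 F)[X] | HtR g Y f}.ncard : ℝ) ≤
        (c / (2 * Cm)) * (Cm * ({f : (𝓞 F)[X] | HtR g Y' f}.ncard : ℝ)) :=
      mul_le_mul_of_nonneg_left h7 (by positivity)
    have h9 : (c / (2 * Cm)) * (Cm * ({f : (𝓞 F)[X] | HtR g Y' f}.ncard : ℝ)) =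
        (c * ({f : (𝓞 F)[X] | HtR g Y' f}.ncard : ℝ)) / 2 := by
      field_simp
    linarith
  · have h7 := (hcnt k).2
    have h8 := hG (κ k)
    rw [hκ] at h8
    rw [hκ] at h7
    rw [h8, hG0]
    refine h7.trans (mul_le_mul_of_nonneg_right ?_ (Nat.cast_nonneg _))
    rw [hsg]
    linarith

end Pool.Agent.H18G.FAMG
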