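import Pool.Agent.H10PR.AO
import Pool.Agent.H10PR.Ord
import Pool.Agent.H10PR.Ring

/-!
# The ring of integers of the unramified extension of degree `n`

Project JG (helper18), part TWOX, by helper10. Compare `H10PR/AO.lean` (degree three).
-/

set_option autoImplicit false
set_option linter.all false

open Polynomial

noncomputable section

namespace Pool.Agent.H18G.TWOX

open Pool.Agent.H10PR

/-- norms and base change -/
theorem norm_map {R₁ R₂ A₁ A₂ : Type} [CommRing R₁] [CommRing R₂] [CommRing A₁] [CommRing A₂]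
    [Algebra R₁ A₁] [Algebra R₂ A₂] {n : ℕ} (i : R₁ →+* R₂) (j : A₁ →+* A₂)
    (b₁ : Module.Basis (Fin n) R₁ A₁) (b₂ : Module.Basis (Fin n) R₂ A₂)
    (hb : ∀ k, j (b₁ k) = b₂ k) (hij : ∀ c, j (algebraMap R₁ A₁ c) = algebraMap R₂ A₂ (i c))
    (x : A₁) : Algebra.norm R₂ (j x) = i (Algebra.norm R₁ x) := by
  rw [Algebra.norm_eq_matrix_det b₂, Algebra.norm_eq_matrix_det b₁, RingHom.map_det]
  congr 1
  ext k l
  rw [Algebra.leftMulMatrix_eq_repr_mul, RingHom.mapMatrix_apply, Matrix.map_apply,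
    Algebra.leftMulMatrix_eq_repr_mul, ← hb, ← map_mul]
  have e1 : j (x * b₁ l) = ∑ m, i (b₁.repr (x * b₁ l) m) • b₂ m := by
    conv_lhs => rw [← b₁.sum_repr (x * b₁ l)]
    rw [map_sum]
    refine Finset.sum_congr rfl fun m _ => ?_
    rw [Algebra.smul_def, Algebra.smul_def, map_mul, hij, hb]
  rw [e1, Module.Basis.repr_sum_self]

section

variable {O : Type} [CommRing O] [IsDomain O] {f : O[X]} {n : ℕ} (hm : f.Monic)
  (hn : f.natDegree = n)

/-- the basis `1, r, ..., r ^ (n - 1)` of `A` -/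
def bA : Module.Basis (Fin n) O (AdjoinRoot f) :=
  (AdjoinRoot.powerBasis' hm).basis.reindex (finCongr hn)

theorem bA_apply (i : Fin n) : bA hm hn i = AdjoinRoot.root f ^ (i : ℕ) := by
  rw [bA, Module.Basis.reindex_apply, PowerBasis.coe_basis]
  rfl

/-- the coordinates of a multiple -/
theorem dvd_coord {c : O} {x : AdjoinRoot f} :
    algebraMap O (AdjoinRoot f) c ∣ x ↔ ∀ i, c ∣ (bA hm hn).repr x i := by
  constructor
  · rintro ⟨y, rfl⟩ i
    rw [← Algebra.smul_def, map_smul, Finsupp.smul_apply, smul_eq_mul]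
    exact dvd_mul_right _ _
  · intro h
    choose d hd using h
    refine ⟨∑ i, d i • bA hm hn i, ?_⟩
    rw [← Algebra.smul_def, Finset.smul_sum]
    conv_lhs => rw [← (bA hm hn).sum_repr x]
    refine Finset.sum_congr rfl fun i _ => ?_
    rw [hd i, mul_smul]

variable (h0 : 0 < n)

theorem coord_one (c : O) :
    (bA hm hn).repr (algebraMap O (AdjoinRoot f) c) ⟨0, h0⟩ = c := by
  have h1 : algebraMap O (AdjoinRoot f) c = c • bA hm hn ⟨0, h0⟩ := by
    rw [bA_apply, pow_zero, Algebra.smul_def, mul_one]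
  rw [h1, map_smul, Finsupp.smul_apply, Module.Basis.repr_self, Finsupp.single_apply, smul_eq_mul,
    if_pos rfl, mul_one]

include hm hn h0 in
theorem dvd_alg {c d : O} :
    algebraMap O (AdjoinRoot f) c ∣ algebraMap O (AdjoinRoot f) d ↔ c ∣ d := by
  constructor
  · intro h
    have := (dvd_coord hm hn).1 h ⟨0, h0⟩
    rwa [coord_one] at this
  · exact fun h => map_dvd _ h

/-! ### The map to `M` -/

variable {K M : Type} [Field K] [Algebra O K] [IsFractionRing O K] [Field M] [Algebra K M] {θ : M}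

variable (hr : eval₂ ((algebraMap K M).comp (algebraMap O K)) θ f = 0)
  (bM : Module.Basis (Fin n) K M) (hbM : ∀ i, bM i = θ ^ (i : ℕ))

/-- the map to `M` -/
def jA : AdjoinRoot f →+* M :=
  AdjoinRoot.lift ((algebraMap K M).comp (algebraMap O K)) θ hr

theorem jA_alg (c : O) : jA hr (algebraMap O _ c) = algebraMap K M (algebraMap O K c) := by
  rw [AdjoinRoot.algebraMap_eq]
  exact AdjoinRoot.lift_of _

theorem jA_root : jA hr (AdjoinRoot.root f) = θ := AdjoinRoot.lift_root _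

include hbM in
theorem jA_bA (i : Fin n) : jA hr (bA hm hn i) = bM i := by
  rw [bA_apply, map_pow, jA_root, hbM]

include hbM in
theorem jA_eq (x : AdjoinRoot f) :
    jA hr x = ∑ i : Fin n, algebraMap O K ((bA hm hn).repr x i) • bM i := by
  conv_lhs => rw [← (bA hm hn).sum_repr x]
  rw [map_sum]
  refine Finset.sum_congr rfl fun i _ => ?_
  rw [Algebra.smul_def, map_mul, jA_alg, jA_bA hm hn hr bM hbM, Algebra.smul_def]

include hm hn hbM in
theorem jA_inj : Function.Injective (jA hr) := by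
  rw [injective_iff_map_eq_zero]
  intro x hx
  rw [jA_eq hm hn hr bM hbM] at hx
  apply (bA hm hn).ext_elem
  intro i
  rw [map_zero, Finsupp.zero_apply]
  apply IsFractionRing.injective O K
  rw [map_zero]
  exact Fintype.linearIndependent_iff.1 bM.linearIndependent _ hx i

include hm hn hbM in
theorem norm_j (x : AdjoinRoot f) :
    Algebra.norm K (jA hr x) = algebraMap O K (Algebra.norm O x) :=
  norm_map (algebraMap O K) (jA hr) (bA hm hn) bM (jA_bA hm hn hr bM hbM) (jA_alg hr) x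

end

/-! ### `A` is a complete discrete valuation ring -/

section

variable {O : Type} [CommRing O] [IsDomain O] {π : O} {e : ℕ} {f : O[X]} {n : ℕ} (hm : f.Monic)
  (hn : f.natDegree = n) (h0 : 0 < n)

/-- the residue ring of `A` -/
def qA (π : O) (f : O[X]) : (AdjoinRoot f ⧸ Ideal.span {algebraMap O (AdjoinRoot f) π}) ≃+*
    AdjoinRoot (f.map (Ideal.Quotient.mk (Ideal.span {π}))) :=
  (Ideal.quotEquivOfEq (by
    rw [AdjoinRoot.algebraMap_eq, Ideal.map_span, Set.image_singleton])).trans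
      (AdjoinRoot.quotAdjoinRootEquivQuotPolynomialQuot (Ideal.span {π}) f)

include hm hn in
theorem qA_card (h : CD O π e) (hi : Irreducible (f.map (Ideal.Quotient.mk (Ideal.span {π})))) :
    (Ideal.span {algebraMap O (AdjoinRoot f) π}).IsMaximal ∧
    Finite (AdjoinRoot f ⧸ Ideal.span {algebraMap O (AdjoinRoot f) π}) ∧
    Nat.card (AdjoinRoot f ⧸ Ideal.span {algebraMap O (AdjoinRoot f) π}) =
      Nat.card (O ⧸ Ideal.span {π}) ^ n := by
  haveI := h.maxl
  haveI := h.fin
  letI : Field (O ⧸ Ideal.span {π}) := Ideal.Quotient.field _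
  haveI : Fact (Irreducible (f.map (Ideal.Quotient.mk (Ideal.span {π})))) := ⟨hi⟩
  have h1 : IsField (AdjoinRoot (f.map (Ideal.Quotient.mk (Ideal.span {π})))) :=
    Field.toIsField _
  have hm' := hm.map (Ideal.Quotient.mk (Ideal.span {π}))
  haveI : Module.Finite (O ⧸ Ideal.span {π})
    (AdjoinRoot (f.map (Ideal.Quotient.mk (Ideal.span {π})))) :=
      (AdjoinRoot.powerBasis' hm').finite
  have h2 : Finite (AdjoinRoot (f.map (Ideal.Quotient.mk (Ideal.span {π})))) :=
    Module.finite_of_finite (O ⧸ Ideal.span {π})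
  refine ⟨?_, ?_, ?_⟩
  · exact Ideal.Quotient.maximal_of_isField _ ((qA π f).toMulEquiv.isField h1)
  · exact Finite.of_equiv _ (qA π f).symm.toEquiv
  · rw [Nat.card_congr (qA π f).toEquiv,
      Module.natCard_eq_pow_finrank (K := O ⧸ Ideal.span {π}), (AdjoinRoot.powerBasis' hm').finrank]
    congr 1
    show (f.map (Ideal.Quotient.mk (Ideal.span {π}))).natDegree = n
    rw [hm.natDegree_map, hn]

include hm hn h0 in
theorem cd_A [IsDomain (AdjoinRoot f)] (h : CD O π e)
    (hi : Irreducible (f.map (Ideal.Quotient.mk (Ideal.span {π})))) :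
    CD (AdjoinRoot f) (algebraMap O (AdjoinRoot f) π) e := by
  obtain ⟨hm', hf, -⟩ := qA_card hm hn h hi
  set p := algebraMap O (AdjoinRoot f) π with hp
  have hp0 : p ≠ 0 := by
    intro h0'
    have h2 : algebraMap O (AdjoinRoot f) 0 ∣ p := by rw [map_zero, h0']
    exact h.pr.ne_zero (zero_dvd_iff.1 ((dvd_alg hm hn h0).1 h2))
  have hpr : Prime p := (Ideal.span_singleton_prime hp0).1 hm'.isPrime
  have hsep : ∀ x : AdjoinRoot f, (∀ n, p ^ n ∣ x) → x = 0 := by
    intro x hx
    apply (bA hm hn).ext_elem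
    intro i
    rw [map_zero, Finsupp.zero_apply]
    apply h.sep
    intro n
    have h1 := hx n
    rw [hp, ← map_pow] at h1
    exact (dvd_coord hm hn).1 h1 i
  have hcpl : ∀ s : ℕ → AdjoinRoot f, (∀ n, p ^ n ∣ s (n + 1) - s n) →
      ∃ t, ∀ n, p ^ n ∣ t - s n := by
    intro s hs
    have h1 : ∀ i : Fin n, ∃ t, ∀ m, π ^ m ∣ t - (bA hm hn).repr (s m) i := by
      intro i
      apply h.cpl
      intro m
      have h1 := hs m
      rw [hp, ← map_pow] at h1
      have h2 := (dvd_coord hm hn).1 h1 i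
      rwa [map_sub, Finsupp.sub_apply] at h2
    choose t ht using h1
    refine ⟨∑ i, t i • bA hm hn i, fun m => ?_⟩
    rw [hp, ← map_pow, dvd_coord hm hn]
    intro i
    rw [map_sub, Finsupp.sub_apply, Module.Basis.repr_sum_self]
    exact ht i m
  have hone : ∀ z, IsUnit (1 + p * z) := by
    intro z
    obtain ⟨s, s0, ss⟩ : ∃ s : ℕ → AdjoinRoot f, s 0 = 0 ∧
        ∀ n, s (n + 1) = s n + (-(p * z)) ^ n :=
      ⟨fun n => Nat.rec 0 (fun n y => y + (-(p * z)) ^ n) n, rfl, fun n => rfl⟩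
    have hd : ∀ n, p ^ n ∣ s (n + 1) - s n := by
      intro n
      rw [ss, add_sub_cancel_left, neg_pow, mul_pow]
      exact (dvd_mul_right _ _).mul_left _
    obtain ⟨t, ht⟩ := hcpl s hd
    have h1 : ∀ n, (1 + p * z) * s n = 1 - (-(p * z)) ^ n := by
      intro n
      induction n with
      | zero => rw [s0, pow_zero, mul_zero, sub_self]
      | succ n ih => rw [ss, mul_add, ih, pow_succ]; ring
    refine IsUnit.of_mul_eq_one t ?_
    rw [← sub_eq_zero]
    apply hsep
    intro n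
    have h2 : (1 + p * z) * t - 1 = (1 + p * z) * (t - s n) - (-(p * z)) ^ n := by
      rw [mul_sub, h1]; ring
    rw [h2]
    refine dvd_sub ((ht n).mul_left _) ?_
    rw [neg_pow, mul_pow]
    exact (dvd_mul_right _ _).mul_left _
  refine ⟨hpr, ?_, ?_, hf, hcpl, h.he, ?_⟩
  · intro x hx
    have h1 : FiniteMultiplicity p x := by
      by_contra h2
      rw [FiniteMultiplicity.not_iff_forall] at h2
      exact hx (hsep x h2)
    obtain ⟨c, hc, hc'⟩ := h1.exists_eq_pow_mul_and_not_dvd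
    exact ⟨_, c, hc', hc⟩
  · intro x hx
    letI := Ideal.Quotient.field (Ideal.span {p})
    have h1 : Ideal.Quotient.mk (Ideal.span {p}) x ≠ 0 := by
      rw [Ne, Ideal.Quotient.eq_zero_iff_mem, Ideal.mem_span_singleton]
      exact hx
    obtain ⟨y, hy⟩ := Ideal.Quotient.mk_surjective (Ideal.Quotient.mk (Ideal.span {p}) x)⁻¹
    have h2 : Ideal.Quotient.mk (Ideal.span {p}) (x * y) = Ideal.Quotient.mk (Ideal.span {p}) 1 := by
      rw [map_mul, hy, mul_inv_cancel₀ h1, map_one]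
    rw [Ideal.Quotient.eq, Ideal.mem_span_singleton] at h2
    obtain ⟨z, hz⟩ := h2
    have h3 : x * y = 1 + p * z := by rw [← hz]; ring
    have h4 := hone z
    rw [← h3] at h4
    exact isUnit_of_mul_isUnit_left h4
  · obtain ⟨u, hu, h2⟩ := h.two
    refine ⟨algebraMap O _ u, fun h1 => hu ((dvd_alg hm hn h0).1 h1), ?_⟩
    rw [hp, ← map_pow, ← map_mul, ← h2, map_ofNat]

end

theorem aog {O K M : Type} [CommRing O] [IsDomain O] [Field K] [Algebra O K]
    [IsFractionRing O K] [Field M] [Algebra K M] {π : O} {e : ℕ} (h : CD O π e) {f : O[X]} {N : ℕ}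
    (hm : f.Monic) (hn : f.natDegree = N) (hodd : Odd N)
    (hi : Irreducible (f.map (Ideal.Quotient.mk (Ideal.span {π})))) {θ : M}
    (hr : eval₂ ((algebraMap K M).comp (algebraMap O K)) θ f = 0)
    (bM : Module.Basis (Fin N) K M) (hbM : ∀ i, bM i = θ ^ (i : ℕ)) :
    ∃ (A : Type) (_ : CommRing A) (_ : IsDomain A) (j : A →+* M) (p : A),
    Function.Injective j ∧ Prime p ∧ Finite (A ⧸ Ideal.span {p}) ∧
    Nat.card (A ⧸ Ideal.span {p}) = Nat.card (O ⧸ Ideal.span {π}) ^ N ∧
    (∃ u : A, ¬ p ∣ u ∧ 2 = p ^ e * u) ∧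
    (∀ α s : A, ¬ p ∣ α → p ^ (2 * e + 1) ∣ α - s ^ 2 → IsSquare α) ∧
    (∀ c : O, ¬ π ∣ c → ∃ α : A, ¬ p ∣ α ∧ j α = algebraMap K M (algebraMap O K c)) ∧
    ∀ x : M, x ≠ 0 → IsSquare (Algebra.norm K x) →
      ∃ (t : M) (α : A), t ≠ 0 ∧ ¬ p ∣ α ∧ x = t ^ 2 * j α := by
  classical
  have hN0 : 0 < N := hodd.pos
  haveI hdom : IsDomain (AdjoinRoot f) := (jA_inj hm hn hr bM hbM).isDomain
  have hA : CD (AdjoinRoot f) (algebraMap O (AdjoinRoot f) π) e := cd_A hm hn hN0 h hi
  obtain ⟨hm', hf, hcard⟩ := qA_card hm hn h hi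
  refine ⟨AdjoinRoot f, inferInstance, hdom, jA hr, algebraMap O _ π, jA_inj hm hn hr bM hbM, hA.pr,
    hf, hcard, hA.two, fun α s => hA.sq, ?_, ?_⟩
  · intro c hc0
    exact ⟨algebraMap O _ c, fun h1 => hc0 ((dvd_alg hm hn hN0).1 h1), jA_alg hr c⟩
  · intro x hx hs
    -- clear denominators
    obtain ⟨d, hd⟩ := IsLocalization.exist_integer_multiples_of_finset (nonZeroDivisors O)
      (Finset.univ.image fun i => bM.repr x i : Finset K)
    have hd0 : (d : O) ≠ 0 := nonZeroDivisors.ne_zero d.2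
    have hd1 : ∀ i, ∃ c : O, algebraMap O K c = algebraMap O K d * bM.repr x i := by
      intro i
      obtain ⟨c, hc⟩ := hd (bM.repr x i) (Finset.mem_image.2 ⟨i, Finset.mem_univ _, rfl⟩)
      exact ⟨c, by rw [hc, Algebra.smul_def]⟩
    choose c hc using hd1
    set y : AdjoinRoot f := ∑ i, c i • bA hm hn i with hy
    have hjy : jA hr y = algebraMap K M (algebraMap O K d) * x := by
      rw [jA_eq hm hn hr bM hbM]
      conv_rhs => rw [← bM.sum_repr x]
      rw [Finset.mul_sum]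
      refine Finset.sum_congr rfl fun i _ => ?_
      rw [hy, Module.Basis.repr_sum_self, hc, mul_smul, Algebra.smul_def (algebraMap O K d)]
    have hdM : algebraMap K M (algebraMap O K d) ≠ 0 := by
      rw [Ne, map_eq_zero, IsFractionRing.to_map_eq_zero_iff]
      exact hd0
    have hy0 : y ≠ 0 := by
      intro h0
      rw [h0, map_zero] at hjy
      exact mul_ne_zero hdM hx hjy.symm
    obtain ⟨n, α, hα, hyα⟩ := hA.fac y hy0
    obtain ⟨m, d', hd', hdd⟩ := h.fac d hd0
    obtain ⟨d'', hdi⟩ := (h.un d' hd').exists_right_inv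
    set β := α * algebraMap O (AdjoinRoot f) d'' with hβ
    have hβ0 : ¬ algebraMap O (AdjoinRoot f) π ∣ β := by
      intro h1
      rcases hA.pr.dvd_or_dvd h1 with h2 | h2
      · exact hα h2
      · exact h.pr.not_unit (isUnit_of_dvd_one (hdi ▸ ((dvd_alg hm hn hN0).1 h2).mul_left d'))
    set P := algebraMap K M (algebraMap O K π) with hP
    have hP0 : P ≠ 0 := by
      rw [hP, Ne, map_eq_zero, IsFractionRing.to_map_eq_zero_iff]
      exact h.pr.ne_zero
    have hx1 : x = P ^ n * jA hr β / P ^ m := by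
      rw [eq_div_iff (pow_ne_zero _ hP0)]
      have e1 : algebraMap K M (algebraMap O K d') * algebraMap K M (algebraMap O K d'') = 1 := by
        rw [← map_mul, ← map_mul, hdi, map_one, map_one]
      have e2 : jA hr y = P ^ n * jA hr α := by
        rw [hyα, map_mul, map_pow, jA_alg]
      have e3 : algebraMap K M (algebraMap O K d) = P ^ m * algebraMap K M (algebraMap O K d') := by
        rw [hdd, map_mul, map_mul, map_pow, map_pow]
      rw [hβ, map_mul, jA_alg, ← mul_assoc, ← e2, hjy, e3]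
      linear_combination (-(P ^ m * x)) * e1
    -- the norm
    have hβu : IsUnit β := hA.un β hβ0
    have hNu : ¬ π ∣ Algebra.norm O β := by
      intro h1
      exact h.pr.not_unit (isUnit_of_dvd_unit h1 (hβu.map _))
    have hN : Algebra.norm K x = (algebraMap O K π) ^ (N * n) * algebraMap O K (Algebra.norm O β) /
        (algebraMap O K π) ^ (N * m) := by
      have hfr : Module.finrank K M = N := by
        rw [Module.finrank_eq_card_basis bM, Fintype.card_fin]
      have e1 : ∀ i : ℕ, Algebra.norm K (P ^ i) = (algebraMap O K π) ^ (N * i) := by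
        intro i
        rw [hP, ← map_pow, Algebra.norm_algebraMap, hfr, ← pow_mul, mul_comm]
      have hπK : algebraMap O K π ≠ 0 := by
        rw [Ne, IsFractionRing.to_map_eq_zero_iff]
        exact h.pr.ne_zero
      rw [eq_div_iff (pow_ne_zero _ hπK), ← e1 m, ← map_mul, ← e1 n,
        ← norm_j hm hn hr bM hbM, ← map_mul]
      congr 1
      rw [hx1, div_mul_cancel₀ _ (pow_ne_zero _ hP0)]
    rw [hN] at hs
    have hpar := h.par hNu hs
    have hpar2 : (n + m) % 2 = 0 := by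
      rw [← mul_add, ← Nat.even_iff, Nat.even_mul] at hpar
      rw [← Nat.even_iff]
      exact hpar.resolve_left (Nat.not_even_iff_odd.2 hodd)
    rcases le_total m n with hmn | hmn
    · obtain ⟨k, hk⟩ : ∃ k, n = m + 2 * k := ⟨(n - m) / 2, by omega⟩
      refine ⟨P ^ k, β, pow_ne_zero _ hP0, hβ0, ?_⟩
      rw [hx1, div_eq_iff (pow_ne_zero _ hP0), hk]
      ring
    · obtain ⟨k, hk⟩ : ∃ k, m = n + 2 * k := ⟨(m - n) / 2, by omega⟩
      refine ⟨(P ^ k)⁻¹, β, inv_ne_zero (pow_ne_zero _ hP0), hβ0, ?_⟩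
      rw [hx1, div_eq_iff (pow_ne_zero _ hP0), hk]
      field_simp
      ring

/-! ### The bound -/

theorem bound {O K M : Type} [CommRing O] [IsDomain O] [Field K] [Algebra O K]
    [IsFractionRing O K] [Field M] [Algebra K M] {π : O} {e : ℕ} (h : CD O π e) {f : O[X]} {g : ℕ}
    (hm : f.Monic) (hn : f.natDegree = 2 * g + 1)
    (hi : Irreducible (f.map (Ideal.Quotient.mk (Ideal.span {π})))) {θ : M}
    (hr : eval₂ ((algebraMap K M).comp (algebraMap O K)) θ f = 0)
    (bM : Module.Basis (Fin (2 * g + 1)) K M) (hbM : ∀ i, bM i = θ ^ (i : ℕ))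
    {ι : Type} (S : Finset ι)
    (φ : ι → M) (hφ : ∀ i ∈ S, φ i ≠ 0 ∧ IsSquare (Algebra.norm K (φ i)))
    (hS : ∀ i ∈ S, ∀ j ∈ S, IsSquare (φ i * φ j) → i = j) :
    S.card ≤ Nat.card (O ⧸ Ideal.span {π}) ^ (2 * g * e) := by
  classical
  obtain ⟨A, iA, iD, j, p, hj, hp, hfin, hcard, ⟨u, hu, h2⟩, hsq, hc, hx⟩ :=
    aog h hm hn ⟨g, rfl⟩ hi hr bM hbM
  obtain ⟨uO, huO, h2O⟩ := h.two
  haveI := h.fin
  haveI : Module.Finite K M := Module.Finite.of_basis bM
  have hfr : Module.finrank K M = 2 * g + 1 := by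
    rw [Module.finrank_eq_card_basis bM, Fintype.card_fin]
  obtain ⟨U, hU, hU', hU''⟩ := ring_lo h.pr h2O huO
  have hq : 0 < Nat.card (O ⧸ Ideal.span {π}) := by
    haveI : Nonempty (O ⧸ Ideal.span {π}) := ⟨0⟩
    exact Nat.card_pos
  -- the representatives
  have hex : ∀ (i : ι) (c : O), i ∈ S → c ∈ U →
      ∃ (t : M) (α : A), t ≠ 0 ∧ ¬ p ∣ α ∧
        φ i * algebraMap K M (algebraMap O K c) = t ^ 2 * j α := by
    intro i c hiS hcU
    obtain ⟨t, α, ht, hα, he⟩ := hx (φ i) (hφ i hiS).1 (hφ i hiS).2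
    obtain ⟨γ, hγ, hγ'⟩ := hc c (hU' c hcU)
    refine ⟨t, α * γ, ht, fun h => (hp.dvd_or_dvd h).elim hα hγ, ?_⟩
    rw [he, map_mul, hγ']
    ring
  let ψ : ι × O → A := fun z =>
    if hz : z.1 ∈ S ∧ z.2 ∈ U then (hex z.1 z.2 hz.1 hz.2).choose_spec.choose else 0
  have hψ : ∀ z ∈ S ×ˢ U, ∃ t : M, t ≠ 0 ∧ ¬ p ∣ ψ z ∧
      φ z.1 * algebraMap K M (algebraMap O K z.2) = t ^ 2 * j (ψ z) := by
    intro z hz
    rw [Finset.mem_product] at hz
    have h1 := (hex z.1 z.2 hz.1 hz.2).choose_spec.choose_spec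
    have h2 : ψ z = (hex z.1 z.2 hz.1 hz.2).choose_spec.choose := dif_pos hz
    rw [h2]
    exact ⟨_, h1⟩
  haveI := hfin
  have hup := ring_up hp h2 hu (S ×ˢ U) ψ (fun z hz => (hψ z hz).choose_spec.2.1) ?_
  · rw [Finset.card_product, hU, hcard] at hup
    have h4 : 2 * (Nat.card (O ⧸ Ideal.span {π}) ^ (2 * g + 1)) ^ e =
        Nat.card (O ⧸ Ideal.span {π}) ^ (2 * g * e) *
        (2 * Nat.card (O ⧸ Ideal.span {π}) ^ e) := by
      rw [← pow_mul]
      ring
    rw [h4] at hup
    exact Nat.le_of_mul_le_mul_right hup (by positivity)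
  · intro z hz w hw hzw
    obtain ⟨t, ht, hz1, hz2⟩ := hψ z hz
    obtain ⟨t', ht', hw1, hw2⟩ := hψ w hw
    rw [Finset.mem_product] at hz hw
    obtain ⟨s, hs⟩ := hzw
    obtain ⟨r, hr'⟩ := hsq (ψ z * ψ w) s (fun h => (hp.dvd_or_dvd h).elim hz1 hw1) hs
    -- the product is a square
    have h3 : IsSquare ((φ z.1 * algebraMap K M (algebraMap O K z.2)) *
        (φ w.1 * algebraMap K M (algebraMap O K w.2))) := by
      rw [hz2, hw2]
      refine ⟨t * t' * j r, ?_⟩
      have := congrArg j hr'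
      rw [map_mul, map_mul] at this
      linear_combination (t ^ 2 * t' ^ 2) * this
    -- the classes of the constants
    have hzc0 : algebraMap O K z.2 ≠ 0 := by
      rw [Ne, FaithfulSMul.algebraMap_eq_zero_iff]
      rintro h0
      exact hU' _ hz.2 (h0 ▸ dvd_zero _)
    have hwc0 : algebraMap O K w.2 ≠ 0 := by
      rw [Ne, FaithfulSMul.algebraMap_eq_zero_iff]
      rintro h0
      exact hU' _ hw.2 (h0 ▸ dvd_zero _)
    have h4 : IsSquare (algebraMap O K (z.2 * w.2)) := by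
      obtain ⟨r, hr⟩ := h3
      obtain ⟨n₁, hn₁⟩ := (hφ z.1 hz.1).2
      obtain ⟨n₂, hn₂⟩ := (hφ w.1 hw.1).2
      have h5 := congrArg (Algebra.norm K) hr
      simp only [map_mul, Algebra.norm_algebraMap, hfr, hn₁, hn₂] at h5
      have g1 : n₁ ≠ 0 := by
        rintro rfl
        rw [mul_zero, Algebra.norm_eq_zero_iff] at hn₁
        exact (hφ z.1 hz.1).1 hn₁
      have g2 : n₂ ≠ 0 := by
        rintro rfl
        rw [mul_zero, Algebra.norm_eq_zero_iff] at hn₂
        exact (hφ w.1 hw.1).1 hn₂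
      refine ⟨Algebra.norm K r / (n₁ * n₂ * (algebraMap O K z.2 * algebraMap O K w.2) ^ g), ?_⟩
      rw [map_mul]
      have g3 : n₁ * n₂ * (algebraMap O K z.2 * algebraMap O K w.2) ^ g ≠ 0 :=
        mul_ne_zero (mul_ne_zero g1 g2) (pow_ne_zero _ (mul_ne_zero hzc0 hwc0))
      rw [div_mul_div_comm, eq_div_iff (mul_ne_zero g3 g3), ← h5]
      ring
    have h5 : z.2 = w.2 := by
      apply hU'' _ hz.2 _ hw.2
      obtain ⟨r, hr⟩ := h4
      have hr0 : r ≠ 0 := by
        rintro rfl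
        rw [mul_zero, map_mul] at hr
        exact mul_ne_zero hzc0 hwc0 hr
      obtain ⟨k, hk⟩ := h.exE hr0
      have h6 : Eq' K π 0 (algebraMap O K (z.2 * w.2)) :=
        eq_alg fun h' => (h.pr.dvd_or_dvd h').elim (hU' _ hz.2) (hU' _ hw.2)
      have h7 := h.mulE hk hk
      rw [← hr] at h7
      have h8 := h.eqE h6 h7
      have h9 : k = 0 := by omega
      subst h9
      obtain ⟨d, rfl⟩ := hk.ge.int
      rw [← map_mul] at hr
      have h10 := FaithfulSMul.algebraMap_injective O K hr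
      refine ⟨d, 0, ?_⟩
      rw [h10]
      ring
    -- the elements
    rw [h5] at h3
    have hcM : algebraMap K M (algebraMap O K w.2) ≠ 0 := by
      rw [Ne, FaithfulSMul.algebraMap_eq_zero_iff]
      exact hwc0
    have h6 : IsSquare (φ z.1 * φ w.1) := by
      obtain ⟨r, hr⟩ := h3
      refine ⟨r / algebraMap K M (algebraMap O K w.2), ?_⟩
      field_simp
      linear_combination hr
    exact Prod.ext (hS _ hz.1 _ hw.1 h6) h5

end Pool.Agent.H18G.TWOX
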