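import Pool.Agent.H18G.Stm
import Pool.Agent.H18G.TwoxA
import Pool.Agent.H10PR.Final

/-!
# The local square classes at the primes over 2

Project JG (helper18), part TWOX: `S_TWOX`, by helper10. The general facts are in `TwoxA.lean`.
-/

set_option autoImplicit false
set_option linter.all false

open Polynomial IsDedekindDomain NumberField WithZero
open scoped Classical

noncomputable section

namespace Pool.Agent.H18G.TWOX

open Pool.Agent.H10PR (CD maximal)
open Pool.Agent.N783.PF

/-- the completion at a prime over 2 -/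
theorem cdw (F : Type) [Field F] [NumberField F] (w : HeightOneSpectrum (𝓞 F))
    (h2 : (2 : 𝓞 F) ∈ w.asIdeal) (e : ℕ) (he : w.valuation F (2 : F) = WithZero.exp (-(e : ℤ))) :
    ∃ π : w.adicCompletionIntegers F, CD (w.adicCompletionIntegers F) π e ∧
    Nat.card (w.adicCompletionIntegers F ⧸ Ideal.span {π}) = Ideal.absNorm w.asIdeal ∧
    ∀ f : (𝓞 F)[X], Irreducible (f.map (Ideal.Quotient.mk w.asIdeal)) →
      Irreducible ((f.map (algebraMap (𝓞 F) (w.adicCompletionIntegers F))).map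
        (Ideal.Quotient.mk (Ideal.span {π}))) := by
  obtain ⟨ϖ, hϖ⟩ := Pool.Agent.H14P.exists_unif w
  set π := algebraMap (𝓞 F) (w.adicCompletionIntegers F) ϖ with hπdef
  have hdv := Pool.Agent.H14P.dv_unif hϖ
  have hcd := Pool.Agent.H14P.irr_unif hϖ
  have h2v : Valued.v ((2 : w.adicCompletionIntegers F) : w.adicCompletion F) =
      exp (-(e : ℤ)) := by
    rw [← he, ← Pool.Agent.H14P.val_F, map_ofNat]
    rfl
  refine ⟨π, ⟨hdv.prime, ?_, ?_, ?_, Pool.Agent.H10PR.cdw_cpl hϖ, ?_, ?_⟩, ?_, ?_⟩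
  · intro x hx
    obtain ⟨n, b, hb, hb0⟩ := hdv.fac x hx
    exact ⟨n, b, fun h => hb0 ((hdv.ker b).2 h), hb⟩
  · intro x hx
    rw [← IsLocalRing.residue_ne_zero_iff_isUnit]
    exact fun h => hx ((hdv.ker x).1 h)
  · haveI : Finite (𝓞 F ⧸ w.asIdeal) := Ideal.finiteQuotientOfFreeOfNeBot _ w.ne_bot
    exact Finite.of_equiv _ ((Pool.Agent.H14P.resE hϖ).trans
      (Pool.Agent.H10PR.resQ hϖ)).toEquiv
  · have h3 : w.valuation F (algebraMap (𝓞 F) F 2) < 1 :=
      (w.valuation_lt_one_iff_mem (K := F) 2).2 h2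
    rw [map_ofNat, he, ← exp_zero, exp_lt_exp] at h3
    omega
  · obtain ⟨u, hu⟩ := (Pool.Agent.H14P.dvd_iff hϖ 2 e).2 h2v.le
    refine ⟨u, ?_, hu⟩
    rintro ⟨c, rfl⟩
    have h3 : π ^ (e + 1) ∣ 2 := ⟨c, by rw [hu]; ring⟩
    have h4 := (Pool.Agent.H14P.dvd_iff hϖ 2 (e + 1)).1 h3
    rw [h2v, exp_le_exp] at h4
    push_cast at h4
    omega
  · rw [← Nat.card_congr ((Pool.Agent.H14P.resE hϖ).trans (Pool.Agent.H10PR.resQ hϖ)).toEquiv]
    rfl
  · intro f hi
    have h3 := (Pool.Agent.H14P.irr_res hϖ f).1 hi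
    have h4 := (MulEquiv.irreducible_iff
      (Polynomial.mapEquiv (Pool.Agent.H10PR.resQ hϖ))).2 h3
    rw [Polynomial.mapEquiv_apply, Polynomial.map_map] at h4
    exact h4

/-! ### The embedding -/

section emb

variable {F L : Type} [Field F] [NumberField F] [Field L] [NumberField L] [Algebra F L] {g : ℕ}
  {f : (𝓞 F)[X]} {θ : L} (h : IsGen g f θ)

include h in
theorem fF_monic : (fF f).Monic := h.mon.map _

include h in
theorem fF_deg : (fF f).natDegree = 2 * g + 1 := by
  rw [fF, h.mon.natDegree_map, h.deg]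

include h in
theorem exists_poly (α : L) : ∃ p : F[X], aeval θ p = α := by
  obtain ⟨c, rfl⟩ := h.gen α
  refine ⟨∑ i : Fin (2 * g + 1), C (c i) * X ^ (i : ℕ), ?_⟩
  rw [map_sum]
  refine Finset.sum_congr rfl fun i _ => ?_
  rw [map_mul, aeval_C, map_pow, aeval_X]

include h in
theorem dvd_of_aeval {p : F[X]} (hp : aeval θ p = 0) : fF f ∣ p := by
  have hm := fF_monic h
  rw [← modByMonic_eq_zero_iff_dvd hm]
  have h2 : (p %ₘ fF f).natDegree < 2 * g + 1 := by
    have := natDegree_modByMonic_lt p hm (by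
      intro h0
      have := fF_deg h
      rw [h0, natDegree_one] at this
      omega)
    rwa [fF_deg h] at this
  have h3 : aeval θ (p %ₘ fF f) = 0 := by
    have h4 := congrArg (aeval θ) (modByMonic_add_div p (fF f))
    rw [map_add, map_mul, hp, h.root, zero_mul, add_zero] at h4
    exact h4
  rw [aeval_eq_sum_range' h2, Finset.sum_range] at h3
  have h4 := Fintype.linearIndependent_iff.1 h.basis.linearIndependent
    (fun i => (p %ₘ fF f).coeff i) (by
      rw [← h3]
      refine Finset.sum_congr rfl fun i _ => ?_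
      rw [h.basis_apply])
  ext k
  rw [coeff_zero]
  by_cases hk : k < 2 * g + 1
  · exact h4 ⟨k, hk⟩
  · exact coeff_eq_zero_of_natDegree_lt (by omega)

variable {K M : Type} [Field K] [Field M] [Algebra K M] (i : F →+* K) {η : M}
  (hM : eval₂ ((algebraMap K M).comp i) η (fF f) = 0)

include hM in
theorem ev_zero {p : F[X]} (hp : fF f ∣ p) : eval₂ ((algebraMap K M).comp i) η p = 0 := by
  obtain ⟨q, rfl⟩ := hp
  rw [eval₂_mul, hM, zero_mul]

/-- the embedding -/
def em (η : M) (α : L) : M := eval₂ ((algebraMap K M).comp i) η (exists_poly h α).choose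

include hM in
theorem em_eq {α : L} {p : F[X]} (hp : aeval θ p = α) :
    em h i η α = eval₂ ((algebraMap K M).comp i) η p := by
  have h1 := (exists_poly h α).choose_spec
  have h2 : aeval θ ((exists_poly h α).choose - p) = 0 := by rw [map_sub, h1, hp, sub_self]
  have h3 := ev_zero i hM (dvd_of_aeval h h2)
  rw [eval₂_sub] at h3
  exact sub_eq_zero.1 h3

/-- the embedding as a homomorphism -/
def emb : L →+* M where
  toFun := em h i η
  map_one' := by rw [em_eq h i hM (p := 1) (by rw [map_one]), eval₂_one]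
  map_zero' := by rw [em_eq h i hM (p := 0) (by rw [map_zero]), eval₂_zero]
  map_mul' α β := by
    obtain ⟨p, hp⟩ := exists_poly h α
    obtain ⟨q, hq⟩ := exists_poly h β
    rw [em_eq h i hM hp, em_eq h i hM hq, em_eq h i hM (p := p * q) (by rw [map_mul, hp, hq]),
      eval₂_mul]
  map_add' α β := by
    obtain ⟨p, hp⟩ := exists_poly h α
    obtain ⟨q, hq⟩ := exists_poly h β
    rw [em_eq h i hM hp, em_eq h i hM hq, em_eq h i hM (p := p + q) (by rw [map_add, hp, hq]),
      eval₂_add]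

theorem emb_aeval (p : F[X]) :
    emb h i hM (aeval θ p) = eval₂ ((algebraMap K M).comp i) η p := em_eq h i hM rfl

theorem emb_alg (c : F) : emb h i hM (algebraMap F L c) = algebraMap K M (i c) := by
  have := emb_aeval h i hM (C c)
  rwa [aeval_C, eval₂_C] at this

theorem emb_root : emb h i hM θ = η := by
  have := emb_aeval h i hM X
  rwa [aeval_X, eval₂_X] at this

theorem emb_norm (bM : Module.Basis (Fin (2 * g + 1)) K M) (hbM : ∀ j, bM j = η ^ (j : ℕ)) (α : L) :
    Algebra.norm K (emb h i hM α) = i (Algebra.norm F α) :=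
  norm_map i (emb h i hM) h.basis bM
    (fun k => by rw [h.basis_apply, map_pow, emb_root, hbM]) (emb_alg h i hM) α

end emb

/-! ### The theorem -/

theorem core {g : ℕ} {F L : Type} [Field F] [NumberField F] [Field L] [NumberField L] [Algebra F L]
    {f : (𝓞 F)[X]} {θ : L} (hg : IsGen g f θ) {O K : Type} [CommRing O] [IsDomain O]
    [IsIntegrallyClosed O] [Field K] [Algebra O K] [IsFractionRing O K] [Algebra F K] {π : O} {e : ℕ}
    (hCD : CD O π e) (iO : 𝓞 F →+* O)
    (hio : (algebraMap O K).comp iO = (algebraMap F K).comp (algebraMap (𝓞 F) F))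
    (hi : Irreducible ((f.map iO).map (Ideal.Quotient.mk (Ideal.span {π})))) :
    ∃ C : Finset L, C.card ≤ Nat.card (O ⧸ Ideal.span {π}) ^ (2 * g * e) ∧
    (∀ c ∈ C, c ≠ 0 ∧ IsSquare (Algebra.norm F c)) ∧
    ∀ α : L, α ≠ 0 → IsSquare (Algebra.norm F α) → ∃ c ∈ C, ∀ h : F[X], aeval θ h = α * c →
      LocS K (fF f) h := by
  have hm' : (f.map iO).Monic := hg.mon.map _
  have hn' : (f.map iO).natDegree = 2 * g + 1 := by rw [hg.mon.natDegree_map, hg.deg]
  have hfK : (f.map iO).map (algebraMap O K) = (fF f).map (algebraMap F K) := by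
    rw [fF, Polynomial.map_map, Polynomial.map_map, hio]
  haveI hmx : (Ideal.span {π}).IsMaximal := hCD.maxl
  haveI hpx : (Ideal.span {π}).IsPrime := hmx.isPrime
  haveI : IsDomain (O ⧸ Ideal.span {π}) := Ideal.Quotient.isDomain _
  have hirr1 : Irreducible (f.map iO) := hm'.irreducible_of_irreducible_map _ _ hi
  have hirr2 : Irreducible ((fF f).map (algebraMap F K)) := by
    rw [← hfK]
    exact (hm'.irreducible_iff_irreducible_map_fraction_map (K := K)).1 hirr1
  haveI : Fact (Irreducible ((fF f).map (algebraMap F K))) := ⟨hirr2⟩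
  have hmK : ((fF f).map (algebraMap F K)).Monic := (fF_monic hg).map _
  have hnK : ((fF f).map (algebraMap F K)).natDegree = 2 * g + 1 := by
    rw [(fF_monic hg).natDegree_map, fF_deg hg]
  have hη0 : eval₂ (algebraMap K (AdjoinRoot ((fF f).map (algebraMap F K))))
      (AdjoinRoot.root ((fF f).map (algebraMap F K))) ((fF f).map (algebraMap F K)) = 0 := by
    rw [AdjoinRoot.algebraMap_eq]
    exact AdjoinRoot.eval₂_root _
  have hr : eval₂ ((algebraMap K (AdjoinRoot ((fF f).map (algebraMap F K)))).comp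
      (algebraMap O K)) (AdjoinRoot.root ((fF f).map (algebraMap F K))) (f.map iO) = 0 := by
    rw [← eval₂_map, hfK]
    exact hη0
  have hM : eval₂ ((algebraMap K (AdjoinRoot ((fF f).map (algebraMap F K)))).comp
      (algebraMap F K)) (AdjoinRoot.root ((fF f).map (algebraMap F K))) (fF f) = 0 := by
    rw [← eval₂_map]
    exact hη0
  set i := emb hg (algebraMap F K) hM with hi'
  suffices hmax : ∃ C : Finset L, C.card ≤ Nat.card (O ⧸ Ideal.span {π}) ^ (2 * g * e) ∧
      (∀ x ∈ C, x ∈ {α : L | α ≠ 0 ∧ IsSquare (Algebra.norm F α)}) ∧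
      ∀ x ∈ {α : L | α ≠ 0 ∧ IsSquare (Algebra.norm F α)}, ∃ c ∈ C, IsSquare (i x * i c) by
    obtain ⟨C', hC1, hC2, hC3⟩ := hmax
    refine ⟨C', hC1, hC2, ?_⟩
    intro α hα0 hα
    obtain ⟨c, hc, hP⟩ := hC3 α ⟨hα0, hα⟩
    refine ⟨c, hc, fun h hh => ?_⟩
    rw [← map_mul, ← hh, hi', emb_aeval] at hP
    obtain ⟨z, hz⟩ := hP
    obtain ⟨s, rfl⟩ := AdjoinRoot.mk_surjective z
    refine ⟨s, ?_⟩
    rw [← AdjoinRoot.mk_eq_zero, map_sub, map_pow, sub_eq_zero, pow_two, ← hz]
    rw [← AdjoinRoot.aeval_eq, aeval_def, eval₂_map]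
  refine maximal {α : L | α ≠ 0 ∧ IsSquare (Algebra.norm F α)} (fun x y => IsSquare (i x * i y))
    _ ?_ ?_ ?_
  · intro x hx
    exact ⟨i x, rfl⟩
  · intro x y h
    rw [mul_comm]
    exact h
  · intro S hS hS'
    refine bound hCD hm' hn' hi hr (bA hmK hnK) (bA_apply hmK hnK) S (fun α => i α) ?_ ?_
    · intro α hα
      obtain ⟨h1, h2⟩ := hS α hα
      refine ⟨fun h0 => h1 ((map_eq_zero i).1 h0), ?_⟩
      rw [hi', emb_norm hg _ hM (bA hmK hnK) (bA_apply hmK hnK)]
      exact h2.map _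
    · intro α hα β hβ h
      exact hS' α hα β hβ h

theorem t : S_TWOX := by
  intro g F L _ _ _ _ _ f θ hg1 hg w hw2 hirr e he
  obtain ⟨π, hCD, hcard, hir⟩ := cdw F w hw2 e he
  have h1 := core (K := w.adicCompletion F) hg hCD
    (algebraMap (𝓞 F) (w.adicCompletionIntegers F)) rfl (hir f hirr)
  rw [hcard] at h1
  exact h1

end Pool.Agent.H18G.TWOX
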