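import Pool.Agent.H18G.Stm
import Pool.Agent.H18PR.Shl

/-!
# The regions of bounded height, for the family of all genera (S_REGG)
-/

set_option autoImplicit false
set_option linter.all false

open Polynomial NumberField NumberField.InfinitePlace
open Pool.Agent.N352.PJ (dd)
open Pool.Agent.N783.PF
open scoped Classical

namespace Pool.Agent.H18G.REGG

/-- finite products of finite sets -/
theorem cnt_pi {R : Type} [CommRing R] (n : ℕ) (A : Fin n → Set R) (hA : ∀ j, (A j).Finite)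
    (𝒜 : Set R[X]) (hinj : ∀ f ∈ 𝒜, ∀ f' ∈ 𝒜, (∀ j : Fin n, f.coeff j = f'.coeff j) → f = f')
    (hmem : ∀ f ∈ 𝒜, ∀ j : Fin n, f.coeff j ∈ A j) :
    𝒜.Finite ∧ (𝒜.ncard : ℝ) ≤ ∏ j, ((A j).ncard : ℝ) := by
  have hfin : (Set.univ.pi A).Finite := Set.Finite.pi' hA |>.subset (by
    intro x hx
    exact fun j => hx j (Set.mem_univ _))
  have hmap : ∀ f ∈ 𝒜, (fun j : Fin n => f.coeff j) ∈ Set.univ.pi A := fun f hf j _ => hmem f hf j
  have hI : Set.InjOn (fun (f : R[X]) (j : Fin n) => f.coeff j) 𝒜 := fun f hf f' hf' h =>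
    hinj f hf f' hf' fun j => congrFun h j
  refine ⟨Set.Finite.of_finite_image (hfin.subset (Set.image_subset_iff.2 hmap)) hI, ?_⟩
  have h1 := Set.ncard_le_ncard_of_injOn _ hmap hI hfin
  have h2 : (Set.univ.pi A).ncard = ∏ j, (A j).ncard := by
    have e : Set.univ.pi A = ((Fintype.piFinset fun j => (hA j).toFinset : Finset (Fin n → R)) :
        Set (Fin n → R)) := by
      ext x
      simp [Fintype.mem_piFinset]
    rw [e, Set.ncard_coe_finset, Fintype.card_piFinset]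
    refine Finset.prod_congr rfl fun j _ => ?_
    rw [Set.ncard_eq_toFinset_card _ (hA j)]
  rw [h2] at h1
  exact_mod_cast h1

section fld

variable {F : Type} [Field F] [NumberField F]

theorem bd_iff' (x : F) (R : ℝ) : Bd x R ↔ ∀ v : InfinitePlace F, v x ≤ R := by
  constructor
  · intro h v
    have := h v.embedding
    rwa [← InfinitePlace.norm_embedding_eq]
  · intro h σ
    have := h (InfinitePlace.mk σ)
    rwa [InfinitePlace.apply] at this

theorem inj_of {g : ℕ} {f f' : (𝓞 F)[X]} (h1 : f.Monic) (h2 : f.natDegree = 2 * g + 1)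
    (h3 : f.coeff (2 * g) = 0) (h1' : f'.Monic) (h2' : f'.natDegree = 2 * g + 1)
    (h3' : f'.coeff (2 * g) = 0) (h : ∀ j : Fin (2 * g), f.coeff j = f'.coeff j) : f = f' := by
  ext j : 1
  rcases lt_trichotomy j (2 * g) with hj | hj | hj
  · exact h ⟨j, hj⟩
  · rw [hj, h3, h3']
  · rcases Nat.lt_or_ge (2 * g + 1) j with hk | hk
    · rw [coeff_eq_zero_of_natDegree_lt (by omega), coeff_eq_zero_of_natDegree_lt (by omega)]
    · have e : j = 2 * g + 1 := by omega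
      rw [e]
      have e1 : f.coeff (2 * g + 1) = 1 := by rw [← h2]; exact h1
      have e2 : f'.coeff (2 * g + 1) = 1 := by rw [← h2']; exact h1'
      rw [e1, e2]

/-- sum of the exponents -/
theorem sum_exp (g : ℕ) : ∑ j : Fin (2 * g), (2 * g + 1 - (j : ℕ)) = dd g := by
  rw [Fin.sum_univ_eq_sum_range (fun j => 2 * g + 1 - j)]
  have h : ∀ n : ℕ, n ≤ 2 * g + 1 → 2 * ∑ j ∈ Finset.range n, (2 * g + 1 - j) + n * n = n * (4 * g + 3) := by
    intro n
    induction n with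
    | zero => intro _; simp
    | succ k ih =>
      intro hk
      have h1 := ih (by omega)
      rw [Finset.sum_range_succ]
      obtain ⟨t, ht⟩ : ∃ t, 2 * g + 1 = k + t := ⟨2 * g + 1 - k, by omega⟩
      have h2 : 2 * g + 1 - k = t := by omega
      rw [h2]
      nlinarith
  have h2 := h (2 * g) (by omega)
  unfold dd
  nlinarith

theorem cls {W : ℕ} {T : Finset ℕ} (hT : ∀ q ∈ T, q.Prime ∧ Nat.Coprime W q)
    {z : 𝓞 F} (h1 : z ∈ sp F W) (h2 : ∀ q ∈ T, z ∈ sp F q) : z ∈ sp F (W * ∏ q ∈ T, q) := by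
  simp only [sp, Ideal.mem_span_singleton] at h1 h2 ⊢
  push_cast
  refine IsCoprime.mul_dvd (IsCoprime.prod_right fun q hq => (hT q hq).2.cast) h1 ?_
  refine Finset.prod_dvd_of_coprime (s := fun q : ℕ => (q : 𝓞 F)) ?_ h2
  intro q hq q' hq' hne
  exact (((Nat.coprime_primes (hT q hq).1 (hT q' hq').1).2 hne).cast : IsCoprime (q : 𝓞 F) (q' : 𝓞 F))

/-- the volume of the box of one coefficient -/
theorem vol (k : ℕ) (Y : ℝ) : ∏ v : InfinitePlace F, (Y ^ k) ^ v.mult =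
    Y ^ (k * Module.finrank ℚ F) := by
  rw [Finset.prod_pow_eq_pow_sum, InfinitePlace.sum_mult_eq, ← pow_mul]

end fld

/-- the number of all polynomials of height at most `Y`, and the thin shell -/
theorem shell (g : ℕ) (F : Type) [Field F] [NumberField F] : ∃ κ : ℝ, 0 < κ ∧
    ∀ (N : ℕ) (η : ℝ), 0 < N → 0 < η → η ≤ 1 → ∃ Y₀ : ℝ, ∀ Y ≥ Y₀, ∀ a : ℕ → 𝓞 F,
      {f : (𝓞 F)[X] | HtR g Y f}.Finite ∧
      ({f : (𝓞 F)[X] | HtR g Y f}.ncard : ℝ) ≤ κ * Y ^ (Module.finrank ℚ F * dd g) ∧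
      ({f : (𝓞 F)[X] | HtR g Y f ∧ (∀ j < 2 * g, f.coeff j - a j ∈ sp F N) ∧ ∃ j < 2 * g,
        ∃ v : InfinitePlace F, (1 - η) * Y ^ (2 * g + 1 - j) < v (f.coeff j : F)}.ncard : ℝ) ≤
      κ * η * Y ^ (Module.finrank ℚ F * dd g) / ((N : ℝ) ^ Module.finrank ℚ F) ^ (2 * g) := by
  obtain ⟨κ, hκ, h⟩ := Pool.Agent.H18PR.shl F
  set d : ℕ := Module.finrank ℚ F with hd
  have hd0 : 0 < d := Module.finrank_pos
  refine ⟨(2 * g + 1) * κ ^ (2 * g), by positivity, fun N η hN hη hη1 => ?_⟩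
  obtain ⟨V₀, hV⟩ := h N η hN hη hη1
  obtain ⟨V₁, hV1⟩ := h 1 1 one_pos one_pos le_rfl
  refine ⟨max 1 (max V₀ V₁), fun Y hY a => ?_⟩
  have hY1 : 1 ≤ Y := (le_max_left _ _).trans hY
  have hY0 : 0 < Y := zero_lt_one.trans_le hY1
  have hYV : V₀ ≤ Y := (le_max_left _ _).trans ((le_max_right _ _).trans hY)
  have hYV1 : V₁ ≤ Y := (le_max_right _ _).trans ((le_max_right _ _).trans hY)
  have key : ∀ j : Fin (2 * g), Y ≤ Y ^ ((2 * g + 1 - (j : ℕ)) * d) := fun j =>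
    le_self_pow₀ hY1 (Nat.mul_ne_zero (by have := j.2; omega) hd0.ne')
  have hprod : ∏ j : Fin (2 * g), Y ^ ((2 * g + 1 - (j : ℕ)) * d) = Y ^ (d * dd g) := by
    rw [Finset.prod_pow_eq_pow_sum, ← Finset.sum_mul, sum_exp, mul_comm]
  have hbd : ∀ {f : (𝓞 F)[X]}, HtR g Y f → ∀ j : Fin (2 * g), ∀ v : InfinitePlace F,
      v (f.coeff j : F) ≤ Y ^ (2 * g + 1 - (j : ℕ)) := fun hf j =>
    (bd_iff' _ _).1 (hf.ht j j.2.le)
  -- all
  have hall := cnt_pi (2 * g) (fun j : Fin (2 * g) => {x : 𝓞 F | x - 0 ∈ sp F 1 ∧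
      ∀ v : InfinitePlace F, v (x : F) ≤ Y ^ (2 * g + 1 - (j : ℕ))})
    (fun j => (hV1 (fun _ => Y ^ (2 * g + 1 - (j : ℕ))) (fun _ => by positivity) (by
      rw [vol]; exact hYV1.trans (key j)) 0).1) {f : (𝓞 F)[X] | HtR g Y f}
    (fun f hf f' hf' h => inj_of hf.mon hf.deg hf.tr hf'.mon hf'.deg hf'.tr h)
    (fun f hf j => ⟨by simp [sp], hbd hf j⟩)
  refine ⟨hall.1, ?_, ?_⟩
  · refine hall.2.trans ?_
    calc ∏ j : Fin (2 * g), (({x : 𝓞 F | x - 0 ∈ sp F 1 ∧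
        ∀ v : InfinitePlace F, v (x : F) ≤ Y ^ (2 * g + 1 - (j : ℕ))}.ncard : ℕ) : ℝ) ≤
        ∏ j : Fin (2 * g), (κ * Y ^ ((2 * g + 1 - (j : ℕ)) * d)) := by
          refine Finset.prod_le_prod (fun j _ => Nat.cast_nonneg _) fun j _ => ?_
          have := (hV1 (fun _ => Y ^ (2 * g + 1 - (j : ℕ))) (fun _ => by positivity) (by
            rw [vol]; exact hYV1.trans (key j)) 0).2.1
          rw [vol] at this
          simpa using this
      _ = κ ^ (2 * g) * Y ^ (d * dd g) := by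
          rw [Finset.prod_mul_distrib, hprod, Finset.prod_const, Finset.card_univ, Fintype.card_fin]
      _ ≤ (2 * g + 1) * κ ^ (2 * g) * Y ^ (d * dd g) := by
          have h1 : (0 : ℝ) ≤ κ ^ (2 * g) * Y ^ (d * dd g) := by positivity
          have h2 : (0 : ℝ) ≤ g := Nat.cast_nonneg g
          nlinarith
  · -- the shell
    have hNd : (0 : ℝ) < (N : ℝ) ^ d := pow_pos (by exact_mod_cast hN) _
    set S : Fin (2 * g) → Set (𝓞 F)[X] := fun i => {f : (𝓞 F)[X] | HtR g Y f ∧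
      (∀ j < 2 * g, f.coeff j - a j ∈ sp F N) ∧
        ∃ v : InfinitePlace F, (1 - η) * Y ^ (2 * g + 1 - (i : ℕ)) < v (f.coeff i : F)} with hS
    have hSf : ∀ i, (S i).Finite := fun i => hall.1.subset fun f hf => hf.1
    have hSc : ∀ i, ((S i).ncard : ℝ) ≤ η * (κ ^ (2 * g) * Y ^ (d * dd g) / (N ^ d) ^ (2 * g)) := by
      intro i
      set A : Fin (2 * g) → Set (𝓞 F) := fun j => {x : 𝓞 F | x - a j ∈ sp F N ∧
        ∀ v : InfinitePlace F, v (x : F) ≤ Y ^ (2 * g + 1 - (j : ℕ))} with hA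
      set A' : Fin (2 * g) → Set (𝓞 F) := fun j => {x : 𝓞 F | x - a j ∈ sp F N ∧
        (∀ v : InfinitePlace F, v (x : F) ≤ Y ^ (2 * g + 1 - (j : ℕ))) ∧
        ∃ v : InfinitePlace F, (1 - η) * Y ^ (2 * g + 1 - (j : ℕ)) < v (x : F)} with hA'
      have hVj := fun j : Fin (2 * g) => hV (fun _ => Y ^ (2 * g + 1 - (j : ℕ)))
        (fun _ => by positivity) (by rw [vol]; exact hYV.trans (key j)) (a j)
      have hAf : ∀ j, (A j).Finite := fun j => (hVj j).1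
      have hA'f : ∀ j, (A' j).Finite := fun j => (hAf j).subset fun x hx => ⟨hx.1, hx.2.1⟩
      have h1 := (cnt_pi (2 * g) (fun j => if j = i then A' j else A j)
        (fun j => by split_ifs; exacts [hA'f j, hAf j]) (S i)
        (fun f hf f' hf' h => inj_of hf.1.mon hf.1.deg hf.1.tr hf'.1.mon hf'.1.deg hf'.1.tr h)
        (fun f hf j => by
          split_ifs with hji
          · subst hji
            exact ⟨hf.2.1 j j.2, hbd hf.1 j, hf.2.2⟩
          · exact ⟨hf.2.1 j j.2, hbd hf.1 j⟩)).2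
      refine h1.trans ?_
      calc ∏ j : Fin (2 * g), (((if j = i then A' j else A j).ncard : ℕ) : ℝ) ≤
          ∏ j : Fin (2 * g), ((if j = i then η else 1) *
            (κ * Y ^ ((2 * g + 1 - (j : ℕ)) * d) / N ^ d)) := by
            refine Finset.prod_le_prod (fun j _ => Nat.cast_nonneg _) fun j _ => ?_
            obtain ⟨-, h2, h3⟩ := hVj j
            rw [vol] at h2 h3
            split_ifs
            · refine h3.trans (le_of_eq ?_)
              ring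
            · rw [one_mul]
              exact h2
        _ = η * (κ ^ (2 * g) * Y ^ (d * dd g) / (N ^ d) ^ (2 * g)) := by
            rw [Finset.prod_mul_distrib, Finset.prod_ite_eq' Finset.univ i, if_pos (Finset.mem_univ i),
              Finset.prod_div_distrib, Finset.prod_mul_distrib, hprod, Finset.prod_const,
              Finset.prod_const, Finset.card_univ, Fintype.card_fin]
    have hsub : {f : (𝓞 F)[X] | HtR g Y f ∧ (∀ j < 2 * g, f.coeff j - a j ∈ sp F N) ∧ ∃ j < 2 * g,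
        ∃ v : InfinitePlace F, (1 - η) * Y ^ (2 * g + 1 - j) < v (f.coeff j : F)} ⊆ ⋃ i, S i := by
      rintro f ⟨h1, h2, j, hj, v, h3⟩
      exact Set.mem_iUnion.2 ⟨⟨j, hj⟩, h1, h2, v, h3⟩
    have h1 := (Set.ncard_le_ncard hsub (Set.finite_iUnion hSf)).trans
      (Set.ncard_iUnion_le_of_fintype S)
    have h2 : (({f : (𝓞 F)[X] | HtR g Y f ∧ (∀ j < 2 * g, f.coeff j - a j ∈ sp F N) ∧ ∃ j < 2 * g,
        ∃ v : InfinitePlace F, (1 - η) * Y ^ (2 * g + 1 - j) < v (f.coeff j : F)}.ncard : ℕ) : ℝ) ≤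
        ∑ i, ((S i).ncard : ℝ) := by exact_mod_cast h1
    refine h2.trans ((Finset.sum_le_sum fun i _ => hSc i).trans ?_)
    rw [Finset.sum_const, Finset.card_univ, Fintype.card_fin, nsmul_eq_mul]
    have h3 : 0 ≤ η * (κ ^ (2 * g) * Y ^ (d * dd g) / ((N : ℝ) ^ d) ^ (2 * g)) := by positivity
    calc ((2 * g : ℕ) : ℝ) * (η * (κ ^ (2 * g) * Y ^ (d * dd g) / ((N : ℝ) ^ d) ^ (2 * g))) ≤
        (2 * g + 1) * (η * (κ ^ (2 * g) * Y ^ (d * dd g) / ((N : ℝ) ^ d) ^ (2 * g))) := by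
          refine mul_le_mul_of_nonneg_right ?_ h3
          push_cast
          linarith
      _ = _ := by ring

theorem eta_bound {η : ℝ} (h0 : 0 < η) (h1 : η ≤ 1) (n m k : ℕ) (hk : k ≤ n) :
    (1 - η) * ((1 + η / (n * m + 1)) ^ m) ^ k ≤ 1 := by
  set x : ℝ := η / (n * m + 1) with hx
  have hm : (0 : ℝ) ≤ n * m := by positivity
  have hx0 : 0 < x := by positivity
  have hx1 : x ≤ 1 := by
    rw [hx, div_le_one (by positivity)]
    linarith
  have h2 : (1 : ℝ) - η ≤ (1 - x) ^ (n * m) := by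
    have h3 := one_add_mul_le_pow (a := -x) (by linarith) (n * m)
    have h4 : (n * (m : ℝ)) * x ≤ η := by
      rw [hx, mul_div_assoc', div_le_iff₀ (by positivity)]
      nlinarith
    have h5 : (1 + -x : ℝ) = 1 - x := by ring
    rw [h5] at h3
    push_cast at h3
    linarith
  have ht1 : 1 ≤ (1 + x) ^ m := one_le_pow₀ (by linarith)
  have h3 : (1 - η) * ((1 + x) ^ m) ^ n ≤ 1 := by
    calc (1 - η) * ((1 + x) ^ m) ^ n ≤ (1 - x) ^ (n * m) * ((1 + x) ^ m) ^ n :=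
          mul_le_mul_of_nonneg_right h2 (by positivity)
      _ = (1 - x ^ 2) ^ (n * m) := by
          rw [← pow_mul, mul_comm m n, ← mul_pow]
          congr 1
          ring
      _ ≤ 1 := pow_le_one₀ (by nlinarith) (by nlinarith)
  refine le_trans ?_ h3
  exact mul_le_mul_of_nonneg_left (pow_le_pow_right₀ ht1 hk) (by linarith)

theorem htr_mono {F : Type} [Field F] [NumberField F] {g : ℕ} {Y Y' : ℝ} (h0 : 0 ≤ Y) (h : Y ≤ Y')
    {f : (𝓞 F)[X]} (hf : HtR g Y f) : HtR g Y' f :=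
  ⟨hf.mon, hf.deg, hf.tr, fun j hj σ => (hf.ht j hj σ).trans (pow_le_pow_left₀ h0 h _)⟩

theorem htr_fin (g : ℕ) (F : Type) [Field F] [NumberField F] (Y : ℝ) :
    {f : (𝓞 F)[X] | HtR g Y f}.Finite := by
  obtain ⟨κ, hκ, h⟩ := shell g F
  obtain ⟨Y₀, hY₀⟩ := h 1 1 one_pos one_pos le_rfl
  refine (hY₀ (max Y₀ |Y|) (le_max_left _ _) (fun _ => 0)).1.subset ?_
  intro f hf
  refine htr_mono (abs_nonneg Y) (le_max_right _ _) ⟨hf.mon, hf.deg, hf.tr, fun j hj σ => ?_⟩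
  refine (hf.ht j hj σ).trans ?_
  rw [← abs_pow]
  exact le_abs_self _

theorem t : S_REGG := by
  intro g F _ _ hg W c hW hc ε hε
  obtain ⟨κ, hκ, hsh⟩ := shell g F
  set d : ℕ := Module.finrank ℚ F with hd
  have hd0 : 0 < d := Module.finrank_pos
  set D : ℕ := d * dd g with hD
  refine ⟨ε / 4 ^ D, by positivity, fun m => ?_⟩
  have hW' : (0 : ℝ) < W := by exact_mod_cast hW
  set η' : ℝ := min 1 (ε * c * ((W : ℝ) ^ d) ^ (2 * g) / (κ * 2 ^ D)) with hη'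
  have hη'0 : 0 < η' := lt_min one_pos (by positivity)
  have hη'1 : η' ≤ 1 := min_le_left _ _
  have hη'2 : κ * η' * 2 ^ D ≤ ε * c * ((W : ℝ) ^ d) ^ (2 * g) := by
    have h1 : η' ≤ ε * c * ((W : ℝ) ^ d) ^ (2 * g) / (κ * 2 ^ D) := min_le_right _ _
    rw [le_div_iff₀ (by positivity)] at h1
    linarith
  have hbb := fun k hk => eta_bound hη'0 hη'1 (2 * g + 1) m k hk
  have hη0 : 0 < η' / (((2 * g + 1 : ℕ) : ℝ) * m + 1) := by positivity
  refine ⟨η' / (((2 * g + 1 : ℕ) : ℝ) * m + 1), hη0, ?_⟩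
  set η : ℝ := η' / (((2 * g + 1 : ℕ) : ℝ) * m + 1) with hη
  intro T f₁ P Pr hT hB
  obtain ⟨B₀, hB₀⟩ := hB
  set Tn : ℕ := ∏ q ∈ T, q with hTn
  have hTn0 : 0 < Tn := Finset.prod_pos fun q hq => (hT q hq).1.pos
  have hTn' : (0 : ℝ) < Tn := by exact_mod_cast hTn0
  have hPn : (((∏ q ∈ T, q ^ (2 * g)) ^ d : ℕ) : ℝ) = ((Tn : ℝ) ^ d) ^ (2 * g) := by
    rw [Finset.prod_pow, ← hTn, ← pow_mul, ← pow_mul, mul_comm d, Nat.cast_pow]
  simp only [hPn] at hB₀
  set Pn : ℝ := ((Tn : ℝ) ^ d) ^ (2 * g) with hPndef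
  have hPn0 : 0 < Pn := by positivity
  have hNd : (((W * Tn : ℕ) : ℝ) ^ d) ^ (2 * g) = ((W : ℝ) ^ d) ^ (2 * g) * Pn := by
    rw [Nat.cast_mul, mul_pow, mul_pow]
  obtain ⟨Y₁, hY₁⟩ := hsh (W * Tn) η' (Nat.mul_pos hW hTn0) hη'0 hη'1
  refine ⟨c / (2 ^ D * Pn * κ), max Y₁ (B₀ + 1), by positivity, fun Y => ⟨htr_fin g F Y, ?_⟩⟩
  intro hY
  have hYB : (B₀ : ℝ) + 1 ≤ Y := (le_max_right _ _).trans hY
  have hY1 : 1 ≤ Y := by
    have : (0 : ℝ) ≤ B₀ := Nat.cast_nonneg _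
    linarith
  have hY0 : 0 < Y := zero_lt_one.trans_le hY1
  obtain ⟨-, hup, -⟩ := hY₁ Y ((le_max_left _ _).trans hY) (fun _ => 0)
  -- the sizes
  set B : ℕ := ⌊Y⌋₊ with hBdef
  have hBle : (B : ℝ) ≤ Y := Nat.floor_le hY0.le
  have hBge : Y ≤ 2 * (B : ℝ) := by
    have h1 : Y < B + 1 := Nat.lt_floor_add_one _
    have h2 : (1 : ℝ) ≤ B := by
      have : 1 ≤ B := Nat.le_floor (by push_cast; linarith)
      exact_mod_cast this
    linarith
  have hBB : B₀ ≤ B := Nat.le_floor (by linarith)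
  set B' : ℕ := ⌈Y⌉₊ with hB'def
  have hB'ge : Y ≤ (B' : ℝ) := Nat.le_ceil _
  have hB'le : (B' : ℝ) ≤ 2 * Y := by
    have : (B' : ℝ) < Y + 1 := Nat.ceil_lt_add_one hY0.le
    linarith
  have hBB' : B₀ ≤ B' := by
    have : (B₀ : ℝ) ≤ B' := by linarith
    exact_mod_cast this
  have hfin := htr_fin g F Y
  have hlow : c * (Y ^ D) / (2 ^ D * Pn) ≤
      ({f : (𝓞 F)[X] | HtR g Y f ∧ Base g W f₁ T P f}.ncard : ℝ) := by
    have h1 := (hB₀ B hBB).1
    have h2 : ({f : (𝓞 F)[X] | Ht g B f ∧ Base g W f₁ T P f}.ncard : ℝ) ≤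
        ({f : (𝓞 F)[X] | HtR g Y f ∧ Base g W f₁ T P f}.ncard : ℝ) := by
      have : {f : (𝓞 F)[X] | Ht g B f ∧ Base g W f₁ T P f} ⊆
          {f : (𝓞 F)[X] | HtR g Y f ∧ Base g W f₁ T P f} := fun f hf =>
        ⟨htr_mono (Nat.cast_nonneg B) hBle ⟨hf.1.mon, hf.1.deg, hf.1.tr, hf.1.ht⟩, hf.2⟩
      exact_mod_cast Set.ncard_le_ncard this (hfin.subset fun f hf => hf.1)
    refine le_trans ?_ h2
    rw [div_le_iff₀ (by positivity)]
    have h3 : Y ^ D ≤ 2 ^ D * (B : ℝ) ^ D := by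
      rw [← mul_pow]
      exact pow_le_pow_left₀ hY0.le hBge _
    calc c * Y ^ D ≤ c * (2 ^ D * (B : ℝ) ^ D) := mul_le_mul_of_nonneg_left h3 hc.le
      _ = 2 ^ D * (c * (B : ℝ) ^ D) := by ring
      _ ≤ 2 ^ D * (Pn * ({f : (𝓞 F)[X] | Ht g B f ∧ Base g W f₁ T P f}.ncard : ℝ)) :=
          mul_le_mul_of_nonneg_left h1 (by positivity)
      _ = _ := by ring
  have hpos : 0 < c * (Y ^ D) / (2 ^ D * Pn) := by positivity
  refine ⟨?_, ?_, ?_, ?_⟩
  · exact_mod_cast hpos.trans_le hlow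
  · refine le_trans ?_ hlow
    calc c / (2 ^ D * Pn * κ) * ({f : (𝓞 F)[X] | HtR g Y f}.ncard : ℝ) ≤
        c / (2 ^ D * Pn * κ) * (κ * Y ^ D) := mul_le_mul_of_nonneg_left hup (by positivity)
      _ = c * Y ^ D / (2 ^ D * Pn) := by field_simp
  · -- the shell
    rcases Set.eq_empty_or_nonempty {f : (𝓞 F)[X] | HtR g Y f ∧ Base g W f₁ T P f ∧
        ¬ HtR g (Y / (1 + η) ^ m) f} with he | ⟨f₀, hf₀⟩
    · rw [he, Set.ncard_empty]
      push_cast
      positivity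
    have hshell := (hY₁ Y ((le_max_left _ _).trans hY) (fun j => f₀.coeff j)).2.2
    have hsub : {f : (𝓞 F)[X] | HtR g Y f ∧ Base g W f₁ T P f ∧
        ¬ HtR g (Y / (1 + η) ^ m) f} ⊆ {f : (𝓞 F)[X] | HtR g Y f ∧
        (∀ j < 2 * g, f.coeff j - f₀.coeff j ∈ sp F (W * Tn)) ∧ ∃ j < 2 * g,
        ∃ v : InfinitePlace F, (1 - η') * Y ^ (2 * g + 1 - j) < v (f.coeff j : F)} := by
      rintro f ⟨h1, h2, h3⟩
      refine ⟨h1, fun j _ => cls hT ?_ fun q hq => ?_, ?_⟩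
      · have e : f.coeff j - f₀.coeff j = (f.coeff j - f₁.coeff j) - (f₀.coeff j - f₁.coeff j) := by
          ring
        rw [e]
        exact Ideal.sub_mem _ (h2.one j) (hf₀.2.1.one j)
      · have e : f.coeff j - f₀.coeff j =
            (f.coeff j - (P q).coeff j) - (f₀.coeff j - (P q).coeff j) := by
          ring
        rw [e]
        exact Ideal.sub_mem _ (h2.con q hq j) (hf₀.2.1.con q hq j)
      · by_contra hcon
        push Not at hcon
        refine h3 ⟨h1.mon, h1.deg, h1.tr, fun j hj => (bd_iff' _ _).2 fun v => ?_⟩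
        have ht : 0 < (1 + η) ^ m := by positivity
        rcases hj.lt_or_eq with hj | hj
        · have h4 := hcon j hj v
          rw [div_pow, le_div_iff₀ (by positivity)]
          calc v (f.coeff j : F) * ((1 + η) ^ m) ^ (2 * g + 1 - j) ≤
              ((1 - η') * Y ^ (2 * g + 1 - j)) * ((1 + η) ^ m) ^ (2 * g + 1 - j) :=
                mul_le_mul_of_nonneg_right h4 (by positivity)
            _ = ((1 - η') * ((1 + η) ^ m) ^ (2 * g + 1 - j)) * Y ^ (2 * g + 1 - j) := by ring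
            _ ≤ 1 * Y ^ (2 * g + 1 - j) :=
                mul_le_mul_of_nonneg_right (hbb _ (Nat.sub_le _ _)) (by positivity)
            _ = _ := one_mul _
        · rw [hj, h1.tr]
          simp only [map_zero]
          positivity
    have h1 : (({f : (𝓞 F)[X] | HtR g Y f ∧ Base g W f₁ T P f ∧
        ¬ HtR g (Y / (1 + η) ^ m) f}.ncard : ℕ) : ℝ) ≤
        κ * η' * Y ^ D / (((W * Tn : ℕ) : ℝ) ^ d) ^ (2 * g) := by
      refine le_trans ?_ hshell
      exact_mod_cast Set.ncard_le_ncard hsub (hfin.subset fun f hf => hf.1)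
    refine h1.trans ?_
    rw [hNd]
    calc κ * η' * Y ^ D / (((W : ℝ) ^ d) ^ (2 * g) * Pn) =
          (κ * η' * 2 ^ D) * (Y ^ D / (((W : ℝ) ^ d) ^ (2 * g) * Pn * 2 ^ D)) := by
          field_simp
      _ ≤ (ε * c * ((W : ℝ) ^ d) ^ (2 * g)) * (Y ^ D / (((W : ℝ) ^ d) ^ (2 * g) * Pn * 2 ^ D)) :=
          mul_le_mul_of_nonneg_right hη'2 (by positivity)
      _ = ε * (c * (Y ^ D) / (2 ^ D * Pn)) := by
          field_simp
      _ ≤ _ := mul_le_mul_of_nonneg_left hlow hε.le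
  · -- the exceptions
    have h1 := (hB₀ B' hBB').2
    have h2 : (({f : (𝓞 F)[X] | HtR g Y f ∧ Base g W f₁ T P f ∧ ¬ Pr f}.ncard : ℕ) : ℝ) ≤
        ({f : (𝓞 F)[X] | Ht g B' f ∧ Base g W f₁ T P f ∧ ¬ Pr f}.ncard : ℝ) := by
      have hsub : {f : (𝓞 F)[X] | HtR g Y f ∧ Base g W f₁ T P f ∧ ¬ Pr f} ⊆
          {f : (𝓞 F)[X] | Ht g B' f ∧ Base g W f₁ T P f ∧ ¬ Pr f} := fun f hf => by
        have h3 := htr_mono hY0.le hB'ge hf.1
        exact ⟨⟨h3.mon, h3.deg, h3.tr, h3.ht⟩, hf.2⟩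
      exact_mod_cast Set.ncard_le_ncard hsub ((htr_fin g F B').subset fun f hf =>
        ⟨hf.1.mon, hf.1.deg, hf.1.tr, hf.1.ht⟩)
    refine h2.trans ?_
    have h3 : ({f : (𝓞 F)[X] | Ht g B' f ∧ Base g W f₁ T P f ∧ ¬ Pr f}.ncard : ℝ) ≤
        ε / 4 ^ D * (c * (B' : ℝ) ^ D) / Pn := by
      rw [le_div_iff₀ hPn0]
      linarith
    refine h3.trans (le_trans ?_ (mul_le_mul_of_nonneg_left hlow hε.le))
    have h4 : (B' : ℝ) ^ D ≤ 2 ^ D * Y ^ D := by
      rw [← mul_pow]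
      exact pow_le_pow_left₀ (Nat.cast_nonneg _) hB'le _
    have e4 : (4 : ℝ) ^ D = 2 ^ D * 2 ^ D := by
      rw [← mul_pow]
      norm_num
    calc ε / 4 ^ D * (c * (B' : ℝ) ^ D) / Pn ≤ ε / 4 ^ D * (c * (2 ^ D * Y ^ D)) / Pn := by
          refine div_le_div_of_nonneg_right ?_ hPn0.le
          exact mul_le_mul_of_nonneg_left (mul_le_mul_of_nonneg_left h4 hc.le) (by positivity)
      _ = ε * (c * (Y ^ D) / (2 ^ D * Pn)) := by
          rw [e4]
          field_simp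

end Pool.Agent.H18G.REGG
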