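import Pool.Agent.H18G.Stm
import Pool.Agent.H68K.PR.Big
import Pool.Agent.H33PR.UniF

/-!
# Project JG, part BIGG: the orders of the groups
-/

set_option autoImplicit false
set_option linter.all false

open Polynomial IsDedekindDomain Matrix NumberField WithZero
open scoped Classical

namespace Pool.Agent.H18G.BIGG

open Pool.Agent.N874.PP (Ev Sq1 U0)
open Pool.Agent.N783.PF
open Pool.Agent.N771.PF (rd_eq)
open Pool.Agent.H68K.PR (ex_pol dvd_of_aeval two_fac)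

/-- products of local squares -/
theorem loc_mul {M E : Type} [Field M] [Field E] (φ : M →+* E) {f p q h k : M[X]}
    (hp : ∃ s : E[X], f.map φ ∣ p.map φ - s ^ 2) (hq : ∃ s : E[X], f.map φ ∣ q.map φ - s ^ 2)
    (hk : f ∣ h - (p * q) * k ^ 2) : ∃ s : E[X], f.map φ ∣ h.map φ - s ^ 2 := by
  obtain ⟨s, hs⟩ := hp
  obtain ⟨u, hu⟩ := hq
  refine ⟨s * u * k.map φ, ?_⟩
  have h1 := Polynomial.map_dvd φ hk
  rw [Polynomial.map_sub, Polynomial.map_mul, Polynomial.map_mul, Polynomial.map_pow] at h1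
  have e : h.map φ - (s * u * k.map φ) ^ 2 = (h.map φ - p.map φ * q.map φ * (k.map φ) ^ 2) +
      (k.map φ) ^ 2 * (q.map φ * (p.map φ - s ^ 2) + s ^ 2 * (q.map φ - u ^ 2)) := by ring
  rw [e]
  exact dvd_add h1 ((dvd_add (hs.mul_left _) (hu.mul_left _)).mul_left _)

theorem t (hRNQ : S_RNQG) (hTWOI : S_TWOX) (hREAL : S_REALX) : S_BIGG := by
  intro g W F L _ _ _ _ _ f f₁ θ S 𝔮 r P hg hc hsq hf₁ hS hW hcon 𝔔 h𝔔
  have hqp : ∀ q ∈ S, q.Prime := fun q hq => (hS q hq).1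
  -- the primes are different
  have hinj : Set.InjOn 𝔔 S := by
    intro q hq q' hq' he
    by_contra hne
    have hov : ∀ q ∈ S, (q : 𝓞 L) ∈ (𝔔 q).asIdeal := by
      intro q hq
      have h1 := (h𝔔 q hq).1 _ (hS q hq).2.2.2.2.2.2.1
      rwa [map_natCast] at h1
    have h1 : (q : 𝓞 L) ∈ (𝔔 q).asIdeal := hov q hq
    have h2 : (q' : 𝓞 L) ∈ (𝔔 q).asIdeal := by rw [he]; exact hov q' hq'
    have hco : Nat.Coprime q q' := (Nat.coprime_primes (hqp q hq) (hqp q' hq')).2 hne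
    have h3 : IsCoprime (q : ℤ) (q' : ℤ) := Nat.isCoprime_iff_coprime.2 hco
    obtain ⟨a, b, hab⟩ := h3
    apply (𝔔 q).isPrime.ne_top
    rw [Ideal.eq_top_iff_one]
    have h4 : (1 : 𝓞 L) = (a : 𝓞 L) * (q : 𝓞 L) + (b : 𝓞 L) * (q' : 𝓞 L) := by
      have := congrArg (fun z : ℤ => (z : 𝓞 L)) hab
      push_cast at this
      exact this.symm
    rw [h4]
    exact Ideal.add_mem _ (Ideal.mul_mem_left _ _ h1) (Ideal.mul_mem_left _ _ h2)
  obtain ⟨A, hA1, hA2, hA3⟩ := Pool.Agent.H33PR.uni F L (by rw [hc.rank]; exact ⟨g, rfl⟩)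
    (S.image 𝔔) (by
    intro 𝔓 h𝔓
    obtain ⟨q, hq, rfl⟩ := Finset.mem_image.1 h𝔓
    exact hRNQ g W F L f θ S 𝔮 r P hg hc hsq hS q hq (hcon q hq) _ (h𝔔 q hq).1 (h𝔔 q hq).2)
  rw [Finset.card_image_of_injOn hinj] at hA1
  -- the primes over two
  obtain ⟨T, e, hT1, hT2, hT3⟩ := two_fac F
  have hirr : ∀ w : HeightOneSpectrum (𝓞 F), (2 : 𝓞 F) ∈ w.asIdeal →
      Irreducible (rd w.asIdeal f) := by
    intro w hw
    have h1 : Cg w.asIdeal f f₁ := by
      intro j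
      have h2 : sp F W ≤ w.asIdeal := by
        rw [sp, Ideal.span_singleton_le_iff_mem]
        obtain ⟨k, hk⟩ := hf₁.two
        rw [hk, Nat.cast_mul]
        exact w.asIdeal.mul_mem_right _ (by exact_mod_cast hw)
      exact h2 (hW j)
    rw [rd_eq h1]
    exact hf₁.irr _ w.isPrime hw
  have hTW : ∀ w : HeightOneSpectrum (𝓞 F), ∃ C : Finset L, w ∈ T →
      C.card ≤ Ideal.absNorm w.asIdeal ^ (2 * g * e w) ∧
      (∀ c ∈ C, c ≠ 0 ∧ IsSquare (Algebra.norm F c)) ∧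
      ∀ α : L, α ≠ 0 → IsSquare (Algebra.norm F α) → ∃ c ∈ C, ∀ h : F[X], aeval θ h = α * c →
        LocS (w.adicCompletion F) (fF f) h := by
    intro w
    by_cases hw : w ∈ T
    · obtain ⟨C, hC⟩ := hTWOI g F L f θ hg hc w ((hT1 w).1 hw) (hirr w ((hT1 w).1 hw)) (e w) (hT2 w)
      exact ⟨C, fun _ => hC⟩
    · exact ⟨∅, fun h => absurd h hw⟩
  choose Cw hCw using hTW
  obtain ⟨Cs, hCs1, hCs2⟩ := hREAL g F L f θ hc
  -- the choices
  have hchw : ∀ (w : HeightOneSpectrum (𝓞 F)) (α : L), ∃ c : L, w ∈ T → α ≠ 0 →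
      IsSquare (Algebra.norm F α) → c ∈ Cw w ∧
      ∀ h : F[X], aeval θ h = α * c → LocS (w.adicCompletion F) (fF f) h := by
    intro w α
    by_cases hw : w ∈ T
    · by_cases hα : α ≠ 0 ∧ IsSquare (Algebra.norm F α)
      · obtain ⟨c, hc1, hc2⟩ := (hCw w hw).2.2 α hα.1 hα.2
        exact ⟨c, fun _ _ _ => ⟨hc1, hc2⟩⟩
      · exact ⟨0, fun _ h h' => absurd ⟨h, h'⟩ hα⟩
    · exact ⟨0, fun h => absurd h hw⟩
  choose cw hcw using hchw
  have hchs : ∀ (σ : F →+* ℝ) (α : L), ∃ c : L, α ≠ 0 → IsSquare (Algebra.norm F α) → c ∈ Cs σ ∧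
      ∀ h : F[X], aeval θ h = α * c → ∃ s : ℝ[X], (fF f).map σ ∣ h.map σ - s ^ 2 := by
    intro σ α
    by_cases hα : α ≠ 0 ∧ IsSquare (Algebra.norm F α)
    · obtain ⟨c, hc1, hc2⟩ := (hCs2 σ).2 α hα.1 hα.2
      exact ⟨c, fun _ _ => ⟨hc1, hc2⟩⟩
    · exact ⟨0, fun h h' => absurd ⟨h, h'⟩ hα⟩
  choose cs hcs using hchs
  let Φ : L → (T → L) × ((F →+* ℝ) → L) := fun α => (fun w => cw w α, fun σ => cs σ α)
  let t : Finset ((T → L) × ((F →+* ℝ) → L)) :=
    (Fintype.piFinset fun w : T => Cw w) ×ˢ (Fintype.piFinset fun σ => Cs σ)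
  have hmaps : ∀ α : L, α ≠ 0 → IsSquare (Algebra.norm F α) → Φ α ∈ t := by
    intro α hα hα'
    rw [Finset.mem_product]
    constructor
    · rw [Fintype.mem_piFinset]
      exact fun w => (hcw w α w.2 hα hα').1
    · rw [Fintype.mem_piFinset]
      exact fun σ => (hcs σ α hα hα').1
  -- the orders
  have hrr : Fintype.card (InfinitePlace F) ≤ Fintype.card (InfinitePlace L) := by
    have h1 : 1 ≤ ∏ σ : F →+* ℝ, (Cs σ).card := by
      refine Nat.one_le_iff_ne_zero.2 (Finset.prod_ne_zero_iff.2 fun σ _ => ?_)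
      obtain ⟨c, hc1, -⟩ := (hCs2 σ).2 1 one_ne_zero (by rw [map_one]; exact ⟨1, by simp⟩)
      exact (Finset.card_pos.2 ⟨c, hc1⟩).ne'
    have h2 : 2 ^ (2 * g * Module.finrank ℚ F + 2 * Fintype.card (InfinitePlace F)) ≤
        2 ^ (2 * Fintype.card (InfinitePlace L)) :=
      (Nat.le_mul_of_pos_left _ h1).trans hCs1
    have h3 := (Nat.pow_le_pow_iff_right (by norm_num)).1 h2
    omega
  set a : ℕ := Fintype.card (InfinitePlace L) - Fintype.card (InfinitePlace F) with ha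
  have hr : Fintype.card (InfinitePlace L) = a + Fintype.card (InfinitePlace F) := by omega
  have hAc : 2 ^ (S.card + a) ≤ A.card := by
    refine Nat.le_of_mul_le_mul_right ?_ (Nat.two_pow_pos (Fintype.card (InfinitePlace F)))
    rw [← pow_add, add_assoc, ← hr]
    exact hA1
  have htc : t.card ≤ 2 ^ (2 * a) := by
    have h1 : t.card = (∏ w : T, (Cw w).card) * ∏ σ, (Cs σ).card := by
      rw [Finset.card_product, Fintype.card_piFinset, Fintype.card_piFinset]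
    have h2 : ∏ w : T, (Cw w).card ≤ 2 ^ (2 * g * Module.finrank ℚ F) := by
      calc ∏ w : T, (Cw w).card ≤ ∏ w : T, (Ideal.absNorm w.1.asIdeal ^ e w) ^ (2 * g) := by
            refine Finset.prod_le_prod (fun _ _ => Nat.zero_le _) fun w _ => ?_
            rw [← pow_mul, mul_comm (e w)]
            exact (hCw w w.2).1
        _ = 2 ^ (2 * g * Module.finrank ℚ F) := by
            rw [Finset.prod_pow, Finset.prod_coe_sort T (fun w => Ideal.absNorm w.asIdeal ^ e w),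
              hT3, ← pow_mul, mul_comm]
    have h3 : 0 < 2 ^ (2 * Fintype.card (InfinitePlace F)) := Nat.two_pow_pos _
    refine Nat.le_of_mul_le_mul_right ?_ h3
    calc t.card * 2 ^ (2 * Fintype.card (InfinitePlace F))
        = (∏ w : T, (Cw w).card) * ((∏ σ, (Cs σ).card) * 2 ^ (2 * Fintype.card (InfinitePlace F))) := by
          rw [h1]
          ring
      _ ≤ 2 ^ (2 * g * Module.finrank ℚ F) *
            ((∏ σ, (Cs σ).card) * 2 ^ (2 * Fintype.card (InfinitePlace F))) :=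
          Nat.mul_le_mul_right _ h2
      _ = (∏ σ, (Cs σ).card) *
            2 ^ (2 * g * Module.finrank ℚ F + 2 * Fintype.card (InfinitePlace F)) := by
          rw [pow_add]
          ring
      _ ≤ 2 ^ (2 * Fintype.card (InfinitePlace L)) := hCs1
      _ = 2 ^ (2 * a) * 2 ^ (2 * Fintype.card (InfinitePlace F)) := by
          rw [← pow_add, hr]
          congr 1
          ring
  -- the representatives
  have hrep : ∀ y : (T → L) × ((F →+* ℝ) → L), ∃ β : L,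
      (∃ α, InP F S 𝔔 α ∧ Φ α = y) → InP F S 𝔔 β ∧ Φ β = y := by
    intro y
    by_cases h : ∃ α, InP F S 𝔔 α ∧ Φ α = y
    · obtain ⟨α, hα⟩ := h
      exact ⟨α, fun _ => hα⟩
    · exact ⟨0, fun h' => absurd h' h⟩
  choose rep hrep using hrep
  refine ⟨a, A, t.image rep, hAc, ?_, hA3, Finset.card_image_le.trans htc, ?_⟩
  · intro α hα
    refine ⟨(hA2 α hα).1, (hA2 α hα).2.1, fun 𝔓 h𝔓 => (hA2 α hα).2.2 𝔓 ?_⟩
    intro h
    obtain ⟨q, hq, he⟩ := Finset.mem_image.1 h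
    exact h𝔓 q hq he.symm
  · intro α hα
    obtain ⟨hβ, hΦ⟩ := hrep (Φ α) ⟨α, hα, rfl⟩
    set β : L := rep (Φ α) with hβd
    refine ⟨β, Finset.mem_image.2 ⟨Φ α, hmaps α hα.ne hα.nsq, rfl⟩, hβ, ?_⟩
    obtain ⟨h₀, hh₀⟩ := ex_pol hc (α * β)
    refine ⟨h₀, hh₀, ?_, ?_⟩
    · intro w hw
      have hwT := (hT1 w).2 hw
      have hce : cw w β = cw w α := congrFun (congrArg Prod.fst hΦ) ⟨w, hwT⟩
      obtain ⟨c1, c2⟩ := hcw w α hwT hα.ne hα.nsq
      obtain ⟨c3, c4⟩ := hcw w β hwT hβ.ne hβ.nsq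
      have hc0 : cw w α ≠ 0 := ((hCw w hwT).2.1 _ c1).1
      obtain ⟨p₁, hp₁⟩ := ex_pol hc (α * cw w α)
      obtain ⟨p₂, hp₂⟩ := ex_pol hc (β * cw w β)
      obtain ⟨k, hk⟩ := ex_pol hc (cw w α)⁻¹
      refine loc_mul (algebraMap F (w.adicCompletion F)) (k := k) (c2 p₁ hp₁) (c4 p₂ hp₂)
        (dvd_of_aeval hc ?_)
      rw [map_sub, map_mul, map_mul, map_pow, hh₀, hp₁, hp₂, hk, hce]
      field_simp
      ring
    · intro σ
      have hce : cs σ β = cs σ α := congrFun (congrArg Prod.snd hΦ) σ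
      obtain ⟨c1, c2⟩ := hcs σ α hα.ne hα.nsq
      obtain ⟨c3, c4⟩ := hcs σ β hβ.ne hβ.nsq
      have hc0 : cs σ α ≠ 0 := ((hCs2 σ).1 _ c1).1
      obtain ⟨p₁, hp₁⟩ := ex_pol hc (α * cs σ α)
      obtain ⟨p₂, hp₂⟩ := ex_pol hc (β * cs σ β)
      obtain ⟨k, hk⟩ := ex_pol hc (cs σ α)⁻¹
      refine loc_mul σ (k := k) (c2 p₁ hp₁) (c4 p₂ hp₂) (dvd_of_aeval hc ?_)
      rw [map_sub, map_mul, map_mul, map_pow, hh₀, hp₁, hp₂, hk, hce]
      field_simp
      ring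

end Pool.Agent.H18G.BIGG
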