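import Pool.Agent.H18G.Stm
import Pool.Agent.H68K.PR.Core

/-!
# Project JG, stub COREG (helper33): the maximal isotropic group between the relaxed Selmer group and
# `M⁺`

After `Pool/Agent/H42PR/Core3.lean` of helper42 and `Pool/Agent/H68K/PR/Core.lean` of helper68.
-/

set_option autoImplicit false
set_option linter.all false

open Polynomial IsDedekindDomain Matrix NumberField WithZero
open scoped Classical

namespace Pool.Agent.H18G.COREG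

open Pool.Agent.H68K.PR (LJ InM ex_equiv mem_of_ov)
open Pool.Agent.N874.PP (Ev Sq1 U0)
open Pool.Agent.N783.PQ (LocIm)
open Pool.Agent.N874.JM (LocF)
open Pool.Agent.N783.PF
open Pool.Agent.N891.PQ (cl cl_add_aux not_ev_exp locIm_one)
open Pool.Agent.N771.PF (locF_one locF_mul rd_eq)

theorem str2_mul {F : Type} [Field F] [NumberField F] {f : (𝓞 F)[X]} {h k : F[X]}
    (H : Str2 f h) (K : Str2 f k) : Str2 f (h * k) := by
  refine ⟨fun w hw => ?_, fun σ => ?_⟩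
  · obtain ⟨s, hs⟩ := H.two w hw
    obtain ⟨t, ht⟩ := K.two w hw
    refine ⟨s * t, ?_⟩
    rw [Polynomial.map_mul]
    have e : h.map (algebraMap F (w.adicCompletion F)) * k.map (algebraMap F (w.adicCompletion F)) -
        (s * t) ^ 2 = (h.map (algebraMap F (w.adicCompletion F)) - s ^ 2) *
          k.map (algebraMap F (w.adicCompletion F)) +
        s ^ 2 * (k.map (algebraMap F (w.adicCompletion F)) - t ^ 2) := by ring
    rw [e]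
    exact dvd_add (hs.mul_right _) (ht.mul_left _)
  · obtain ⟨s, hs⟩ := H.real σ
    obtain ⟨t, ht⟩ := K.real σ
    refine ⟨s * t, ?_⟩
    rw [Polynomial.map_mul]
    have e : h.map σ * k.map σ - (s * t) ^ 2 = (h.map σ - s ^ 2) * k.map σ +
        s ^ 2 * (k.map σ - t ^ 2) := by ring
    rw [e]
    exact dvd_add (hs.mul_right _) (ht.mul_left _)

theorem str2_one {F : Type} [Field F] [NumberField F] (f : (𝓞 F)[X]) : Str2 f (1 : F[X]) := by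
  refine ⟨fun w hw => ⟨1, ?_⟩, fun σ => ⟨1, ?_⟩⟩
  · rw [Polynomial.map_one, one_pow, sub_self]
    exact dvd_zero _
  · rw [Polynomial.map_one, one_pow, sub_self]
    exact dvd_zero _

/-- **COREG.** -/
theorem t (hLIN : S_LIN5) (hBIG : S_BIGG) (hREC2 : S_REC2) (hEXQ : Pool.Agent.N783.PF.S_EXQ)
    (hNS : Pool.Agent.N783.PF.S_NS) (hREC : Pool.Agent.N783.PF.S_REC)
    (hLOC : Pool.Agent.N783.PF.S_LOC) : Pool.Agent.H18G.S_COREG := by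
  have hCLS := Pool.Agent.N457.PQ.cls
  intro g W F L _ _ _ _ _ f f₁ θ S 𝔮 r P hg hc hsq hf₁ hS hW hcon hnb
  have hqp : ∀ q ∈ S, q.Prime := fun q hq => (hS q hq).1
  have hq2 : ∀ q ∈ S, q ≠ 2 := by
    intro q hq h
    have := (hS q hq).2.2.2.1
    rw [h] at this
    omega
  have hcg : ∀ q ∈ S, Cg (𝔮 q) f (X * r q) := by
    intro q hq j
    obtain ⟨-, -, -, -, -, -, hmem, -, -, -, -, -, -, hcg1, -⟩ := hS q hq
    have h1 := hcon q hq j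
    have h2 : sp F q ≤ 𝔮 q := by
      rw [sp, Ideal.span_singleton_le_iff_mem]
      exact hmem
    have h3 := Ideal.add_mem _ (h2 h1) (hcg1 j)
    have e : f.coeff j - (X * r q).coeff j =
        f.coeff j - (P q).coeff j + ((P q).coeff j - (X * r q).coeff j) := by ring
    rw [e]
    exact h3
  have hov : ∀ q ∈ S, ∀ 𝔓 : HeightOneSpectrum (𝓞 L), Ov (𝔮 q) 𝔓 → Pool.Agent.N783.PQ.Ov q 𝔓 := by
    intro q hq 𝔓 h
    have h1 := h _ (hS q hq).2.2.2.2.2.2.1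
    rw [map_natCast] at h1
    exact h1
  have hone : ∀ q ∈ S, ∀ q' ∈ S, ∀ 𝔓 : HeightOneSpectrum (𝓞 L), (q : 𝓞 L) ∈ 𝔓.asIdeal →
      (q' : 𝓞 L) ∈ 𝔓.asIdeal → q = q' := by
    intro q hq q' hq' 𝔓 h1 h2
    by_contra hne
    have hco : Nat.Coprime q q' := (Nat.coprime_primes (hqp q hq) (hqp q' hq')).2 hne
    have h3 : IsCoprime (q : ℤ) (q' : ℤ) := Nat.isCoprime_iff_coprime.2 hco
    obtain ⟨a, b, hab⟩ := h3
    apply 𝔓.isPrime.ne_top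
    rw [Ideal.eq_top_iff_one]
    have h4 : (1 : 𝓞 L) = (a : 𝓞 L) * (q : 𝓞 L) + (b : 𝓞 L) * (q' : 𝓞 L) := by
      have := congrArg (fun z : ℤ => (z : 𝓞 L)) hab
      push_cast at this
      exact this.symm
    rw [h4]
    exact Ideal.add_mem _ (Ideal.mul_mem_left _ _ h1) (Ideal.mul_mem_left _ _ h2)
  have huniq : ∀ q ∈ S, ∀ q' ∈ S, ∀ 𝔓 : HeightOneSpectrum (𝓞 L), Ov (𝔮 q) 𝔓 → Ov (𝔮 q') 𝔓 →
      q = q' := fun q hq q' hq' 𝔓 h h' => hone q hq q' hq' 𝔓 (hov q hq 𝔓 h) (hov q' hq' 𝔓 h')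
  have hex : ∀ q ∈ S, ∃ 𝔓₁ 𝔔 : HeightOneSpectrum (𝓞 L), Ov (𝔮 q) 𝔓₁ ∧ Ov (𝔮 q) 𝔔 ∧
      𝔓₁.valuation L θ < 1 ∧ 𝔔.valuation L θ = 1 ∧ ¬ Ev 𝔔 ((q : L) * θ) ∧
      ∀ 𝔓 : HeightOneSpectrum (𝓞 L), Ov (𝔮 q) 𝔓 → 𝔓 = 𝔓₁ ∨ 𝔓 = 𝔔 := by
    intro q hq
    obtain ⟨𝔓₁, 𝔔, a1, a2, a3, a4, a5, a6, a7⟩ :=
      hEXQ g W F L f θ S 𝔮 r P hg hc hsq hS q hq (hcg q hq)
    refine ⟨𝔓₁, 𝔔, a1, a2, a3, a4, not_ev_exp ?_, a7⟩
    rw [map_mul, a6, a4, mul_one]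
  haveI hne : Nonempty (HeightOneSpectrum (𝓞 L)) := by
    obtain ⟨m, hm⟩ := Ideal.exists_maximal (𝓞 L)
    exact ⟨⟨m, hm.isPrime, Ring.ne_bot_of_isMaximal_of_not_isField hm
      (NumberField.RingOfIntegers.not_isField L)⟩⟩
  obtain ⟨𝔭, h𝔭⟩ : ∃ 𝔭 : ℕ → HeightOneSpectrum (𝓞 L), 𝔭 = fun q =>
    if hq : q ∈ S then (hex q hq).choose else Classical.arbitrary _ := ⟨_, rfl⟩
  obtain ⟨𝔔, h𝔔⟩ : ∃ 𝔔 : ℕ → HeightOneSpectrum (𝓞 L), 𝔔 = fun q =>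
    if hq : q ∈ S then (hex q hq).choose_spec.choose else Classical.arbitrary _ := ⟨_, rfl⟩
  have hpq : ∀ q ∈ S, Ov (𝔮 q) (𝔭 q) ∧ Ov (𝔮 q) (𝔔 q) ∧ (𝔭 q).valuation L θ < 1 ∧
      (𝔔 q).valuation L θ = 1 ∧ ¬ Ev (𝔔 q) ((q : L) * θ) ∧
      ∀ 𝔓 : HeightOneSpectrum (𝓞 L), Ov (𝔮 q) 𝔓 → 𝔓 = 𝔭 q ∨ 𝔓 = 𝔔 q := by
    intro q hq
    have h := (hex q hq).choose_spec.choose_spec
    rw [h𝔭, h𝔔]
    simp only [dif_pos hq]
    exact h
  have h𝔔' : ∀ q ∈ S, Ov (𝔮 q) (𝔔 q) ∧ (𝔔 q).valuation L θ = 1 :=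
    fun q hq => ⟨(hpq q hq).2.1, (hpq q hq).2.2.2.1⟩
  -- the map `ψ`
  obtain ⟨ψ, hψd⟩ : ∃ ψ : L → (S → ZMod 2 × ZMod 2), ψ = fun (α : L) (q : S) =>
    cl (𝔔 (q : ℕ)) (((q : ℕ) : L) * θ) α := ⟨_, rfl⟩
  have hϖ : ∀ q ∈ S, (q : L) * θ ≠ 0 := by
    intro q hq h0
    exact (hpq q hq).2.2.2.2.1 (by rw [h0]; exact ⟨0, by simp⟩)
  have hψ : ∀ α β : L, α ≠ 0 → β ≠ 0 → ψ (α * β) = ψ α + ψ β := by
    intro α β hα hβ
    rw [hψd]
    funext q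
    have h := hCLS L q (𝔔 q) ((q : L) * θ) (hqp q q.2) (hq2 q q.2)
      (hov q q.2 _ (hpq q q.2).2.1) (hϖ q q.2) (hpq q q.2).2.2.2.2.1 α β hα hβ
    exact Prod.ext (cl_add_aux h.1) (cl_add_aux h.2)
  have hself : ∀ l : S → ZMod 2 × ZMod 2, l + l = 0 := by
    intro l
    funext q
    exact Prod.ext (CharTwo.add_self_eq_zero _) (CharTwo.add_self_eq_zero _)
  have hψs : ∀ α : L, α ≠ 0 → IsSquare α → ψ α = 0 := by
    rintro α hα ⟨s, rfl⟩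
    have hs : s ≠ 0 := fun h => hα (by rw [h, mul_zero])
    rw [hψ s s hs hs]
    exact hself _
  have hψ1 : ψ 1 = 0 := hψs 1 one_ne_zero IsSquare.one
  have hfst : ∀ (α : L) (q : S), (ψ α q).1 = 0 ↔ Ev (𝔔 (q : ℕ)) α := by
    intro α q
    rw [hψd]
    show (if Ev (𝔔 (q : ℕ)) α then (0 : ZMod 2) else 1) = 0 ↔ _
    by_cases h : Ev (𝔔 (q : ℕ)) α
    · rw [if_pos h]
      exact ⟨fun _ => h, fun _ => rfl⟩
    · rw [if_neg h]
      exact ⟨fun h1 => absurd h1 one_ne_zero, fun h1 => absurd h1 h⟩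
  have hsnd : ∀ (α : L) (q : S), (ψ α q).2 = 0 ↔ U0 (𝔔 (q : ℕ)) (((q : ℕ) : L) * θ) α := by
    intro α q
    rw [hψd]
    show (if U0 (𝔔 (q : ℕ)) (((q : ℕ) : L) * θ) α then (0 : ZMod 2) else 1) = 0 ↔ _
    by_cases h : U0 (𝔔 (q : ℕ)) (((q : ℕ) : L) * θ) α
    · rw [if_pos h]
      exact ⟨fun _ => h, fun _ => rfl⟩
    · rw [if_neg h]
      exact ⟨fun h1 => absurd h1 one_ne_zero, fun h1 => absurd h1 h⟩
  have hEvmul : ∀ (𝔓 : HeightOneSpectrum (𝓞 L)) (x y : L), Ev 𝔓 x → Ev 𝔓 y → Ev 𝔓 (x * y) := by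
    rintro 𝔓 x y ⟨u, hu⟩ ⟨v, hv⟩
    exact ⟨u * v, by rw [map_mul, map_mul, hu, hv, mul_pow]⟩
  -- the group `M⁺`
  have hPmul : ∀ α β, InP F S 𝔔 α → InP F S 𝔔 β → InP F S 𝔔 (α * β) := by
    intro α β hα hβ
    refine ⟨mul_ne_zero hα.ne hβ.ne, ?_, fun 𝔓 h𝔓 => hEvmul 𝔓 _ _ (hα.ev 𝔓 h𝔓) (hβ.ev 𝔓 h𝔓)⟩
    rw [map_mul]
    exact hα.nsq.mul hβ.nsq
  have hP1 : InP F S 𝔔 (1 : L) := by
    refine ⟨one_ne_zero, by rw [map_one]; exact IsSquare.one, fun 𝔓 _ => ⟨1, by rw [map_one, one_pow]⟩⟩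
  -- the relaxed Selmer group
  have hMP : ∀ α, InM f θ S 𝔔 α → InP F S 𝔔 α := fun α h => ⟨h.ne, h.nsq, h.ev⟩
  have hMmul : ∀ α β, InM f θ S 𝔔 α → InM f θ S 𝔔 β → InM f θ S 𝔔 (α * β) := by
    intro α β hα hβ
    obtain ⟨h1, h2, h3, a, h4, h5, h6⟩ := hα
    obtain ⟨h1', h2', h3', b, h4', h5', h6'⟩ := hβ
    refine ⟨mul_ne_zero h1 h1', ?_, fun 𝔓 h𝔓 => hEvmul 𝔓 _ _ (h3 𝔓 h𝔓) (h3' 𝔓 h𝔓), a * b, ?_, ?_, ?_⟩
    · rw [map_mul]
      exact h2.mul h2'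
    · rw [map_mul, h4, h4']
    · intro w hw
      exact locF_mul (h5 w hw) (h5' w hw)
    · intro σ
      rw [Polynomial.map_mul]
      exact Pool.Agent.N891.PQ.LocIm.mul (h6 σ) (h6' σ)
  have hM1 : InM f θ S 𝔔 (1 : L) := by
    refine ⟨one_ne_zero, by rw [map_one]; exact IsSquare.one, fun 𝔓 _ => ⟨1, by rw [map_one, one_pow]⟩,
      1, by rw [map_one], ?_, ?_⟩
    · intro w _
      exact locF_one _ _
    · intro σ
      rw [Polynomial.map_one]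
      exact locIm_one _ _
  -- the polynomials
  have hpol : ∀ α : L, ∃ h : F[X], aeval θ h = α := by
    intro α
    obtain ⟨c, hc'⟩ := hc.gen α
    refine ⟨∑ i, C (c i) * X ^ (i : ℕ), ?_⟩
    rw [map_sum, hc']
    refine Finset.sum_congr rfl fun i _ => ?_
    rw [map_mul, aeval_C, map_pow, aeval_X]
  -- the three groups
  let M : AddSubgroup (S → ZMod 2 × ZMod 2) :=
    { carrier := {l | ∃ α, InP F S 𝔔 α ∧ ψ α = l}
      add_mem' := by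
        rintro _ _ ⟨α, hα, rfl⟩ ⟨β, hβ, rfl⟩
        exact ⟨α * β, hPmul α β hα hβ, hψ α β hα.ne hβ.ne⟩
      zero_mem' := ⟨1, hP1, hψ1⟩
      neg_mem' := by
        rintro _ ⟨α, hα, rfl⟩
        refine ⟨α, hα, ?_⟩
        rw [eq_neg_iff_add_eq_zero]
        exact hself _ }
  let K : AddSubgroup (S → ZMod 2 × ZMod 2) :=
    { carrier := {l | ∃ k : F[X], InP F S 𝔔 (aeval θ k) ∧ Str2 f k ∧ ψ (aeval θ k) = l}
      add_mem' := by
        rintro _ _ ⟨α, hα, hα', rfl⟩ ⟨β, hβ, hβ', rfl⟩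
        refine ⟨α * β, ?_, str2_mul hα' hβ', ?_⟩
        · rw [map_mul]
          exact hPmul _ _ hα hβ
        · rw [map_mul]
          exact hψ _ _ hα.ne hβ.ne
      zero_mem' := ⟨1, by rw [map_one]; exact hP1, str2_one f, by rw [map_one]; exact hψ1⟩
      neg_mem' := by
        rintro _ ⟨α, hα, hα', rfl⟩
        refine ⟨α, hα, hα', ?_⟩
        rw [eq_neg_iff_add_eq_zero]
        exact hself _ }
  let I : AddSubgroup (S → ZMod 2 × ZMod 2) :=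
    { carrier := {l | ∃ α, InM f θ S 𝔔 α ∧ ψ α = l}
      add_mem' := by
        rintro _ _ ⟨α, hα, rfl⟩ ⟨β, hβ, rfl⟩
        exact ⟨α * β, hMmul α β hα hβ, hψ α β hα.ne hβ.ne⟩
      zero_mem' := ⟨1, hM1, hψ1⟩
      neg_mem' := by
        rintro _ ⟨α, hα, rfl⟩
        refine ⟨α, hα, ?_⟩
        rw [eq_neg_iff_add_eq_zero]
        exact hself _ }
  have hKM : K ≤ M := by
    rintro _ ⟨k, h1, h2, rfl⟩
    exact ⟨_, h1, rfl⟩
  have hIM : I ≤ M := by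
    rintro _ ⟨α, h1, rfl⟩
    exact ⟨_, hMP α h1, rfl⟩
  -- the quadratic form
  have hqf : ∀ α : L, ∑ q : S, (ψ α q).1 * (ψ α q).2 = ((cnt (F := F) S 𝔔 θ α : ℕ) : ZMod 2) := by
    intro α
    have e1 : ∑ q : S, (ψ α q).1 * (ψ α q).2 = ∑ q ∈ S,
        (if ¬ Ev (𝔔 q) α ∧ ¬ Sq1 (𝔔 q) (α * ((q : L) * θ)) then (1 : ZMod 2) else 0) := by
      rw [← Finset.sum_coe_sort S]
      refine Finset.sum_congr rfl fun q _ => ?_
      simp only [hψd, cl]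
      by_cases he : Ev (𝔔 q) α
      · rw [if_pos he, zero_mul, if_neg (fun h => h.1 he)]
      · by_cases hs : Sq1 (𝔔 q) (α * (((q : ℕ) : L) * θ))
        · have hu : U0 (𝔔 q) (((q : ℕ) : L) * θ) α := ⟨fun h => absurd h he, fun _ => hs⟩
          rw [if_neg he, if_pos hu, mul_zero, if_neg (fun h => h.2 hs)]
        · have hu : ¬ U0 (𝔔 q) (((q : ℕ) : L) * θ) α := fun h => hs (h.2 he)
          rw [if_neg he, if_neg hu, mul_one, if_pos ⟨he, hs⟩]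
    rw [e1, Finset.sum_ite, Finset.sum_const_zero, add_zero, Finset.sum_const, nsmul_eq_mul,
      mul_one]
    rfl
  have hqf0 : ∀ α : L, ∑ q : S, (ψ α q).1 * (ψ α q).2 = 0 ↔ Even (cnt (F := F) S 𝔔 θ α) := by
    intro α
    rw [hqf]
    exact ZMod.natCast_eq_zero_iff_even
  have hqfe : ∀ α β : L, (Even (cnt (F := F) S 𝔔 θ α) ↔ Even (cnt (F := F) S 𝔔 θ β)) →
      ∑ q : S, (ψ α q).1 * (ψ α q).2 = ∑ q : S, (ψ β q).1 * (ψ β q).2 := by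
    intro α β h
    have h2 : ∀ x y : ZMod 2, (x = 0 ↔ y = 0) → x = y := by decide
    exact h2 _ _ (by rw [hqf0, hqf0]; exact h)
  have hcnt1 : Even (cnt (F := F) S 𝔔 θ (1 : L)) := by
    rw [← hqf0, hψ1]
    exact Finset.sum_eq_zero fun q _ => by simp
  have hREC2' := hREC2 g W F L f θ S 𝔮 r P hg hc hsq hS hcon 𝔔 h𝔔'
  have hKq : ∀ k ∈ K, ∑ q : S, (k q).1 * (k q).2 = 0 := by
    rintro _ ⟨k, h1, h2, rfl⟩
    rw [hqf0]
    have h3 := hREC2' 1 k (by rw [map_one]; exact hP1) h1 h2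
    rw [one_mul, map_one] at h3
    exact h3.2 hcnt1
  have hIq : ∀ l ∈ I, ∑ q : S, (l q).1 * (l q).2 = 0 := by
    rintro _ ⟨α, hα, rfl⟩
    obtain ⟨b1, b2, b3, h₀, b4, b5, b6⟩ := hα
    have h := hREC g W F L f θ S 𝔮 r P hg hc hsq hS hcon 𝔔 h𝔔' h₀ (by rw [b4]; exact b1)
      (by rw [b4]; exact b2) (by rw [b4]; exact b3) b5 b6
    rw [b4] at h
    rw [hqf0]
    exact h
  have hKMq : ∀ k ∈ K, ∀ l ∈ M, ∑ q : S, ((k q).1 * (l q).2 + (k q).2 * (l q).1) = 0 := by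
    intro k hk l hl
    have hk0 := hKq k hk
    obtain ⟨k, h1, h2, rfl⟩ := hk
    obtain ⟨α, h3, rfl⟩ := hl
    obtain ⟨h, rfl⟩ := hpol α
    have h4 := hqfe _ _ (hREC2' h k h3 h1 h2)
    rw [map_mul, hψ _ _ h3.ne h1.ne] at h4
    have h5 : ∑ q : S, ((ψ (aeval θ h) + ψ (aeval θ k)) q).1 * ((ψ (aeval θ h) + ψ (aeval θ k)) q).2 =
        ∑ q : S, (ψ (aeval θ h) q).1 * (ψ (aeval θ h) q).2 +
        ∑ q : S, (ψ (aeval θ k) q).1 * (ψ (aeval θ k) q).2 +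
        ∑ q : S, ((ψ (aeval θ k) q).1 * (ψ (aeval θ h) q).2 +
          (ψ (aeval θ k) q).2 * (ψ (aeval θ h) q).1) := by
      rw [← Finset.sum_add_distrib, ← Finset.sum_add_distrib]
      refine Finset.sum_congr rfl fun q _ => ?_
      rw [Pi.add_apply, Prod.fst_add, Prod.snd_add]
      ring
    rw [h5, hk0, add_zero] at h4
    exact left_eq_add.1 h4.symm
  -- local triviality at one prime of `S`
  have hsq1 : ∀ α, InP F S 𝔔 α → ∀ q (hq : q ∈ S), ψ α ⟨q, hq⟩ = 0 →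
      ∀ 𝔓 : HeightOneSpectrum (𝓞 L), Ov (𝔮 q) 𝔓 → Sq1 𝔓 α := by
    intro α hα q hqS hz
    obtain ⟨b1, b2, b3⟩ := hα
    have hz1 : Ev (𝔔 q) α ∧ U0 (𝔔 q) ((q : L) * θ) α :=
      ⟨(hfst α ⟨q, hqS⟩).1 (by rw [hz]; rfl), (hsnd α ⟨q, hqS⟩).1 (by rw [hz]; rfl)⟩
    refine hNS g W F L f θ S 𝔮 r P hg hc hsq hS q hqS (hcg q hqS) α b1 b2
      (fun 𝔓 _ hv => ?_) (fun 𝔓 h𝔓 hv => ?_)
    · refine b3 𝔓 fun q' hq' he => ?_
      rw [he, (hpq q' hq').2.2.2.1] at hv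
      exact lt_irrefl _ hv
    · rcases (hpq q hqS).2.2.2.2.2 𝔓 h𝔓 with rfl | rfl
      · exact absurd hv (hpq q hqS).2.2.1.ne
      · exact hz1.2.1 hz1.1
  have hinj : ∀ α, InP F S 𝔔 α → ψ α = 0 → IsSquare α := by
    intro α hα h0
    refine hnb α hα.ne hα.nsq ?_ ?_
    · intro 𝔓
      by_cases h : ∀ q ∈ S, 𝔓 ≠ 𝔔 q
      · exact hα.ev 𝔓 h
      · push Not at h
        obtain ⟨q, hq, rfl⟩ := h
        exact (hfst α ⟨q, hq⟩).1 (by rw [h0]; rfl)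
    · intro q hq
      exact hsq1 α hα q hq (by rw [h0]; rfl)
  have hinj2 : ∀ α β, InP F S 𝔔 α → InP F S 𝔔 β → ψ α = ψ β → IsSquare (α * β) := by
    intro α β hα hβ he
    refine hinj _ (hPmul α β hα hβ) ?_
    rw [hψ α β hα.ne hβ.ne, he]
    exact hself _
  -- the orders
  obtain ⟨a, A, D₀, hA1, hA2, hA3, hC1, hC2⟩ :=
    hBIG g W F L f f₁ θ S 𝔮 r P hg hc hsq hf₁ hS hW hcon 𝔔 h𝔔'
  have hMcard : 2 ^ (Fintype.card S + a) ≤ Nat.card M := by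
    rw [Fintype.card_coe]
    refine hA1.trans ?_
    have h1 : A.card = Nat.card A := by
      rw [Nat.card_eq_fintype_card, Fintype.card_coe]
    rw [h1]
    refine Nat.card_le_card_of_injective
      (fun α : A => (⟨ψ α, α, hA2 α α.2, rfl⟩ : M)) ?_
    intro α β he
    have h2 : ψ α = ψ β := congrArg (fun x : M => (x : S → ZMod 2 × ZMod 2)) he
    exact Subtype.ext (hA3 α α.2 β β.2 (hinj2 α β (hA2 α α.2) (hA2 β β.2) h2))
  have hKcard : Nat.card M ≤ 2 ^ (2 * a) * Nat.card K := by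
    refine le_trans ?_ (Nat.mul_le_mul_right _ hC1)
    have h1 : D₀.card = Nat.card D₀ := by
      rw [Nat.card_eq_fintype_card, Fintype.card_coe]
    rw [h1, ← Nat.card_prod]
    have h2 : ∀ m : M, ∃ x : D₀ × K, (x.2 : S → ZMod 2 × ZMod 2) = (m : S → ZMod 2 × ZMod 2) +
        ψ (x.1 : L) := by
      rintro ⟨_, α, hα, rfl⟩
      obtain ⟨β, hβ, hβ1, k, hk, hk1⟩ := hC2 α hα
      refine ⟨(⟨β, hβ⟩, ⟨ψ (α * β), k, ?_, hk1, ?_⟩), ?_⟩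
      · rw [hk]
        exact hPmul _ _ hα hβ1
      · rw [hk]
      · exact hψ α β hα.ne hβ1.ne
    choose φ hφ using h2
    refine Nat.card_le_card_of_injective φ ?_
    intro m m' he
    have h3 := hφ m
    have h4 := hφ m'
    rw [he] at h3
    rw [h3] at h4
    exact Subtype.ext (add_right_cancel h4)
  obtain ⟨Λ, hIΛ, hΛM, hiso, hΛcard⟩ := hLIN S a M K I hKM hIM hKq hIq hKMq hMcard hKcard
  rw [Fintype.card_coe] at hΛcard
  refine ⟨Λ, hiso, hΛcard, fun J => ?_, fun J l hl hl0 => ?_⟩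
  swap
  · obtain ⟨hlΛ, hlJ, hlJ'⟩ := hl
    obtain ⟨α, hα, rfl⟩ := hΛM hlΛ
    refine ⟨α, hα.ne, hα.nsq, fun h => hl0 (hψs α hα.ne h), ?_, ?_, ?_⟩
    · intro 𝔓 h𝔓
      by_cases h : ∀ q ∈ S, 𝔓 ≠ 𝔔 q
      · exact hα.ev 𝔓 h
      · push Not at h
        obtain ⟨q, hq, rfl⟩ := h
        refine (hfst α ⟨q, hq⟩).1 ?_
        by_cases hqJ : (⟨q, hq⟩ : S) ∈ J
        · by_cases hq0 : ψ α ⟨q, hq⟩ = 0
          · rw [hq0]; rfl
          · exact absurd (hpq q hq).2.2.2.1 (h𝔓 ⟨q, hq⟩ hqJ hq0 (hpq q hq).2.1)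
        · exact hlJ' _ hqJ
    · intro q hq 𝔓 h𝔓
      exact hsq1 α hα q q.2 hq 𝔓 h𝔓
    · intro q hqJ hq0
      refine ⟨𝔔 q, (hpq q q.2).2.1, fun hs => hq0 ?_⟩
      have h1 : (ψ α q).1 = 0 := hlJ' q hqJ
      have he : Ev (𝔔 (q : ℕ)) α := (hfst α q).1 h1
      exact Prod.ext h1 ((hsnd α q).2 ⟨fun _ => hs, fun h => absurd he h⟩)
  obtain ⟨J', hJ'd⟩ : ∃ J' : Finset ℕ, J' = J.map (Function.Embedding.subtype _) := ⟨_, rfl⟩
  have hJ'S : J' ⊆ S := by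
    intro q hq
    rw [hJ'd, Finset.mem_map] at hq
    obtain ⟨q', -, rfl⟩ := hq
    exact q'.2
  have hJJ : ∀ q : S, (q : ℕ) ∈ J' ↔ q ∈ J := by
    intro q
    rw [hJ'd, Finset.mem_map]
    constructor
    · rintro ⟨q', hq', he⟩
      have : q' = q := Subtype.ext he
      rwa [this] at hq'
    · intro hq
      exact ⟨q, hq, rfl⟩
  rw [← hJ'd]
  -- the twist
  have hD0 : Dp J' ≠ 0 := by
    rw [Dp, Finset.prod_ne_zero_iff]
    exact fun q hq => (hqp q (hJ'S hq)).ne_zero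
  have hLOC' := hLOC g W F L f f₁ θ S J' 𝔮 r P hg hc hsq hf₁ hS hW hcon hJ'S
  show SelLe (Nat.card (LJ Λ J)) (f.scaleRoots ((Dp J' : ℕ) : 𝓞 F))
  obtain ⟨D, hDD⟩ : ∃ D : ℕ, D = Dp J' := ⟨_, rfl⟩
  rw [← hDD] at hD0 hLOC' ⊢
  have hD0F : (D : F) ≠ 0 := Nat.cast_ne_zero.2 hD0
  have hm : f.Monic := hc.mon
  have hirr : Irreducible (fF f) := Pool.Agent.N438.PF.irrF hc
  have hmD : (f.scaleRoots (D : 𝓞 F)).Monic := (monic_scaleRoots_iff (D : 𝓞 F)).2 hm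
  have hirrD : Irreducible (fF (f.scaleRoots (D : 𝓞 F))) := by
    rw [Pool.Agent.N170.PF.fF_scale hm]
    exact Pool.Agent.N170.PF.irr_scale hD0F hirr
  obtain ⟨Θ, hΘ⟩ : ∃ Θ : L, Θ = (D : L) * θ := ⟨_, rfl⟩
  have hcomp : ∀ h : F[X], aeval θ (h.comp (C (D : F) * X)) = aeval Θ h := by
    intro h
    rw [aeval_comp, map_mul, aeval_C, aeval_X, hΘ, map_natCast]
  have hroot : aeval Θ (fF (f.scaleRoots (D : 𝓞 F))) = 0 := by
    have e1 := scaleRoots_eval₂_mul (p := fF f) (algebraMap F L) θ (D : F)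
    have e2 : eval₂ (algebraMap F L) θ (fF f) = 0 := by
      rw [← aeval_def]
      exact hc.root
    rw [e2, mul_zero, map_natCast] at e1
    rw [Pool.Agent.N170.PF.fF_scale hm, aeval_def, hΘ]
    exact e1
  haveI : FiniteDimensional F L := Module.finite_of_finrank_pos (by rw [hc.rank]; omega)
  have hmF' : (fF (f.scaleRoots (D : 𝓞 F))).Monic := hmD.map _
  have hdF' : (fF (f.scaleRoots (D : 𝓞 F))).natDegree = Module.finrank F L := by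
    rw [fF, hmD.natDegree_map, natDegree_scaleRoots, hc.deg, hc.rank]
  obtain ⟨e, he⟩ := ex_equiv hirrD hmF' hdF' hroot
  have hdvd : ∀ p : F[X], fF (f.scaleRoots (D : 𝓞 F)) ∣ p ↔ aeval Θ p = 0 := by
    intro p
    rw [← AdjoinRoot.mk_eq_zero, ← he, map_eq_zero_iff _ e.injective]
  rw [← hΘ] at hLOC'
  have hsqf : ∀ p : F[X], IsSquare (aeval Θ p) →
      ∃ s : F[X], fF (f.scaleRoots (D : 𝓞 F)) ∣ p - s ^ 2 := by
    rintro p ⟨y, hy⟩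
    obtain ⟨z, hz⟩ := e.surjective y
    obtain ⟨s, rfl⟩ := AdjoinRoot.mk_surjective z
    rw [he] at hz
    refine ⟨s, ?_⟩
    rw [hdvd, map_sub, map_pow, sub_eq_zero, hz, hy, sq]
  have hnormeq : ∀ p : F[X], Algebra.norm F
      (AdjoinRoot.mk (fF (f.scaleRoots (D : 𝓞 F))) p) = Algebra.norm F (aeval Θ p) := by
    intro p
    rw [← he, Algebra.norm_eq_of_algEquiv]
  -- from the Selmer group to the relaxed Selmer group
  have hconv : ∀ h : F[X], SelE (f.scaleRoots (D : 𝓞 F)) h → InM f θ S 𝔔 (aeval Θ h) ∧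
      (∀ q ∈ J, (ψ (aeval Θ h) q).2 = 0) ∧ ∀ q ∉ J, (ψ (aeval Θ h) q).1 = 0 := by
    rintro h ⟨hcop, hnorm, hfin, hreal⟩
    have hne : aeval Θ h ≠ 0 := by
      intro h0
      obtain ⟨u, v, huv⟩ := hcop
      have := congrArg (aeval Θ) huv
      rw [map_add, map_mul, map_mul, hroot, h0, mul_zero, mul_zero, add_zero, map_one] at this
      exact zero_ne_one this
    rw [hnormeq] at hnorm
    obtain ⟨k1, k2, k3, k4⟩ := hLOC' h hne hnorm hfin hreal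
    refine ⟨?_, ?_, ?_⟩
    · refine ⟨hne, hnorm, fun 𝔓 h𝔓 => ?_, h.comp (C (D : F) * X), hcomp h, k3, k4⟩
      refine k1 𝔓 fun q hq hO => ?_
      rcases (hpq q (hJ'S hq)).2.2.2.2.2 𝔓 hO with rfl | rfl
      · exact (hpq q (hJ'S hq)).2.2.1.ne
      · exact absurd rfl (h𝔓 q (hJ'S hq))
    · intro q hq
      rw [hsnd]
      exact k2 q ((hJJ q).2 hq) _ (hpq q q.2).2.1 (hpq q q.2).2.2.2.1
    · intro q hq
      rw [hfst]
      refine k1 (𝔔 q) fun q' hq' hO => ?_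
      have : q' = (q : ℕ) := huniq q' (hJ'S hq') q q.2 _ hO (hpq q q.2).2.1
      rw [this] at hq'
      exact absurd ((hJJ q).1 hq') hq
  -- the conclusion
  let N := {l : S → ZMod 2 × ZMod 2 // l ∈ Λ ∧ (∀ q ∈ J, (l q).2 = 0) ∧ ∀ q ∉ J, (l q).1 = 0}
  haveI : Finite N := Subtype.finite
  let ε : N ≃ Fin (Nat.card (LJ Λ J)) := Finite.equivFin N
  have hch : ∀ l : N, ∃ p : F[X], InP F S 𝔔 (aeval Θ p) ∧ ψ (aeval Θ p) = l.1 := by
    intro l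
    obtain ⟨α, hα, hl⟩ := hΛM l.2.1
    obtain ⟨z, hz⟩ := e.surjective α
    obtain ⟨p, rfl⟩ := AdjoinRoot.mk_surjective z
    rw [he] at hz
    exact ⟨p, by rw [hz]; exact hα, by rw [hz]; exact hl⟩
  choose pl hpl1 hpl2 using hch
  refine ⟨fun i => pl (ε.symm i), ?_, ?_⟩
  · intro i
    rw [isCoprime_comm, hirrD.coprime_iff_not_dvd, hdvd]
    exact (hpl1 (ε.symm i)).ne
  · intro h hh
    obtain ⟨m1, m2, m3⟩ := hconv h hh
    obtain ⟨l₀, hl₀⟩ : ∃ l₀ : N, l₀.1 = ψ (aeval Θ h) :=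
      ⟨⟨ψ (aeval Θ h), hIΛ ⟨_, m1, rfl⟩, m2, m3⟩, rfl⟩
    refine ⟨ε l₀, hsqf _ ?_⟩
    rw [map_mul]
    show IsSquare (aeval Θ h * aeval Θ (pl (ε.symm (ε l₀))))
    rw [Equiv.symm_apply_apply]
    exact hinj2 _ _ (hMP _ m1) (hpl1 _) (by rw [hpl2, hl₀])

end Pool.Agent.H18G.COREG
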