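import Pool.Agent.H18G.Stm

/-!
Project JG: stub DSJG (helper19), adapted from `Pool.Agent.H68K.PR.Cgr` (`dsj`).
-/

set_option autoImplicit false
set_option linter.unusedVariables false

open Polynomial NumberField

namespace Pool.Agent.H18G.DSJG

open Pool.Agent.N783.PF

variable {F : Type} [Field F] [NumberField F]

theorem natDegree_der {g : ℕ} {f : (𝓞 F)[X]} (hf : f.natDegree = 2 * g + 1) :
    (derivative f).natDegree = 2 * g := by
  rw [Polynomial.natDegree_derivative, hf, Nat.add_sub_cancel]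

theorem der_scaleRoots (f : (𝓞 F)[X]) (r : 𝓞 F) :
    derivative (f.scaleRoots r) = (derivative f).scaleRoots r := by
  refine Polynomial.ext fun i => ?_
  rw [coeff_derivative, coeff_scaleRoots, coeff_scaleRoots, coeff_derivative,
    Polynomial.natDegree_derivative]
  have : f.natDegree - (i + 1) = f.natDegree - 1 - i := by omega
  rw [this]; ring

theorem dsc_scaleRoots {g : ℕ} {f : (𝓞 F)[X]} (hf : f.natDegree = 2 * g + 1) (r : 𝓞 F) :
    dsc g (f.scaleRoots r) = r ^ ((2 * g + 1) * (2 * g)) * dsc g f := by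
  have h3 := resultant_scaleRoots f (derivative f) r
  rw [natDegree_scaleRoots, natDegree_scaleRoots, natDegree_der hf, hf] at h3
  unfold dsc
  rw [der_scaleRoots, h3]

theorem cg_pow_mem {𝔭 : Ideal (𝓞 F)} (hp : 𝔭.IsPrime) {a b : 𝓞 F} (ha : a ∉ 𝔭)
    (h : a * b ∈ 𝔭 ^ 2) : b ∈ 𝔭 ^ 2 := by
  have := hp
  rcases Ideal.IsPrime.mul_mem_pow 𝔭 h with h | h
  · exact absurd h ha
  · exact h

/-- There is a prime ideal which contains the prime `l`. -/
theorem cg_prime (l : ℕ) (hl : l.Prime) : ∃ 𝔭 : Ideal (𝓞 F), 𝔭.IsPrime ∧ 𝔭 ≠ ⊥ ∧ (l : 𝓞 F) ∈ 𝔭 := by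
  have h1 : Ideal.span {(l : 𝓞 F)} ≠ ⊤ := by
    intro h
    rw [Ideal.span_singleton_eq_top] at h
    have h2 := h.map (Algebra.norm ℤ)
    have h3 : Algebra.norm ℤ (l : 𝓞 F) = (l : ℤ) ^ Module.finrank ℤ (𝓞 F) := by
      have := Algebra.norm_algebraMap_of_basis (RingOfIntegers.basis F) (l : ℤ)
      rw [Module.finrank_eq_card_basis (RingOfIntegers.basis F), ← this]
      simp
    rw [h3] at h2
    have h4 : Module.finrank ℤ (𝓞 F) ≠ 0 := by
      rw [RingOfIntegers.rank]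
      exact Module.finrank_pos.ne'
    have h5 : IsUnit (l : ℤ) := (isUnit_pow_iff h4).1 h2
    have h6 := Int.isUnit_iff.1 h5
    have := hl.one_lt
    omega
  obtain ⟨𝔭, h𝔭, hle⟩ := Ideal.exists_le_maximal _ h1
  refine ⟨𝔭, h𝔭.isPrime, ?_, hle (Ideal.mem_span_singleton_self _)⟩
  rintro rfl
  have := hle (Ideal.mem_span_singleton_self _)
  rw [Ideal.mem_bot] at this
  exact hl.ne_zero (by exact_mod_cast this)

theorem dsj_le {g : ℕ} {f f' : (𝓞 F)[X]} {d d' : ℕ} (hg : 1 ≤ g) (hd : 0 < d) (hd' : 0 < d')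
    (hf : f.natDegree = 2 * g + 1) (hf' : f'.natDegree = 2 * g + 1) (hp' : SqF g f')
    (h : f.scaleRoots (d : 𝓞 F) = f'.scaleRoots (d' : 𝓞 F)) (l : ℕ) (hl : l.Prime) :
    d.factorization l ≤ d'.factorization l := by
  by_contra hlt
  push Not at hlt
  obtain ⟨𝔭, h1, h2, h3⟩ := cg_prime (F := F) l hl
  refine hp' 𝔭 h1 h2 ?_
  set j := d'.factorization l with hj
  set i := d.factorization l with hi
  have e1 : d' = l ^ j * (d' / l ^ j) := (Nat.ordProj_mul_ordCompl_eq_self d' l).symm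
  have e2 : l ^ (j + 1) ∣ d := (Nat.pow_dvd_pow l hlt).trans (Nat.ordProj_dvd d l)
  obtain ⟨x, hx⟩ := e2
  set y := d' / l ^ j with hy
  have hcop : Nat.Coprime l y := Nat.coprime_ordCompl hl hd'.ne'
  have hyp : (y : 𝓞 F) ∉ 𝔭 := by
    intro hy'
    have h4 : IsCoprime (l : ℤ) (y : ℤ) := Nat.isCoprime_iff_coprime.2 hcop
    obtain ⟨s, t, hst⟩ := h4
    have h5 : (s : 𝓞 F) * l + t * y = 1 := by exact_mod_cast congrArg (Int.cast : ℤ → 𝓞 F) hst
    refine h1.ne_top ((Ideal.eq_top_iff_one _).2 ?_)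
    rw [← h5]
    exact add_mem (Ideal.mul_mem_left _ _ h3) (Ideal.mul_mem_left _ _ hy')
  set m : ℕ := (2 * g + 1) * (2 * g) with hm
  have hm2 : 2 ≤ m := by
    rw [hm]
    nlinarith
  have hdisc : (d : 𝓞 F) ^ m * dsc g f = (d' : 𝓞 F) ^ m * dsc g f' := by
    rw [hm, ← dsc_scaleRoots hf, ← dsc_scaleRoots hf', h]
  have hl0 : (l : 𝓞 F) ≠ 0 := by exact_mod_cast hl.ne_zero
  have e3 : (y : 𝓞 F) ^ m * dsc g f' = (l : 𝓞 F) ^ m * ((x : 𝓞 F) ^ m * dsc g f) := by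
    refine mul_left_cancel₀ (pow_ne_zero (j * m) hl0) ?_
    have c1 : (d : 𝓞 F) = (l : 𝓞 F) ^ (j + 1) * x := by rw [hx]; push_cast; ring
    have c2 : (d' : 𝓞 F) = (l : 𝓞 F) ^ j * y := by
      conv_lhs => rw [e1]
      push_cast
      ring
    rw [c1, c2, mul_pow, mul_pow, ← pow_mul, ← pow_mul] at hdisc
    calc (l : 𝓞 F) ^ (j * m) * ((y : 𝓞 F) ^ m * dsc g f')
        = (l : 𝓞 F) ^ (j * m) * (y : 𝓞 F) ^ m * dsc g f' := by ring
      _ = (l : 𝓞 F) ^ ((j + 1) * m) * (x : 𝓞 F) ^ m * dsc g f := hdisc.symm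
      _ = _ := by rw [add_mul, one_mul, pow_add]; ring
  refine cg_pow_mem h1 (a := (y : 𝓞 F) ^ m) (fun h => hyp (h1.mem_of_pow_mem _ h)) ?_
  rw [e3]
  refine Ideal.mul_mem_right _ _ ?_
  exact Ideal.pow_le_pow_right hm2 (Ideal.pow_mem_pow h3 m)

/-- DSJG. -/
theorem t : Pool.Agent.H18G.S_DSJG := by
  intro g F _ _ f f' d d' hg hd hd' hm hm' hf hf' hs hs' h
  have h1 : d = d' := by
    refine Nat.eq_of_factorization_eq hd.ne' hd'.ne' fun l => ?_
    by_cases hl : l.Prime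
    · exact le_antisymm (dsj_le hg hd hd' hf hf' hs' h l hl)
        (dsj_le hg hd' hd hf' hf hs h.symm l hl)
    · rw [Nat.factorization_eq_zero_of_not_prime _ hl, Nat.factorization_eq_zero_of_not_prime _ hl]
  subst h1
  refine ⟨rfl, ?_⟩
  have hd0 : (d : 𝓞 F) ≠ 0 := by exact_mod_cast hd.ne'
  ext i
  have h2 := congrArg (fun q => coeff q i) h
  simp only [coeff_scaleRoots] at h2
  rw [hf, hf'] at h2
  exact congrArg _ (mul_right_cancel₀ (pow_ne_zero _ hd0) h2)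

end Pool.Agent.H18G.DSJG
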