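import Pool.Agent.H18G.Stm
import Pool.Agent.H18PR.Exv

set_option autoImplicit false
set_option linter.all false

open Polynomial NumberField
open scoped Classical

namespace Pool.Agent.H18G.EXVG

open Pool.Agent.N783.PF
open Pool.Agent.H18PR (exists_SRV)

/-- EXVG -/
theorem t : Pool.Agent.H18G.S_EXVG := by
  intro g F _ _ hg W i m η hη
  obtain ⟨S, R, Q, hdis, hS2, hm, h3, hQ, h4, h5, h6⟩ :=
    exists_SRV (W + (2 * g + 1) + (discr F).natAbs) i m hη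
  have hdata : ∀ q : ℕ, ∃ (𝔮 : Ideal (𝓞 F)) (h A : (𝓞 F)[X]), q ∈ S ∪ R →
    (∀ 𝔭 : Ideal (𝓞 F), 𝔭.IsPrime → (q : 𝓞 F) ∉ 𝔭 ^ 2) ∧
    𝔮.IsPrime ∧ (q : 𝓞 F) ∈ 𝔮 ∧
    h.Monic ∧ h.natDegree = 2 * g ∧ Irreducible (rd 𝔮 h) ∧
    A.Monic ∧ A.natDegree = 2 * g + 1 ∧ A.coeff (2 * g) = 0 ∧
    Cg 𝔮 A (X * h) ∧
    ∀ 𝔭 : Ideal (𝓞 F), 𝔭.IsPrime → (q : 𝓞 F) ∈ 𝔭 → 𝔭 ≠ 𝔮 → Irreducible (rd 𝔭 A) := by
    intro q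
    by_cases hq : q ∈ S ∪ R
    · obtain ⟨h1, h2, h3⟩ := hS2 q hq
      obtain ⟨𝔮, h, A, hh⟩ := Pool.Agent.N710.PF.exists_data F g q hg h1 (by omega) (by omega)
      exact ⟨𝔮, h, A, fun _ => hh⟩
    · exact ⟨⊥, 0, 0, fun h => absurd h hq⟩
  choose 𝔮 h A hh using hdata
  refine ⟨S, R, 𝔮, h, A, Q, hdis, fun q hq => ?_, hm, h3, hQ, h4, h5, h6⟩
  obtain ⟨h1, h2, h3⟩ := hS2 q hq
  exact ⟨h1, by omega, by omega, h3, hh q hq⟩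

end Pool.Agent.H18G.EXVG
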