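import Pool.Agent.H68K.PR.StmV
import Pool.Agent.H33PR.Badt3
import Pool.Agent.N783.PF.Loc
import Pool.Agent.N874.Jac.Def

/-!
# Project JG: the law of Poonen and Rains for the Jacobians of all genera (upper bounds).
# Statements of the parts.

`f` is monic of degree `2 g + 1` over `𝓞 F`, `L = F(θ)`. The definitions are those of the projects PF
(`N783/PF/Def.lean`, `Lat.lean`, `Loc.lean`) and PR (`H68K/PR/StmP.lean`, `StmQ.lean`, `StmV.lean`).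

Idea. `M⁺` (`InP`) is the group of the classes `α` of square norm in `L* / L*²` with even valuations
outside the big primes over the primes in `S`, without any condition at 2 and infinity. `K` is the
subgroup of the classes which are squares over the completions at the primes over 2 and at the real
places (`Str2`). `|M⁺| ≥ 2 ^ (|S| + a)`, `|M⁺ / K| ≤ 2 ^ (2 a)`, `a = r_L - r_F`, and `K` is orthogonal to
`M⁺`. So there is a maximal isotropic group `Λ` between the image of the relaxed Selmer group and the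
image of `M⁺` in `(ℤ/2 × ℤ/2) ^ S` (`S_LIN5`), and the law (`S_LAW4`) holds for `Λ`.
-/

set_option autoImplicit false
set_option linter.all false

open Polynomial IsDedekindDomain Matrix NumberField WithZero
open scoped Classical

namespace Pool.Agent.H18G

open Pool.Agent.N352.PJ (Mt Typ dd)
open Pool.Agent.N874.PP (Ev Sq1 U0)
open Pool.Agent.N783.PQ (LocIm)
open Pool.Agent.N874.JM (LocF)
open Pool.Agent.N783.PF
open Pool.Agent.H68K.PR (LJ pr2 pr2par)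

/-! ### Linear algebra over the field with two elements -/

/-- LIN5. Let `q(l) = ∑ l.1 * l.2`. `K` is totally singular and orthogonal to `M`, `I` is totally singular
in `M`. Proof: `K^⊥` contains `M` and has `2 ^ (2 n) / |K| ≤ 2 ^ (2 n + 2 a) / |M| ≤ |M|` elements, so
`M = K^⊥`. Take a maximal totally singular `Λ ⊇ I + K`; it is contained in `K^⊥ = M`. If `|Λ| < 2 ^ n`
then `q = 1` on `Λ^⊥ \ Λ` (maximality), so `∑_x (-1) ^ q(x) = ∑_{x ∈ Λ^⊥} (-1) ^ q(x) =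
|Λ| - (|Λ^⊥| - |Λ|) ≤ 0`, as `|Λ^⊥| ≥ 4 |Λ|`; but this sum is `2 ^ n > 0` (product over `ι`). -/
def S_LIN5 : Prop := ∀ (ι : Type) [Fintype ι] (a : ℕ) (M K I : AddSubgroup (ι → ZMod 2 × ZMod 2)),
  K ≤ M → I ≤ M → (∀ k ∈ K, ∑ q, (k q).1 * (k q).2 = 0) → (∀ l ∈ I, ∑ q, (l q).1 * (l q).2 = 0) →
  (∀ k ∈ K, ∀ l ∈ M, ∑ q, ((k q).1 * (l q).2 + (k q).2 * (l q).1) = 0) →
  2 ^ (Fintype.card ι + a) ≤ Nat.card M → Nat.card M ≤ 2 ^ (2 * a) * Nat.card K →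
  ∃ Λ : AddSubgroup (ι → ZMod 2 × ZMod 2), I ≤ Λ ∧ Λ ≤ M ∧
    (∀ l ∈ Λ, ∑ q, (l q).1 * (l q).2 = 0) ∧ 2 ^ Fintype.card ι ≤ Nat.card Λ

/-! ### Local squares at 2 and infinity -/

/-- `h` is a square modulo `f` over the extension `E` of `M`. -/
def LocS {M : Type} (E : Type) [Field M] [Field E] [Algebra M E] (f h : M[X]) : Prop :=
  ∃ s : E[X], f.map (algebraMap M E) ∣ h.map (algebraMap M E) - s ^ 2

/-- `h(θ)` is a square over the completions at the primes over 2 and over the real numbers. -/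
structure Str2 {F : Type} [Field F] [NumberField F] (f : (𝓞 F)[X]) (h : F[X]) : Prop where
  two : ∀ w : HeightOneSpectrum (𝓞 F), (2 : 𝓞 F) ∈ w.asIdeal → LocS (w.adicCompletion F) (fF f) h
  real : ∀ σ : F →+* ℝ, ∃ s : ℝ[X], (fF f).map σ ∣ h.map σ - s ^ 2

/-- The same for an element of `L`. -/
def IsStr {F L : Type} [Field F] [NumberField F] [Field L] [NumberField L] [Algebra F L]
    (f : (𝓞 F)[X]) (θ α : L) : Prop := ∃ h : F[X], aeval θ h = α ∧ Str2 f h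

/-- The group `M⁺`. -/
structure InP (F : Type) {L : Type} [Field F] [NumberField F] [Field L] [NumberField L] [Algebra F L]
    (S : Finset ℕ) (𝔔 : ℕ → HeightOneSpectrum (𝓞 L)) (α : L) : Prop where
  ne : α ≠ 0
  nsq : IsSquare (Algebra.norm F α)
  ev : ∀ 𝔓 : HeightOneSpectrum (𝓞 L), (∀ q ∈ S, 𝔓 ≠ 𝔔 q) → Ev 𝔓 α

/-- RNQG: the big prime over `𝔮 q` has square norm. (As `S_RNQ`, file `H18PR/Rnq.lean`; the residue
degree is `2 g`.) -/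
def S_RNQG : Prop := ∀ (g W : ℕ) (F L : Type) [Field F] [NumberField F] [Field L] [NumberField L]
  [Algebra F L] (f : (𝓞 F)[X]) (θ : L) (S : Finset ℕ) (𝔮 : ℕ → Ideal (𝓞 F))
  (r P : ℕ → (𝓞 F)[X]), 1 ≤ g → IsGen g f θ → SqF g f → GoodS g W S 𝔮 r P →
  ∀ q ∈ S, Cg (sp F q) f (P q) → ∀ 𝔔 : HeightOneSpectrum (𝓞 L), Ov (𝔮 q) 𝔔 →
  𝔔.valuation L θ = 1 → ∃ I : Ideal (𝓞 F), Ideal.relNorm (𝓞 F) 𝔔.asIdeal = I ^ 2

/-- TWOX: the index of the local squares at a prime `w` over 2 (`w ^ e` exactly divides 2) in the classes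
of square norm. Part (a) of the proof of `S_TWOI` (files `H10PR`): `𝔚 = w O_L` is prime with residue field
of size `q ^ (2 g + 1)`, `q = N w`; the valuation of `α` is even; a unit which is a square modulo
`𝔚 ^ (2 e + 1)` is a local square; the units modulo `𝔚 ^ (2 e + 1)` modulo squares are as many as the
elements of order two, `2 q ^ ((2 g + 1) e)`, for `F` there are `2 q ^ e`, and the norm is surjective. -/
def S_TWOX : Prop := ∀ (g : ℕ) (F L : Type) [Field F] [NumberField F] [Field L] [NumberField L]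
  [Algebra F L] (f : (𝓞 F)[X]) (θ : L), 1 ≤ g → IsGen g f θ →
  ∀ w : HeightOneSpectrum (𝓞 F), (2 : 𝓞 F) ∈ w.asIdeal → Irreducible (rd w.asIdeal f) →
  ∀ e : ℕ, w.valuation F (2 : F) = WithZero.exp (-(e : ℤ)) →
  ∃ C : Finset L, C.card ≤ Ideal.absNorm w.asIdeal ^ (2 * g * e) ∧
    (∀ c ∈ C, c ≠ 0 ∧ IsSquare (Algebra.norm F c)) ∧
    ∀ α : L, α ≠ 0 → IsSquare (Algebra.norm F α) → ∃ c ∈ C, ∀ h : F[X], aeval θ h = α * c →
      LocS (w.adicCompletion F) (fF f) h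

/-- REALX: the signs at the real places of `L`, and the number of the infinite places of `L`. At a real
place `σ` of `F` with `s` real roots of `σ f` there are at most `2 ^ (s - 1)` classes of square norm, and
`2 r_L = 2 r_F + 2 g [F : ℚ] + ∑ (s - 1)`. (Compare `H18PR/Real.lean`.) -/
def S_REALX : Prop := ∀ (g : ℕ) (F L : Type) [Field F] [NumberField F] [Field L] [NumberField L]
  [Algebra F L] (f : (𝓞 F)[X]) (θ : L), IsGen g f θ →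
  ∃ C : (F →+* ℝ) → Finset L,
    (∏ σ : F →+* ℝ, (C σ).card) * 2 ^ (2 * g * Module.finrank ℚ F +
        2 * Fintype.card (InfinitePlace F)) ≤ 2 ^ (2 * Fintype.card (InfinitePlace L)) ∧
    ∀ σ : F →+* ℝ, (∀ c ∈ C σ, c ≠ 0 ∧ IsSquare (Algebra.norm F c)) ∧
    ∀ α : L, α ≠ 0 → IsSquare (Algebra.norm F α) → ∃ c ∈ C σ, ∀ h : F[X], aeval θ h = α * c →
      ∃ s : ℝ[X], (fF f).map σ ∣ h.map σ - s ^ 2

/-- BIGG: the orders. From `Pool.Agent.H33PR.uni` (`S_UNI`), `S_RNQG`, `S_TWOX`, `S_REALX`, compare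
`H68K/PR/Big.lean`. For `C`: group the `α` with `InP` by the tuple of their classes at the places over 2
and infinity and choose one `β` for every tuple; if `α c` and `β c` are local squares, so is `α β`. -/
def S_BIGG : Prop := ∀ (g W : ℕ) (F L : Type) [Field F] [NumberField F] [Field L] [NumberField L]
  [Algebra F L] (f f₁ : (𝓞 F)[X]) (θ : L) (S : Finset ℕ) (𝔮 : ℕ → Ideal (𝓞 F))
  (r P : ℕ → (𝓞 F)[X]), 1 ≤ g → IsGen g f θ → SqF g f → GoodF g W f₁ → GoodS g W S 𝔮 r P →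
  Cg (sp F W) f f₁ → (∀ q ∈ S, Cg (sp F q) f (P q)) →
  ∀ 𝔔 : ℕ → HeightOneSpectrum (𝓞 L), (∀ q ∈ S, Ov (𝔮 q) (𝔔 q) ∧ (𝔔 q).valuation L θ = 1) →
  ∃ (a : ℕ) (A C : Finset L), 2 ^ (S.card + a) ≤ A.card ∧ (∀ α ∈ A, InP F S 𝔔 α) ∧
    (∀ α ∈ A, ∀ β ∈ A, IsSquare (α * β) → α = β) ∧ C.card ≤ 2 ^ (2 * a) ∧
    ∀ α : L, InP F S 𝔔 α → ∃ β ∈ C, InP F S 𝔔 β ∧ IsStr f θ (α * β)

/-! ### The reciprocity law -/

/-- The number of the `q ∈ S` with nontrivial local invariant. -/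
noncomputable def cnt {F L : Type} [Field F] [NumberField F] [Field L] [NumberField L] [Algebra F L]
    (S : Finset ℕ) (𝔔 : ℕ → HeightOneSpectrum (𝓞 L)) (θ α : L) : ℕ :=
  (S.filter fun q => ¬ Ev (𝔔 q) α ∧ ¬ Sq1 (𝔔 q) (α * ((q : L) * θ))).card

/-- REC2: the relative form of `S_REC` (proof: `N783/PF/Rec2.lean`, with the forms of `h` and `h * k`
instead of those of `1` and `h`; at 2 and at the real places multiplication by the local square root of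
`k` is an isometry). -/
def S_REC2 : Prop := ∀ (g W : ℕ) (F L : Type) [Field F] [NumberField F] [Field L] [NumberField L]
  [Algebra F L] (f : (𝓞 F)[X]) (θ : L) (S : Finset ℕ) (𝔮 : ℕ → Ideal (𝓞 F))
  (r P : ℕ → (𝓞 F)[X]), 1 ≤ g → IsGen g f θ → SqF g f → GoodS g W S 𝔮 r P →
  (∀ q ∈ S, Cg (sp F q) f (P q)) →
  ∀ 𝔔 : ℕ → HeightOneSpectrum (𝓞 L), (∀ q ∈ S, Ov (𝔮 q) (𝔔 q) ∧ (𝔔 q).valuation L θ = 1) →
  ∀ h k : F[X], InP F S 𝔔 (aeval θ h) → InP F S 𝔔 (aeval θ k) → Str2 f k →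
    (Even (cnt (F := F) S 𝔔 θ (aeval θ (h * k))) ↔ Even (cnt (F := F) S 𝔔 θ (aeval θ h)))

/-! ### The core -/

section fld

variable {F : Type} [Field F] [NumberField F]

/-- The elements of the 2-Selmer group of the Jacobian of `y ^ 2 = f(x)`, in explicit form. -/
structure SelE (f : (𝓞 F)[X]) (h : F[X]) : Prop where
  cop : IsCoprime h (fF f)
  nsq : IsSquare (Algebra.norm F (AdjoinRoot.mk (fF f) h))
  fin : ∀ w : HeightOneSpectrum (𝓞 F), LocF (w.adicCompletion F) (fF f) h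
  real : ∀ σ : F →+* ℝ, LocIm ℝ ((fF f).map σ) (h.map σ)

/-- The explicit 2-Selmer group has at most `n` elements. -/
def SelLe (n : ℕ) (f : (𝓞 F)[X]) : Prop :=
  ∃ r : Fin n → F[X], (∀ i, IsCoprime (r i) (fF f)) ∧
    ∀ h : F[X], SelE f h → ∃ (i : Fin n) (s : F[X]), fF f ∣ h * r i - s ^ 2

/-- The twist by the product of the elements of `J`. -/
noncomputable abbrev twf (J : Finset ℕ) (f : (𝓞 F)[X]) : (𝓞 F)[X] :=
  f.scaleRoots ((Dp J : ℕ) : 𝓞 F)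

end fld

/-- COREG: as `S_CORE3` (proof: `H42PR/Core3.lean`). -/
def S_COREG : Prop := ∀ (g W : ℕ) (F L : Type) [Field F] [NumberField F] [Field L]
  [NumberField L] [Algebra F L] (f f₁ : (𝓞 F)[X]) (θ : L) (S : Finset ℕ) (𝔮 : ℕ → Ideal (𝓞 F))
  (r P : ℕ → (𝓞 F)[X]), 1 ≤ g → IsGen g f θ → SqF g f → GoodF g W f₁ →
  GoodS g W S 𝔮 r P → Cg (sp F W) f f₁ → (∀ q ∈ S, Cg (sp F q) f (P q)) →
  (∀ α : L, α ≠ 0 → IsSquare (Algebra.norm F α) → (∀ 𝔓 : HeightOneSpectrum (𝓞 L), Ev 𝔓 α) →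
    (∀ q ∈ S, ∀ 𝔓 : HeightOneSpectrum (𝓞 L), Ov (𝔮 q) 𝔓 → Sq1 𝔓 α) → IsSquare α) →
  ∃ Λ : AddSubgroup (S → ZMod 2 × ZMod 2), (∀ l ∈ Λ, ∑ q, (l q).1 * (l q).2 = 0) ∧
    2 ^ S.card ≤ Nat.card Λ ∧
    (∀ J : Finset S, SelLe (Nat.card (LJ Λ J)) (twf (J.map (Function.Embedding.subtype _)) f)) ∧
    ∀ (J : Finset S), ∀ l ∈ LJ Λ J, l ≠ 0 → ∃ α : L, α ≠ 0 ∧ IsSquare (Algebra.norm F α) ∧
      ¬ IsSquare α ∧
      (∀ 𝔓 : HeightOneSpectrum (𝓞 L), (∀ q : S, q ∈ J → l q ≠ 0 → Ov (𝔮 q) 𝔓 →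
        𝔓.valuation L θ ≠ 1) → Ev 𝔓 α) ∧
      (∀ q : S, l q = 0 → ∀ 𝔓 : HeightOneSpectrum (𝓞 L), Ov (𝔮 q) 𝔓 → Sq1 𝔓 α) ∧
      ∀ q : S, q ∉ J → l q ≠ 0 → ∃ 𝔓 : HeightOneSpectrum (𝓞 L), Ov (𝔮 q) 𝔓 ∧ ¬ Sq1 𝔓 α

/-! ### Counting -/

/-- LBTG: as `S_LBT` (proof: `H68K/PR/LBT.lean`), for all `g`, with the set of bad polynomials of
`H33PR/Badt3.lean` (`badt_g`). -/
def S_LBTG : Prop := ∀ (g : ℕ) (F : Type) [Field F] [NumberField F], 1 ≤ g → ∃ κ β : ℕ,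
  ∀ (L : Type) [Field L] [NumberField L] [Algebra F L] (f : (𝓞 F)[X]) (θ : L) (B N W l : ℕ)
  (S Q Z U : Finset ℕ) (𝔮 : ℕ → Ideal (𝓞 F)) (h P : ℕ → (𝓞 F)[X]), κ ≤ W → GoodS g W S 𝔮 h P →
  IsGen g f θ → SqF g f → Ht g B f → 2 ^ (κ + β * l) * B ≤ 4 ^ N →
  (∀ q ∈ S, Cg (sp F q) f (P q)) → Q ⊆ S → Z ⊆ S \ Q → U ⊆ S \ Q → ∏ q ∈ Q, q ≤ 2 ^ l →
  ∀ α : L, α ≠ 0 → IsSquare (Algebra.norm F α) → ¬ IsSquare α →
  (∀ 𝔓 : HeightOneSpectrum (𝓞 L), (∀ q ∈ Q, Ov (𝔮 q) 𝔓 → 𝔓.valuation L θ ≠ 1) → Ev 𝔓 α) →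
  (∀ q ∈ Z, ∀ 𝔓 : HeightOneSpectrum (𝓞 L), Ov (𝔮 q) 𝔓 → Sq1 𝔓 α) →
  (∀ q ∈ U, ∃ 𝔓 : HeightOneSpectrum (𝓞 L), Ov (𝔮 q) 𝔓 ∧ ¬ Sq1 𝔓 α) →
  Pool.Agent.H33PR.LBT g N (κ + β * l) (S \ Q) Z U 𝔮 P f

section fld

variable {F : Type} [Field F] [NumberField F]

/-- The base family. -/
structure Base (g W : ℕ) (f₁ : (𝓞 F)[X]) (T : Finset ℕ) (P : ℕ → (𝓞 F)[X]) (f : (𝓞 F)[X]) :
    Prop where
  mon : f.Monic
  deg : f.natDegree = 2 * g + 1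
  tr : f.coeff (2 * g) = 0
  one : Cg (sp F W) f f₁
  con : ∀ q ∈ T, Cg (sp F q) f (P q)
  sqf : SqF g f

/-- The law for the twists by the products of `i` primes in `S`, and for the twists by such products
times one element of `R`: `2 ^ e J` bounds the order of the 2-Selmer group of the twist by `J`. -/
def Law2 (S R : Finset ℕ) (m₀ m : ℕ) (ε : ℝ) (f : (𝓞 F)[X]) : Prop :=
  ∃ e : Finset ℕ → ℕ, (∀ J ⊆ S ∪ R, SelLe (2 ^ e J) (twf J f)) ∧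
    ∀ i, m₀ ≤ i → i ≤ m → ∀ k : ℕ,
      |(((S.powersetCard i).filter fun J => e J = k).card : ℝ) / (S.card.choose i : ℝ) -
        pr2par (e ∅ + i) k| ≤ ε ∧
      ∀ r ∈ R, |(((S.powersetCard i).filter fun J => e (insert r J) = k).card : ℝ) /
        (S.card.choose i : ℝ) - pr2par (e ∅ + 1 + i) k| ≤ ε

/-- The height of `f` is at most `Y`. -/
structure HtR (g : ℕ) (Y : ℝ) (f : (𝓞 F)[X]) : Prop where
  mon : f.Monic
  deg : f.natDegree = 2 * g + 1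
  tr : f.coeff (2 * g) = 0
  ht : ∀ j ≤ 2 * g, Bd (f.coeff j : F) (Y ^ (2 * g + 1 - j))

/-- The family of the twists. -/
def Fml (g W : ℕ) (f₁ : (𝓞 F)[X]) (T : Finset ℕ) (P : ℕ → (𝓞 F)[X])
    (𝒥 : Finset (Finset ℕ)) : Set (𝓞 F)[X] :=
  {h | ∃ J ∈ 𝒥, ∃ f, Base g W f₁ T P f ∧ h = twf J f}

end fld

/-- BALG: as `S_BAL6` (files `H93PR/Count6.lean`, `Count6a.lean`), for all `g`, without units. -/
def S_BALG : Prop := ∀ (g : ℕ) (F : Type) [Field F] [NumberField F], 1 ≤ g →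
  ∃ (W : ℕ) (f₁ : (𝓞 F)[X]) (c : ℝ), GoodF g W f₁ ∧ 0 < c ∧
  ∀ (ε δ : ℝ), 0 < ε → 0 < δ → ∃ m₀ : ℕ, ∀ m ≥ m₀, ∃ n₀ : ℕ,
  ∀ (S R : Finset ℕ) (𝔮 : ℕ → Ideal (𝓞 F)) (h P : ℕ → (𝓞 F)[X]), Disjoint S R →
    GoodS g W (S ∪ R) 𝔮 h P → n₀ ≤ S.card → (∀ q ∈ S ∪ R, q ≤ S.card ^ 8) →
    ∃ B₀ : ℕ, ∀ B ≥ B₀,
    c * (B : ℝ) ^ (Module.finrank ℚ F * dd g) ≤
      (((∏ q ∈ S ∪ R, q ^ (2 * g)) ^ Module.finrank ℚ F : ℕ) : ℝ) *
      ({f : (𝓞 F)[X] | Ht g B f ∧ Base g W f₁ (S ∪ R) P f}.ncard : ℝ) ∧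
    (((∏ q ∈ S ∪ R, q ^ (2 * g)) ^ Module.finrank ℚ F : ℕ) : ℝ) *
      ({f : (𝓞 F)[X] | Ht g B f ∧ Base g W f₁ (S ∪ R) P f ∧ ¬ Law2 S R m₀ m ε f}.ncard : ℝ) ≤
      δ * (c * (B : ℝ) ^ (Module.finrank ℚ F * dd g))

/-- EXVG: as `S_EXV` (file `H18PR/Exv.lean`), for all `g`. -/
def S_EXVG : Prop := ∀ (g : ℕ) (F : Type) [Field F] [NumberField F], 1 ≤ g →
  ∀ (W i m : ℕ) (η : ℝ), 0 < η →
  ∃ (S R : Finset ℕ) (𝔮 : ℕ → Ideal (𝓞 F)) (h P : ℕ → (𝓞 F)[X]) (Q : ℕ), Disjoint S R ∧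
    GoodS g W (S ∪ R) 𝔮 h P ∧ m ≤ S.card ∧ (∀ q ∈ S ∪ R, q ≤ S.card ^ 8) ∧ 0 < Q ∧
    (∀ q ∈ S, Q ≤ q ∧ (q : ℝ) ≤ (1 + η) * Q) ∧
    (∀ q ∈ R, Q ^ 2 ≤ q ∧ (q : ℝ) ≤ (1 + η) * Q ^ 2) ∧
    S.card.choose (i + 2) = R.card * S.card.choose i

/-- REGG: from balanced boxes with integral `B` to all real heights, and few `f` in thin shells. From
`Pool.Agent.H18PR.shl` (`S_SHL`) for every coefficient; compare `H71PR/Reg.lean`, `Regw.lean`. No units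
are needed. -/
def S_REGG : Prop := ∀ (g : ℕ) (F : Type) [Field F] [NumberField F], 1 ≤ g →
  ∀ (W : ℕ) (c : ℝ), 0 < W → 0 < c → ∀ ε : ℝ, 0 < ε → ∃ δ : ℝ, 0 < δ ∧ ∀ m : ℕ, ∃ η : ℝ, 0 < η ∧
  ∀ (T : Finset ℕ) (f₁ : (𝓞 F)[X]) (P : ℕ → (𝓞 F)[X]) (Pr : (𝓞 F)[X] → Prop),
    (∀ q ∈ T, q.Prime ∧ Nat.Coprime W q) →
    (∃ B₀ : ℕ, ∀ B ≥ B₀,
      c * (B : ℝ) ^ (Module.finrank ℚ F * dd g) ≤
        (((∏ q ∈ T, q ^ (2 * g)) ^ Module.finrank ℚ F : ℕ) : ℝ) *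
        ({f : (𝓞 F)[X] | Ht g B f ∧ Base g W f₁ T P f}.ncard : ℝ) ∧
      (((∏ q ∈ T, q ^ (2 * g)) ^ Module.finrank ℚ F : ℕ) : ℝ) *
        ({f : (𝓞 F)[X] | Ht g B f ∧ Base g W f₁ T P f ∧ ¬ Pr f}.ncard : ℝ) ≤
        δ * (c * (B : ℝ) ^ (Module.finrank ℚ F * dd g))) →
    ∃ (c' Y₀ : ℝ), 0 < c' ∧ ∀ Y : ℝ, {f : (𝓞 F)[X] | HtR g Y f}.Finite ∧ (Y₀ ≤ Y →
    0 < {f : (𝓞 F)[X] | HtR g Y f ∧ Base g W f₁ T P f}.ncard ∧
    c' * ({f : (𝓞 F)[X] | HtR g Y f}.ncard : ℝ) ≤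
      ({f : (𝓞 F)[X] | HtR g Y f ∧ Base g W f₁ T P f}.ncard : ℝ) ∧
    ({f : (𝓞 F)[X] | HtR g Y f ∧ Base g W f₁ T P f ∧ ¬ HtR g (Y / (1 + η) ^ m) f}.ncard : ℝ) ≤
      ε * ({f : (𝓞 F)[X] | HtR g Y f ∧ Base g W f₁ T P f}.ncard : ℝ) ∧
    ({f : (𝓞 F)[X] | HtR g Y f ∧ Base g W f₁ T P f ∧ ¬ Pr f}.ncard : ℝ) ≤
      ε * ({f : (𝓞 F)[X] | HtR g Y f ∧ Base g W f₁ T P f}.ncard : ℝ))

/-- CMPG: the numbers of all polynomials of height at most `Y` and at most `Y / d` are comparable. -/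
def S_CMPG : Prop := ∀ (g : ℕ) (F : Type) [Field F] [NumberField F], ∀ d : ℝ, 0 < d →
  ∃ (C Y₀ : ℝ), 0 < C ∧ ∀ Y ≥ Y₀, {f : (𝓞 F)[X] | HtR g Y f}.Finite ∧
    ({f : (𝓞 F)[X] | HtR g Y f}.ncard : ℝ) ≤ C * ({f : (𝓞 F)[X] | HtR g (Y / d) f}.ncard : ℝ)

/-- DSJG: the twists are different (as `S_DSJ`, file `H68K/PR/...`): compare the valuations of the
discriminants, `dsc g (f.scaleRoots d) = d ^ (2 g (2 g + 1)) dsc g f`. -/
def S_DSJG : Prop := ∀ (g : ℕ) (F : Type) [Field F] [NumberField F] (f f' : (𝓞 F)[X])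
  (d d' : ℕ), 1 ≤ g → 0 < d → 0 < d' → f.Monic → f'.Monic → f.natDegree = 2 * g + 1 →
  f'.natDegree = 2 * g + 1 → SqF g f → SqF g f' →
  f.scaleRoots (d : 𝓞 F) = f'.scaleRoots (d' : 𝓞 F) → d = d' ∧ f = f'

/-- FAMG: the law (upper bounds) in the family of the twists, compare `H68K/PR/Fam6.lean`,
`Fam7.lean`. From `S_BALG`, `S_EXVG`, `S_REGG`, `S_CMPG`, `S_DSJG` and `S_EUL`. -/
def S_FAMG : Prop := ∀ (g : ℕ) (F : Type) [Field F] [NumberField F], 1 ≤ g →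
  ∀ ε : ℝ, 0 < ε → ∃ (W : ℕ) (f₁ : (𝓞 F)[X]) (T : Finset ℕ) (𝔮 : ℕ → Ideal (𝓞 F))
    (r P : ℕ → (𝓞 F)[X]) (𝒥 : Finset (Finset ℕ)), GoodF g W f₁ ∧ GoodS g W T 𝔮 r P ∧
    (∀ J ∈ 𝒥, J ⊆ T) ∧ ∃ (c Y₀ : ℝ), 0 < c ∧ ∀ Y : ℝ, {f : (𝓞 F)[X] | HtR g Y f}.Finite ∧
    (Y₀ ≤ Y → 0 < {f : (𝓞 F)[X] | HtR g Y f ∧ f ∈ Fml g W f₁ T P 𝒥}.ncard ∧
    c * ({f : (𝓞 F)[X] | HtR g Y f}.ncard : ℝ) ≤
      ({f : (𝓞 F)[X] | HtR g Y f ∧ f ∈ Fml g W f₁ T P 𝒥}.ncard : ℝ) ∧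
    ∀ k : ℕ, ({f : (𝓞 F)[X] | HtR g Y f ∧ f ∈ Fml g W f₁ T P 𝒥 ∧ ¬ SelLe (2 ^ k) f}.ncard : ℝ) ≤
      (1 - ∑ j ∈ Finset.range (k + 1), pr2 j + ε) *
        ({f : (𝓞 F)[X] | HtR g Y f ∧ f ∈ Fml g W f₁ T P 𝒥}.ncard : ℝ))

/-! ### The Selmer group of the Jacobian -/

section sel

open Pool.Agent.N874.Jac

variable {F : Type} [Field F] [NumberField F]

/-- The continuous cocycles with values in the points of order two, which are trivial in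
`H ^ 1 (F_v, J)` at all finite and real places `v`. -/
structure IsSel (f : (𝓞 F)[X]) (c : Cochain (fF f)) : Prop where
  coc : Cocycle c
  two : ∀ σ, c σ ^ 2 = 1
  fin : TrivialAtPrimes (𝓞 F) c
  real : TrivialAtReals c

/-- SELJ: the order of the 2-Selmer group. From `S_KUM`, `S_LOC`, `S_COB`, `S_DBL` of project JB
(`N352/JB/Def.lean`, `All.lean`, `N106/JB/Sha.lean`): the explicit classes of two cocycles are `h`, `h'`;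
if `h r` and `h' r` are squares, so is `h h'`, and the quotient of the cocycles is a coboundary. -/
def S_SELJ : Prop := ∀ (F : Type) [Field F] [NumberField F] (f : (𝓞 F)[X]), f.Monic →
  Odd f.natDegree → Irreducible (fF f) → ∀ n : ℕ, SelLe n f →
  ∀ c : Fin (n + 1) → Cochain (fF f), (∀ i, IsSel f (c i)) → ∃ i j, i ≠ j ∧
    ∃ R : J (fF f) (SeparableClosure F), R ^ 2 = 1 ∧
      ∀ σ, c i σ / c j σ = mapJ (fF f) σ.toAlgHom R / R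

end sel

end Pool.Agent.H18G
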