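import Pool.Agent.H18G.Stm
import Pool.Agent.N352.JB.All

set_option autoImplicit false
set_option linter.all false

open Polynomial IsDedekindDomain NumberField
open scoped Classical

namespace Pool.Agent.H18G.SELJ

open Pool.Agent.N352.JB (S_KUM S_LOC S_COB S_DBL KumD sqlT)
open Pool.Agent.Y160.SE
open Pool.Agent.TH115.GD (incl rs ak)
open Pool.Agent.N106.JB
open Pool.Agent.Y713.Jac (Gal)
open Pool.Agent.N783.PF (fF)

theorem kumT : S_KUM := Pool.Agent.N232.JB.kum Pool.Agent.N615.JB.lag Pool.Agent.N615.JB.nrm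
theorem locT : S_LOC := Pool.Agent.N424.JB.loc Pool.Agent.N615.JB.lag sqlT
theorem cobT : S_COB := Pool.Agent.N615.JB.cob
theorem dblT : S_DBL := Pool.Agent.N615.JB.dbl

/-- the explicit class of a cocycle with values in the points of order two -/
theorem cls {K : Type} [Field K] {f : K[X]} (hg : Good 2 (-1 : K) f) (hirr : Irreducible f)
    (c : Gal K → Jac 2 f (SeparableClosure K)) (hc : ACoc c) (ht : ∀ σ, 2 • c σ = 0) :
    ∃ (h : K[X]) (b : SeparableClosure K → SeparableClosure K), KumD hg c h b ∧ IsCoprime h f ∧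
      IsSquare (Algebra.norm K (AdjoinRoot.mk f h)) ∧
      ∀ (E : Type) [Field E] [Algebra K E], ATriv E c →
        Pool.Agent.N352.JB.LocIm E (f.map (algebraMap K E)) (h.map (algebraMap K E)) := by
  obtain ⟨d1, _, _⟩ := dblT K (SeparableClosure K) f hg
  have htor : ∀ σ, Tor hg (c σ) := fun σ => (d1 _).2 (ht σ)
  obtain ⟨h, b, hK, hsq⟩ := kumT K (SeparableClosure K) f hg hirr c hc.1 hc.2 htor
  refine ⟨h, b, hK, ?_, hsq, ?_⟩
  · have hnd : ¬ f ∣ h := by
      intro hd
      obtain ⟨e, he⟩ := exists_rt hg (SeparableClosure K)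
      obtain ⟨hb0, hb1⟩ := hK.val e he
      apply hb0
      have : aeval e h = 0 := by
        obtain ⟨q, hq⟩ := hd
        rw [hq, map_mul, show aeval e f = 0 from he, zero_mul]
      rw [this] at hb1
      exact pow_eq_zero_iff (two_ne_zero) |>.1 hb1
    exact ((hirr.coprime_iff_not_dvd).2 hnd).symm
  · intro E _ _ hE
    obtain ⟨ι, P, hP⟩ := hE
    exact locT K (SeparableClosure K) E (SeparableClosure E) f hg c htor h b hK ι P hP

/-- if the product of the explicit classes is a square, the sum is a coboundary -/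
theorem pair {K : Type} [Field K] {f : K[X]} (hg : Good 2 (-1 : K) f) (hirr : Irreducible f)
    (c c' : Gal K → Jac 2 f (SeparableClosure K)) (hc : ACoc c) (hc' : ACoc c')
    (ht : ∀ σ, 2 • c σ = 0) (ht' : ∀ σ, 2 • c' σ = 0) (h h' : K[X])
    (b b' : SeparableClosure K → SeparableClosure K) (hK : KumD hg c h b) (hK' : KumD hg c' h' b')
    (s : K[X]) (hs : f ∣ h * h' - s ^ 2) :
    ∃ R : Jac 2 f (SeparableClosure K), 2 • R = 0 ∧ ∀ σ, c σ - c' σ = jm 2 f (ak σ) R - R := by
  obtain ⟨d1, _, _⟩ := dblT K (SeparableClosure K) f hg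
  have htor : ∀ σ, Tor hg (c σ) := fun σ => (d1 _).2 (ht σ)
  have htor' : ∀ σ, Tor hg (c' σ) := fun σ => (d1 _).2 (ht' σ)
  have hco : ∀ σ τ, (fun σ => c σ + c' σ) (σ * τ) =
      (fun σ => c σ + c' σ) σ + jm 2 f (ak σ) ((fun σ => c σ + c' σ) τ) := by
    intro σ τ
    show c (σ * τ) + c' (σ * τ) = c σ + c' σ + jm 2 f (ak σ) (c τ + c' τ)
    rw [hc.2 σ τ, hc'.2 σ τ, map_add]
    abel
  have hKK : KumD hg (fun σ => c σ + c' σ) (h * h') (fun e => b e * b' e) := by
    constructor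
    · intro e he
      obtain ⟨h1, h2⟩ := hK.val e he
      obtain ⟨h3, h4⟩ := hK'.val e he
      refine ⟨mul_ne_zero h1 h3, ?_⟩
      show (b e * b' e) ^ 2 = aeval e (h * h')
      rw [mul_pow, h2, h4, map_mul]
    · intro σ e he
      show σ (b e * b' e) = chi hg (σ e) (c σ + c' σ) * (b (σ e) * b' (σ e))
      have hre : Rt f (σ e) := he.map (ak σ)
      rw [map_mul, hK.gal σ e he, hK'.gal σ e he, chi_add hyps hg (htor σ) (htor' σ) hre]
      ring
  obtain ⟨R, hR, hR2⟩ := cobT K (SeparableClosure K) f hg hirr _ hco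
    (fun σ => (htor σ).add (htor' σ)) (h * h') _ hKK s hs
  refine ⟨R, (d1 R).1 hR, fun σ => ?_⟩
  rw [← hR2 σ]
  show c σ - c' σ = c σ + c' σ
  have h5 : c' σ + c' σ = 0 := by rw [← two_nsmul]; exact ht' σ
  rw [sub_eq_add_neg, neg_eq_of_add_eq_zero_left h5]

theorem t : Pool.Agent.H18G.S_SELJ := by
  intro F _ _ f hm ho hirr n hSel c hc
  have hirr' : Irreducible (fF f) := hirr
  have hg : Good 2 (-1 : F) (fF f) := good2 two_ne_zero (hm.map _) hirr'.separable (by
    rwa [hm.natDegree_map])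
  have hco : ∀ i, ACoc fun σ => ad (c i σ) := fun i => acoc (hc i).coc
  have h2 : ∀ i, ∀ σ, 2 • ad (c i σ) = 0 := by
    intro i σ
    have h3 := (hc i).two σ
    exact h3
  choose h b hK hcop hsq hloc using fun i => cls hg hirr' (fun σ => ad (c i σ)) (hco i) (h2 i)
  have hSE : ∀ i, SelE f (h i) := by
    intro i
    refine ⟨hcop i, hsq i, ?_, ?_⟩
    · intro w
      exact hloc i (w.adicCompletion F) (atriv ((hc i).fin w))
    · intro σ
      letI := σ.toAlgebra
      exact hloc i ℝ (atriv ((hc i).real σ))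
  obtain ⟨r, hr, hr2⟩ := hSel
  choose k s hs using fun i => hr2 (h i) (hSE i)
  obtain ⟨i, j, hij, hk⟩ := Fintype.exists_ne_map_eq_of_card_lt k (by simp)
  refine ⟨i, j, hij, ?_⟩
  obtain ⟨u, v, huv⟩ := hr (k i)
  -- the product of the two classes is a square
  have hd : fF f ∣ h i * h j - (s i * s j * u) ^ 2 := by
    have h1 := hs i
    have h3 := hs j
    rw [← hk] at h3
    have e : h i * h j - (s i * s j * u) ^ 2 =
      h i * h j * (1 + u * r (k i)) * (v * fF f) +
      u ^ 2 * ((h i * r (k i) - s i ^ 2) * (h j * r (k i)) + s i ^ 2 * (h j * r (k i) - s j ^ 2)) := by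
      have h5 : v * fF f = 1 - u * r (k i) := by rw [← huv]; ring
      rw [h5]
      ring
    rw [e]
    refine dvd_add (Dvd.dvd.mul_left (dvd_mul_left (fF f) v) _) (Dvd.dvd.mul_left (dvd_add (h1.mul_right _) (h3.mul_left _)) _)
  obtain ⟨R, hR, hR2⟩ := pair hg hirr' _ _ (hco i) (hco j) (h2 i) (h2 j) (h i) (h j) (b i) (b j)
    (hK i) (hK j) _ hd
  refine ⟨mu R, hR, fun σ => ?_⟩
  have h6 := hR2 σ
  rw [← ad_mu R] at h6
  have h7 : ad (c i σ) - ad (c j σ) = jm 2 (fF f) (ak σ) (ad (mu R)) - ad (mu R) := h6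
  have h8 : ∀ x y : Pool.Agent.Y713.Jac.J 2 (fF f) (SeparableClosure F), ad (x / y) = ad x - ad y :=
    ad_div
  have h9 : ad (Pool.Agent.Y713.Jac.mapJ 2 (fF f) (ak σ) (mu R)) = jm 2 (fF f) (ak σ) (ad (mu R)) :=
    ad_mapJ (ak σ) (mu R)
  refine ad_inj ((h8 (c i σ) (c j σ)).trans (h7.trans ?_))
  rw [← h9]
  exact (h8 _ _).symm

end Pool.Agent.H18G.SELJ
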